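import Mathlib

set_option autoImplicit false

namespace Pool.Agent.Lib.MP_409048_lc

open scoped NNReal ENNReal

/-- Gauge functions, with the compact-open topology (uniform convergence on compact sets). -/
abbrev Gauge : Type := {f : C(ℝ≥0, ℝ≥0) // Monotone f ∧ f 0 = 0 ∧ ∀ t, 0 < t → 0 < f t}

/-- The Hausdorff measure of the gauge `f`. -/
noncomputable def haus (f : Gauge) (A : Set ℝ) : ℝ≥0∞ :=
  MeasureTheory.Measure.mkMetric (fun d : ℝ≥0∞ => (f.1 d.toNNReal : ℝ≥0∞)) A

/-- The gauge functions giving positive measure to `A`. -/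
def posGauges (A : Set ℝ) : Set Gauge := {f | 0 < haus f A}

/-- The set coded by `c`: a countable union of closed sets, the complement of the `n`-th one being
the union of the basic open sets with indices `c ⟨n, j⟩`. -/
def coded (O : ℕ → Set Gauge) (c : ℕ → ℕ) : Set Gauge := ⋃ n, (⋃ j, O (c (Nat.pair n j)))ᶜ

/-- The codes of sets of the form `I(C)` with `C` closed. -/
def realCodes (O : ℕ → Set Gauge) : Set (ℕ → ℕ) :=
  {c | ∃ C : Set ℝ, IsClosed C ∧ coded O c = posGauges C}

/-- Boldface `Σ¹₂` subsets of Baire space: projections of coanalytic sets. -/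
def IsSigma12 (A : Set (ℕ → ℕ)) : Prop :=
  ∃ P : Set ((ℕ → ℕ) × (ℕ → ℕ)), MeasureTheory.AnalyticSet Pᶜ ∧ A = Prod.fst '' P

end Pool.Agent.Lib.MP_409048_lc
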