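import Mathlib

set_option autoImplicit false

namespace Pool.Agent.Lib.MP_409048_lc

open Finset

/-- Sum over the dyadic descendants `r` levels below the node `n`. -/
noncomputable def ms (μ : ℕ → ℝ) (r n : ℕ) : ℝ := ∑ u ∈ range (2 ^ r), μ (n * 2 ^ r + u)

@[simp] lemma ms_zero (μ : ℕ → ℝ) (n : ℕ) : ms μ 0 n = μ n := by simp [ms]

lemma ms_succ (μ : ℕ → ℝ) (r n : ℕ) : ms μ (r + 1) n = ms μ r (2 * n) + ms μ r (2 * n + 1) := by
  unfold ms
  rw [pow_succ, mul_two, sum_range_add]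
  congr 1
  · apply sum_congr rfl; intro u _; congr 1; ring
  · apply sum_congr rfl; intro u _; congr 1; ring

lemma ms_add (μ : ℕ → ℝ) (r s n : ℕ) : ms μ (r + s) n = ms (ms μ r) s n := by
  induction s generalizing n with
  | zero => simp
  | succ s ih => rw [← add_assoc, ms_succ, ms_succ, ih, ih]

lemma ms_nonneg {μ : ℕ → ℝ} (h : ∀ n, 0 ≤ μ n) (r n : ℕ) : 0 ≤ ms μ r n :=
  sum_nonneg fun _ _ => h _

lemma ms_mono {μ μ' : ℕ → ℝ} (h : ∀ n, μ n ≤ μ' n) (r n : ℕ) : ms μ r n ≤ ms μ' r n :=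
  sum_le_sum fun _ _ => h _

lemma div_desc {r n u : ℕ} (hu : u < 2 ^ r) : (n * 2 ^ r + u) / 2 ^ r = n := by
  rw [add_comm, Nat.add_mul_div_right _ _ (by positivity), Nat.div_eq_of_lt hu, zero_add]

lemma ms_congr {μ μ' : ℕ → ℝ} {r n : ℕ} (h : ∀ n', n' / 2 ^ r = n → μ n' = μ' n') :
    ms μ r n = ms μ' r n :=
  sum_congr rfl fun _ hu => h _ (div_desc (mem_range.mp hu))

lemma ms_mono' {μ μ' : ℕ → ℝ} {r n : ℕ} (h : ∀ n', n' / 2 ^ r = n → μ n' ≤ μ' n') :
    ms μ r n ≤ ms μ' r n :=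
  sum_le_sum fun _ hu => h _ (div_desc (mem_range.mp hu))

lemma ms_ite (N : ℕ) (w : ℝ) (r n : ℕ) :
    ms (fun n' => if N = n' then w else 0) r n = if N / 2 ^ r = n then w else 0 := by
  unfold ms
  beta_reduce
  split_ifs with h
  · rw [sum_eq_single (N % 2 ^ r)]
    · rw [if_pos]
      rw [← h, mul_comm]
      exact (Nat.div_add_mod _ _).symm
    · intro u hu hne
      rw [if_neg]
      intro h2
      apply hne
      rw [h2, add_comm, Nat.add_mul_mod_self_right, Nat.mod_eq_of_lt (mem_range.mp hu)]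
    · intro h2
      exact absurd (mem_range.mpr (Nat.mod_lt _ (by positivity))) h2
  · apply sum_eq_zero
    intro u hu
    rw [if_neg]
    intro h2
    apply h
    rw [h2, div_desc (mem_range.mp hu)]

lemma ms_sum {ι : Type} (s : Finset ι) (μ : ι → ℕ → ℝ) (r n : ℕ) :
    ms (fun n' => ∑ i ∈ s, μ i n') r n = ∑ i ∈ s, ms (μ i) r n := by
  unfold ms
  exact sum_comm

lemma ms_mul (a : ℝ) (μ : ℕ → ℝ) (r n : ℕ) : ms (fun n' => a * μ n') r n = a * ms μ r n := by
  unfold ms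
  rw [mul_sum]

lemma ms_eq_filter {μ : ℕ → ℝ} {B : ℕ} (h : ∀ n', B ≤ n' → μ n' = 0) (r n : ℕ) :
    ms μ r n = ∑ N ∈ range B, if N / 2 ^ r = n then μ N else 0 := by
  have : μ = fun n' => ∑ N ∈ range B, if N = n' then μ N else 0 := by
    funext n'
    rw [sum_ite_eq']
    split_ifs with h2
    · rfl
    · exact h _ (by simpa using h2)
  conv_lhs => rw [this]
  rw [ms_sum]
  simp only [ms_ite]

lemma le_ms {μ : ℕ → ℝ} (h : ∀ n, 0 ≤ μ n) (r n' : ℕ) : μ n' ≤ ms μ r (n' / 2 ^ r) := by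
  have : μ n' = μ (n' / 2 ^ r * 2 ^ r + n' % 2 ^ r) := by rw [mul_comm, Nat.div_add_mod]
  rw [this]
  exact single_le_sum (f := fun u => μ (n' / 2 ^ r * 2 ^ r + u)) (fun _ _ => h _)
    (mem_range.mpr (Nat.mod_lt _ (by positivity)))

lemma exists_of_ms_pos {μ : ℕ → ℝ} {r n : ℕ} (h : 0 < ms μ r n) :
    ∃ n', n' / 2 ^ r = n ∧ 0 < μ n' := by
  by_contra hc
  push Not at hc
  have : ms μ r n ≤ 0 := sum_nonpos fun u hu => hc _ (div_desc (mem_range.mp hu))
  linarith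

lemma ms_le_of_le {μ : ℕ → ℝ} {r n : ℕ} {b : ℝ} (h : ∀ n', μ n' ≤ b) : ms μ r n ≤ 2 ^ r * b := by
  have := sum_le_card_nsmul (range (2 ^ r)) (fun u => μ (n * 2 ^ r + u)) b (fun _ _ => h _)
  simpa [ms] using this

/-- A flow on the dyadic tree. -/
structure IsFlow (ν : ℕ → ℕ → ℝ) : Prop where
  nonneg : ∀ m n, 0 ≤ ν m n
  add : ∀ m n, ν m n = ν (m + 1) (2 * n) + ν (m + 1) (2 * n + 1)

lemma IsFlow.eq_ms {ν : ℕ → ℕ → ℝ} (h : IsFlow ν) (r m n : ℕ) : ν m n = ms (ν (m + r)) r n := by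
  induction r generalizing m n with
  | zero => simp
  | succ r ih =>
    rw [ms_succ, h.add, ih (m + 1), ih (m + 1)]
    have : m + 1 + r = m + (r + 1) := by ring
    rw [this]

lemma IsFlow.le_anc {ν : ℕ → ℕ → ℝ} (h : IsFlow ν) (r m n : ℕ) :
    ν (m + r) n ≤ ν m (n / 2 ^ r) := by
  rw [h.eq_ms r m]
  exact le_ms (h.nonneg _) _ _

/-- The tree `τ` carries a nonzero flow dominated by `g`. -/
def Pos (τ : ℕ → ℕ → Prop) (g : ℕ → ℝ) : Prop :=
  ∃ ν : ℕ → ℕ → ℝ, IsFlow ν ∧ 0 < ν 0 0 ∧ (∀ m n, ν m n ≤ g m) ∧ ∀ m n, 0 < ν m n → τ m n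

lemma Pos.of_smul {τ : ℕ → ℕ → Prop} {g : ℕ → ℝ} {ν : ℕ → ℕ → ℝ} {M : ℝ} (hM : 0 < M)
    (h1 : IsFlow ν) (h2 : 0 < ν 0 0) (h3 : ∀ m n, ν m n ≤ M * g m)
    (h4 : ∀ m n, 0 < ν m n → τ m n) : Pos τ g := by
  refine ⟨fun m n => ν m n / M, ⟨fun m n => div_nonneg (h1.nonneg _ _) hM.le, fun m n => ?_⟩,
    div_pos h2 hM, fun m n => ?_, fun m n h => h4 m n ?_⟩
  · rw [h1.add, add_div]
  · rw [div_le_iff₀ hM, mul_comm]; exact h3 m n
  · exact (div_pos_iff_of_pos_right hM).mp h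

/-- Flow obtained from consistent masses along an increasing sequence of levels. -/
lemma exists_flow_of_levels (lv : ℕ → ℕ) (hlv : StrictMono lv) (a : ℕ → ℕ → ℝ)
    (ha : ∀ j n, 0 ≤ a j n) (hc : ∀ j n, a j n = ms (a (j + 1)) (lv (j + 1) - lv j) n) :
    ∃ ν : ℕ → ℕ → ℝ, IsFlow ν ∧ ∀ j m n, m ≤ lv j → ν m n = ms (a j) (lv j - m) n := by
  have key : ∀ j d m n, m ≤ lv j → ms (a j) (lv j - m) n = ms (a (j + d)) (lv (j + d) - m) n := by
    intro j d m n hm
    induction d with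
    | zero => rfl
    | succ d ih =>
      have h1 : lv j ≤ lv (j + d) := hlv.monotone (by omega)
      have h2 : lv (j + d) < lv (j + d + 1) := hlv (by omega)
      have h3 : lv (j + (d + 1)) - m = (lv (j + d + 1) - lv (j + d)) + (lv (j + d) - m) := by
        rw [← add_assoc]; omega
      rw [ih, h3, ms_add]
      congr 1
      funext n'
      exact hc _ _
  have key2 : ∀ j m n, m ≤ lv j → ms (a m) (lv m - m) n = ms (a j) (lv j - m) n := by
    intro j m n hm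
    have h1 := key m j m n (hlv.id_le m)
    have h2 := key j m m n hm
    rw [h1, h2, add_comm]
  refine ⟨fun m n => ms (a m) (lv m - m) n, ⟨fun m n => ms_nonneg (ha _) _ _, fun m n => ?_⟩,
    fun j m n hm => key2 j m n hm⟩
  have h1 : m + 1 ≤ lv (m + 1) := hlv.id_le (m + 1)
  rw [key2 (m + 1) m n (by omega)]
  have : lv (m + 1) - m = (lv (m + 1) - (m + 1)) + 1 := by omega
  rw [this, ms_succ]

section cap
variable (τ : ℕ → ℕ → Prop) (g : ℕ → ℝ)

open Classical in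
/-- Finite depth capacity. -/
noncomputable def cN : ℕ → ℕ → ℕ → ℝ
  | 0, m, n => if τ m n then g m else 0
  | d + 1, m, n => min (if τ m n then g m else 0) (cN d (m + 1) (2 * n) + cN d (m + 1) (2 * n + 1))

/-- Capacity of the subtree below a node. -/
noncomputable def cap (m n : ℕ) : ℝ := ⨅ d, cN τ g d m n

variable {τ g}

lemma cN_nonneg (hg : ∀ m, 0 ≤ g m) (d m n : ℕ) : 0 ≤ cN τ g d m n := by
  induction d generalizing m n with
  | zero => simp only [cN]; split_ifs; exacts [hg m, le_rfl]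
  | succ d ih =>
    simp only [cN]
    refine le_min ?_ (add_nonneg (ih _ _) (ih _ _))
    split_ifs; exacts [hg m, le_rfl]

lemma cN_succ_le (d m n : ℕ) : cN τ g (d + 1) m n ≤ cN τ g d m n := by
  induction d generalizing m n with
  | zero => simp only [cN]; exact min_le_left _ _
  | succ d ih =>
    rw [cN, cN]
    exact min_le_min le_rfl (add_le_add (ih _ _) (ih _ _))

lemma cN_anti (m n : ℕ) : Antitone fun d => cN τ g d m n :=
  antitone_nat_of_succ_le fun d => cN_succ_le d m n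

lemma cN_bdd (hg : ∀ m, 0 ≤ g m) (m n : ℕ) : BddBelow (Set.range fun d => cN τ g d m n) :=
  ⟨0, by rintro _ ⟨d, rfl⟩; exact cN_nonneg hg d m n⟩

lemma cap_le_cN (hg : ∀ m, 0 ≤ g m) (d m n : ℕ) : cap τ g m n ≤ cN τ g d m n :=
  ciInf_le (cN_bdd hg m n) d

lemma cap_nonneg (hg : ∀ m, 0 ≤ g m) (m n : ℕ) : 0 ≤ cap τ g m n :=
  le_ciInf fun d => cN_nonneg hg d m n

lemma cap_le (hg : ∀ m, 0 ≤ g m) (m n : ℕ) : cap τ g m n ≤ g m := by
  refine (cap_le_cN hg 0 m n).trans ?_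
  simp only [cN]; split_ifs; exacts [le_rfl, hg m]

lemma tree_of_cap_pos (hg : ∀ m, 0 ≤ g m) {m n : ℕ} (h : 0 < cap τ g m n) : τ m n := by
  have := h.trans_le (cap_le_cN hg 0 m n)
  simp only [cN] at this
  by_contra hc
  rw [if_neg hc] at this
  exact lt_irrefl _ this

lemma exists_cN_lt {m n : ℕ} {e : ℝ} (h : cap τ g m n < e) :
    ∃ d, cN τ g d m n < e := exists_lt_of_ciInf_lt h

lemma tendsto_cN (hg : ∀ m, 0 ≤ g m) (m n : ℕ) :
    Filter.Tendsto (fun d => cN τ g d m n) Filter.atTop (nhds (cap τ g m n)) :=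
  tendsto_atTop_ciInf (cN_anti m n) (cN_bdd hg m n)

lemma cap_le_add (hg : ∀ m, 0 ≤ g m) (m n : ℕ) :
    cap τ g m n ≤ cap τ g (m + 1) (2 * n) + cap τ g (m + 1) (2 * n + 1) := by
  refine ge_of_tendsto' ((tendsto_cN hg _ _).add (tendsto_cN hg _ _)) fun d => ?_
  refine (cap_le_cN hg (d + 1) m n).trans ?_
  rw [cN]
  exact min_le_right _ _

lemma cap_le_parent (hg : ∀ m, 0 ≤ g m) (hga : Antitone g)
    (hτ : ∀ m n, τ (m + 1) n → τ m (n / 2)) (m n : ℕ) :
    cap τ g (m + 1) n ≤ cap τ g m (n / 2) := by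
  rcases (cap_nonneg hg (m + 1) n (τ := τ)).eq_or_lt with h | h
  · rw [← h]; exact cap_nonneg hg _ _
  have h1 := hτ _ _ (tree_of_cap_pos hg h)
  have h2 : cap τ g (m + 1) n ≤ g m := (cap_le hg _ _).trans (hga (Nat.le_succ m))
  apply le_ciInf
  intro d
  cases d with
  | zero => simp only [cN, if_pos h1]; exact h2
  | succ d =>
    simp only [cN, if_pos h1]
    refine le_min h2 ?_
    have h3 := cap_le_cN (τ := τ) hg d (m + 1) n
    rcases Nat.even_or_odd' n with ⟨k, rfl | rfl⟩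
    · have : 2 * k / 2 = k := by omega
      rw [this]
      linarith [cN_nonneg (τ := τ) hg d (m + 1) (2 * k + 1)]
    · have : (2 * k + 1) / 2 = k := by omega
      rw [this]
      linarith [cN_nonneg (τ := τ) hg d (m + 1) (2 * k)]

lemma cap_le_anc (hg : ∀ m, 0 ≤ g m) (hga : Antitone g)
    (hτ : ∀ m n, τ (m + 1) n → τ m (n / 2)) (r m n : ℕ) :
    cap τ g (m + r) n ≤ cap τ g m (n / 2 ^ r) := by
  induction r generalizing n with
  | zero => simp
  | succ r ih =>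
    refine (cap_le_parent hg hga hτ (m + r) n).trans ((ih _).trans ?_)
    rw [Nat.div_div_eq_div_mul, pow_succ']

lemma cN_congr {τ' : ℕ → ℕ → Prop} {g' : ℕ → ℝ} (d m n : ℕ)
    (h1 : ∀ k n, k ≤ m + d → (τ k n ↔ τ' k n)) (h2 : ∀ k, k ≤ m + d → g k = g' k) :
    cN τ g d m n = cN τ' g' d m n := by
  induction d generalizing m n with
  | zero => simp only [cN]; rw [propext (h1 m n (by omega)), h2 m (by omega)]
  | succ d ih =>
    simp only [cN]
    rw [propext (h1 m n (by omega)), h2 m (by omega), ih (m + 1) _ (fun k n hk => h1 k n (by omega)) (fun k hk => h2 k (by omega)),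
      ih (m + 1) _ (fun k n hk => h1 k n (by omega)) (fun k hk => h2 k (by omega))]

lemma le_cN_of_flow {ν : ℕ → ℕ → ℝ} (h1 : IsFlow ν) (h3 : ∀ m n, ν m n ≤ g m)
    (h4 : ∀ m n, 0 < ν m n → τ m n) (d m n : ℕ) : ν m n ≤ cN τ g d m n := by
  have h0 : ∀ m n, ν m n ≤ cN τ g 0 m n := by
    intro m n
    simp only [cN]
    split_ifs with h
    · exact h3 m n
    · by_contra hc
      exact h (h4 m n (not_le.mp hc))
  induction d generalizing m n with
  | zero => exact h0 m n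
  | succ d ih =>
    rw [cN]
    refine le_min (h0 m n) ?_
    rw [h1.add]
    exact add_le_add (ih _ _) (ih _ _)

/-- Frostman flow below the node `(m, n)`. -/
noncomputable def fr (c : ℕ → ℕ → ℝ) (m n : ℕ) : ℕ → ℕ → ℝ
  | 0, n' => if n' = n then c m n else 0
  | d + 1, n' => fr c m n d (n' / 2) * (c (m + d + 1) n' /
      (c (m + d + 1) (2 * (n' / 2)) + c (m + d + 1) (2 * (n' / 2) + 1)))

lemma exists_local_flow (hg : ∀ m, 0 ≤ g m) (m n : ℕ) :
    ∃ ν : ℕ → ℕ → ℝ, IsFlow ν ∧ ν 0 n = cap τ g m n ∧ (∀ n', n' ≠ n → ν 0 n' = 0) ∧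
      ∀ d n', ν d n' ≤ cap τ g (m + d) n' := by
  set c := cap τ g with hc
  have c0 : ∀ m n, 0 ≤ c m n := cap_nonneg hg
  have c1 : ∀ m n, c m n ≤ c (m + 1) (2 * n) + c (m + 1) (2 * n + 1) := cap_le_add hg
  have key : ∀ d n', 0 ≤ fr c m n d n' ∧ fr c m n d n' ≤ c (m + d) n' := by
    intro d
    induction d with
    | zero =>
      intro n'
      simp only [fr]
      split_ifs with h
      · rw [h]; exact ⟨c0 _ _, le_rfl⟩
      · exact ⟨le_rfl, c0 _ _⟩
    | succ d ih =>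
      intro n'
      simp only [fr]
      obtain ⟨h1, h2⟩ := ih (n' / 2)
      have h3 := c1 (m + d) (n' / 2)
      set s := c (m + d + 1) (2 * (n' / 2)) + c (m + d + 1) (2 * (n' / 2) + 1) with hs
      have hs0 : 0 ≤ s := add_nonneg (c0 _ _) (c0 _ _)
      refine ⟨mul_nonneg h1 (div_nonneg (c0 _ _) hs0), ?_⟩
      rcases hs0.eq_or_lt with h | h
      · rw [← h, div_zero, mul_zero]; exact c0 _ _
      · rw [← mul_div_assoc, div_le_iff₀ h, mul_comm]
        exact mul_le_mul_of_nonneg_left (h2.trans h3) (c0 _ _)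
  refine ⟨fr c m n, ⟨fun d n' => (key d n').1, fun d n' => ?_⟩, by simp [fr], ?_,
    fun d n' => (key d n').2⟩
  · simp only [fr]
    have e1 : 2 * n' / 2 = n' := by omega
    have e2 : (2 * n' + 1) / 2 = n' := by omega
    rw [e1, e2, ← mul_add, ← add_div]
    set s := c (m + d + 1) (2 * n') + c (m + d + 1) (2 * n' + 1) with hs
    have hs0 : 0 ≤ s := add_nonneg (c0 _ _) (c0 _ _)
    rcases hs0.eq_or_lt with h | h
    · have h3 := c1 (m + d) n'
      have := key d n'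
      have h4 : fr c m n d n' = 0 := by linarith [this.1, this.2]
      rw [h4, zero_mul]
    · rw [div_self h.ne', mul_one]
  · intro n' h
    simp [fr, h]

lemma pos_iff_cap (hg : ∀ m, 0 ≤ g m) : Pos τ g ↔ 0 < cap τ g 0 0 := by
  constructor
  · rintro ⟨ν, h1, h2, h3, h4⟩
    exact h2.trans_le (le_ciInf fun d => le_cN_of_flow h1 h3 h4 d 0 0)
  · intro h
    obtain ⟨ν, h1, h2, -, h4⟩ := exists_local_flow (τ := τ) hg 0 0
    refine ⟨ν, h1, h2 ▸ h, fun m n => ?_, fun m n hp => ?_⟩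
    · have := h4 m n
      rw [zero_add] at this
      exact this.trans (cap_le hg _ _)
    · have := h4 m n
      rw [zero_add] at this
      exact tree_of_cap_pos hg (hp.trans_le this)

end cap

end Pool.Agent.Lib.MP_409048_lc
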