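import Mathlib
import Pool.Agent.Lib.MP_409048_lc.Defs
import Pool.Agent.Lib.MP_409048_lc.Flow

set_option autoImplicit false

namespace Pool.Agent.Lib.MP_409048_lc

open Finset Filter Topology
open scoped NNReal ENNReal

/-- Values of a gauge at dyadic scales. -/
noncomputable def gs (f : Gauge) (m : ℕ) : ℝ := (f.1 ((2 : ℝ≥0)⁻¹ ^ m) : ℝ)

lemma gs_pos (f : Gauge) (m : ℕ) : 0 < gs f m := by
  have := f.2.2.2 ((2 : ℝ≥0)⁻¹ ^ m) (by positivity)
  exact_mod_cast this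

lemma gs_nonneg (f : Gauge) (m : ℕ) : 0 ≤ gs f m := (gs_pos f m).le

lemma continuous_gs (m : ℕ) : Continuous fun f : Gauge => gs f m := by
  unfold gs
  fun_prop

/-- Closed dyadic interval. -/
def dy (a : ℝ) (m n : ℕ) : Set ℝ := Set.Icc (a + n / 2 ^ m) (a + (n + 1) / 2 ^ m)

lemma dy_subset_anc (a : ℝ) (m r n : ℕ) : dy a (m + r) n ⊆ dy a m (n / 2 ^ r) := by
  apply Set.Icc_subset_Icc
  · have h : ((n / 2 ^ r : ℕ) : ℝ) ≤ n / 2 ^ r := by
      have := @Nat.cast_div_le ℝ _ _ _ n (2 ^ r)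
      simpa using this
    have : ((n / 2 ^ r : ℕ) : ℝ) / 2 ^ m ≤ n / 2 ^ (m + r) := by
      rw [pow_add, mul_comm, ← div_div]
      gcongr
    linarith
  · have h : n + 1 ≤ (n / 2 ^ r + 1) * 2 ^ r := by
      have := Nat.lt_div_mul_add (a := n) (b := 2 ^ r) (by positivity)
      rw [add_mul, one_mul]; omega
    have h2 : ((n : ℝ) + 1) ≤ (((n / 2 ^ r : ℕ) : ℝ) + 1) * 2 ^ r := by exact_mod_cast h
    have : ((n : ℝ) + 1) / 2 ^ (m + r) ≤ (((n / 2 ^ r : ℕ) : ℝ) + 1) / 2 ^ m := by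
      rw [pow_add, mul_comm, ← div_div]
      gcongr
      rw [div_le_iff₀ (by positivity)]
      exact h2
    linarith

lemma dy_nonempty (a : ℝ) (m n : ℕ) : (dy a m n).Nonempty := by
  apply Set.nonempty_Icc.mpr
  gcongr
  linarith

lemma exists_dy {a x : ℝ} (h : x ∈ Set.Icc a (a + 1)) (N : ℕ) : ∃ n < 2 ^ N, x ∈ dy a N n := by
  have h2 : (0 : ℝ) < 2 ^ N := by positivity
  rcases h.2.eq_or_lt with h1 | h1
  · refine ⟨2 ^ N - 1, Nat.sub_lt (by positivity) one_pos, ?_⟩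
    have : ((2 ^ N - 1 : ℕ) : ℝ) = 2 ^ N - 1 := by
      rw [Nat.cast_sub (Nat.one_le_two_pow)]; simp
    constructor
    · rw [this, h1]
      have : ((2 : ℝ) ^ N - 1) / 2 ^ N ≤ 1 := by rw [div_le_one h2]; linarith
      linarith
    · rw [this, h1, sub_add_cancel, div_self h2.ne']
  · have h3 : 0 ≤ (x - a) * 2 ^ N := mul_nonneg (by linarith [h.1]) h2.le
    refine ⟨⌊(x - a) * 2 ^ N⌋₊, ?_, ?_, ?_⟩
    · rw [Nat.floor_lt h3]
      push_cast
      nlinarith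
    · have := Nat.floor_le h3
      have : (⌊(x - a) * 2 ^ N⌋₊ : ℝ) / 2 ^ N ≤ x - a := by rw [div_le_iff₀ h2]; exact this
      linarith
    · have := (Nat.lt_floor_add_one ((x - a) * 2 ^ N)).le
      have : x - a ≤ ((⌊(x - a) * 2 ^ N⌋₊ : ℝ) + 1) / 2 ^ N := by rw [le_div_iff₀ h2]; exact this
      linarith

lemma dy_subset_Icc (a : ℝ) {m n : ℕ} (h : n < 2 ^ m) : dy a m n ⊆ Set.Icc a (a + 1) := by
  have := dy_subset_anc a 0 m n
  rw [zero_add, Nat.div_eq_of_lt h] at this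
  simpa [dy] using this

lemma sum_ite_le_ms {μ : ℕ → ℝ} (h : ∀ n, 0 ≤ μ n) (B r n : ℕ) :
    (∑ N ∈ range B, if N / 2 ^ r = n then μ N else 0) ≤ ms μ r n := by
  have h1 := ms_eq_filter (μ := fun N => if N < B then μ N else 0) (B := B)
    (fun n' h => if_neg (by omega)) r n
  have h2 : ms (fun N => if N < B then μ N else 0) r n ≤ ms μ r n :=
    ms_mono (fun N => by split_ifs; exacts [le_rfl, h N]) _ _
  refine le_trans (le_of_eq ?_) (h1 ▸ h2)
  apply sum_congr rfl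
  intro N hN
  rw [if_pos (mem_range.mp hN)]

open Classical in
lemma mass_ball {ν : ℕ → ℕ → ℝ} (h1 : IsFlow ν) (f : Gauge) (h3 : ∀ m n, ν m n ≤ gs f m)
    (a x : ℝ) (d : ℝ≥0) (N : ℕ) (hN : (2 : ℝ≥0)⁻¹ ^ N ≤ d) :
    (∑ n ∈ range (2 ^ N), if (dy a N n ∩ Metric.ball x d).Nonempty then ν N n else 0)
      ≤ 6 * f.1 d := by
  have hex : ∃ m, (2 : ℝ≥0)⁻¹ ^ m ≤ d := ⟨N, hN⟩
  obtain ⟨m, hm, hm', hmN⟩ : ∃ m, (2 : ℝ≥0)⁻¹ ^ m ≤ d ∧ (m = 0 ∨ (d : ℝ) < 2 / 2 ^ m) ∧ m ≤ N := by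
    refine ⟨Nat.find hex, Nat.find_spec hex, ?_, Nat.find_min' hex hN⟩
    rcases Nat.eq_zero_or_pos (Nat.find hex) with h | h
    · exact Or.inl h
    · right
      have := Nat.find_min hex (m := Nat.find hex - 1) (by omega)
      rw [not_le] at this
      obtain ⟨k, hk⟩ : ∃ k, Nat.find hex = k + 1 := ⟨Nat.find hex - 1, by omega⟩
      rw [hk] at this ⊢
      have h2 : (d : ℝ) < ((2 : ℝ≥0)⁻¹ ^ k : ℝ≥0) := NNReal.coe_lt_coe.mpr this
      push_cast at h2
      rw [pow_succ, inv_pow] at *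
      calc (d : ℝ) < (2 ^ k)⁻¹ := h2
        _ = 2 / (2 ^ k * 2) := by field_simp
  obtain ⟨r, rfl⟩ : ∃ r, N = m + r := ⟨N - m, by omega⟩
  obtain ⟨j0, hj0⟩ : ∃ j0 : ℕ, ∀ n < 2 ^ (m + r), (dy a (m + r) n ∩ Metric.ball x d).Nonempty →
      ∃ u < 6, n / 2 ^ r = j0 + u := by
    rcases hm' with h | h
    · refine ⟨0, fun n hn _ => ⟨0, by norm_num, ?_⟩⟩
      rw [h, zero_add] at hn
      exact Nat.div_eq_of_lt hn
    · refine ⟨⌊(x - a) * 2 ^ m - 3⌋₊, fun n _ ⟨y, hy1, hy2⟩ => ?_⟩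
      have hy3 := dy_subset_anc a m r n hy1
      generalize n / 2 ^ r = j at hy3
      have h2 : (0 : ℝ) < 2 ^ m := by positivity
      rw [Metric.mem_ball, Real.dist_eq, abs_lt] at hy2
      have e1 : (j : ℝ) ≤ (y - a) * 2 ^ m := by
        rw [← div_le_iff₀ h2]; linarith [hy3.1]
      have e2 : (y - a) * 2 ^ m ≤ j + 1 := by
        rw [← le_div_iff₀ h2]; linarith [hy3.2]
      have e3 : (d : ℝ) * 2 ^ m < 2 := by rwa [← lt_div_iff₀ h2]
      have e4 : (y - x) * 2 ^ m < 2 := by nlinarith [hy2.2]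
      have e5 : -2 < (y - x) * 2 ^ m := by nlinarith [hy2.1]
      have e6 : ⌊(x - a) * 2 ^ m - 3⌋₊ ≤ j := by
        apply Nat.floor_le_of_le
        nlinarith
      have e7 : (j : ℝ) < (⌊(x - a) * 2 ^ m - 3⌋₊ + 6 : ℕ) := by
        have := Nat.lt_floor_add_one ((x - a) * 2 ^ m - 3)
        push_cast
        nlinarith
      have e8 : j < ⌊(x - a) * 2 ^ m - 3⌋₊ + 6 := by exact_mod_cast e7
      exact ⟨j - ⌊(x - a) * 2 ^ m - 3⌋₊, by omega, by omega⟩
  have hf : gs f m ≤ f.1 d := by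
    have := f.2.1 hm
    exact_mod_cast this
  calc _ ≤ ∑ n ∈ range (2 ^ (m + r)), ∑ u ∈ range 6,
        if n / 2 ^ r = j0 + u then ν (m + r) n else 0 := by
        apply sum_le_sum
        intro n hn
        split_ifs with h
        · obtain ⟨u, hu, hu'⟩ := hj0 n (mem_range.mp hn) h
          have := single_le_sum (f := fun u => if n / 2 ^ r = j0 + u then ν (m + r) n else 0)
            (fun u _ => by split_ifs; exacts [h1.nonneg _ _, le_rfl]) (mem_range.mpr hu)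
          simpa [hu'] using this
        · exact sum_nonneg fun u _ => by split_ifs; exacts [h1.nonneg _ _, le_rfl]
    _ ≤ ∑ u ∈ range 6, (f.1 d : ℝ) := by
        rw [sum_comm]
        apply sum_le_sum
        intro u _
        refine (sum_ite_le_ms (h1.nonneg _) _ _ _).trans ?_
        rw [← h1.eq_ms]
        exact (h3 _ _).trans hf
    _ = 6 * f.1 d := by simp

theorem haus_pos_of_flow {X : Set ℝ} (hX : IsClosed X) (f : Gauge) (a : ℝ) {ν : ℕ → ℕ → ℝ}
    (h1 : IsFlow ν) (h2 : 0 < ν 0 0) (h3 : ∀ m n, ν m n ≤ gs f m)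
    (h4 : ∀ m n, n < 2 ^ m → 0 < ν m n → (dy a m n ∩ X).Nonempty) : 0 < haus f X := by
  classical
  have hpos : 0 < ENNReal.ofReal (ν 0 0 / 12) := ENNReal.ofReal_pos.mpr (by positivity)
  refine hpos.trans_le ?_
  rw [haus, MeasureTheory.Measure.mkMetric_apply]
  refine le_iSup₂_of_le 1 one_pos (le_iInf fun t => le_iInf fun ht => le_iInf fun hd => ?_)
  set c : ℕ → ℝ≥0∞ := fun n => ⨆ _ : (t n).Nonempty, (f.1 (Metric.ediam (t n)).toNNReal : ℝ≥0∞)
    with hc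
  by_contra hlt
  rw [not_le] at hlt
  have hct : ∀ n, c n ≠ ⊤ := fun n => ne_top_of_le_ne_top (hlt.trans ENNReal.ofReal_lt_top).ne
    (ENNReal.le_tsum n)
  obtain ⟨ε, hε, e, he, he'⟩ := posSumOfEncodable (ε := ν 0 0 / 24) (by positivity) ℕ
  have key : ∀ i, ∃ (x : ℝ) (d : ℝ≥0), 0 < d ∧ t i ⊆ Metric.ball x d ∧
      (f.1 d : ℝ) ≤ (c i).toReal + ε i := by
    intro i
    have hcont : ∀ d0 : ℝ≥0, ∃ d : ℝ≥0, d0 < d ∧ (f.1 d : ℝ) ≤ f.1 d0 + ε i := by
      intro d0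
      have hc1 : ContinuousAt (fun d : ℝ≥0 => (f.1 d : ℝ)) d0 := by fun_prop
      have h5 : ∀ᶠ d in 𝓝 d0, (f.1 d : ℝ) < f.1 d0 + ε i :=
        hc1.eventually (gt_mem_nhds (by linarith [hε i]))
      have h6 : ∀ᶠ d in 𝓝[>] d0, (f.1 d : ℝ) < f.1 d0 + ε i := h5.filter_mono nhdsWithin_le_nhds
      obtain ⟨d, hd1, hd2⟩ := (h6.and self_mem_nhdsWithin).exists
      exact ⟨d, hd2, hd1.le⟩
    rcases (t i).eq_empty_or_nonempty with h | h
    · obtain ⟨d, hd1, hd2⟩ := hcont 0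
      refine ⟨0, d, hd1, by simp [h], ?_⟩
      rw [f.2.2.1] at hd2
      have := ENNReal.toReal_nonneg (a := c i)
      simp only [NNReal.coe_zero] at hd2
      linarith
    · obtain ⟨d, hd1, hd2⟩ := hcont (Metric.ediam (t i)).toNNReal
      obtain ⟨x, hx⟩ := h
      refine ⟨x, d, lt_of_le_of_lt (by positivity) hd1, fun y hy => ?_, ?_⟩
      · have h5 := Metric.edist_le_ediam_of_mem hy hx
        have h6 : Metric.ediam (t i) ≠ ⊤ := ne_top_of_le_ne_top ENNReal.one_ne_top (hd i)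
        rw [← ENNReal.coe_toNNReal h6, edist_nndist, ENNReal.coe_le_coe] at h5
        rw [Metric.mem_ball]
        have : nndist y x < d := h5.trans_lt hd1
        exact_mod_cast this
      · have : c i = (f.1 (Metric.ediam (t i)).toNNReal : ℝ≥0∞) := by
          simp only [hc]
          rw [iSup_pos ⟨x, hx⟩]
        rw [this]
        simpa using hd2
  choose x d hd0 hsub hfd using key
  have hK : IsCompact (Set.Icc a (a + 1) ∩ X) := isCompact_Icc.inter_right hX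
  obtain ⟨F, hF⟩ := hK.elim_finite_subcover (fun i => Metric.ball (x i) (d i))
    (fun _ => Metric.isOpen_ball) (fun y hy => by
      obtain ⟨i, hi⟩ := Set.mem_iUnion.mp (ht hy.2)
      exact Set.mem_iUnion.mpr ⟨i, hsub i hi⟩)
  obtain ⟨N, hN⟩ : ∃ N, ∀ i ∈ F, (2 : ℝ≥0)⁻¹ ^ N ≤ d i := by
    have : ∀ i ∈ F, ∀ᶠ N in atTop, (2 : ℝ≥0)⁻¹ ^ N ≤ d i := by
      intro i _
      have h5 : Tendsto (fun N : ℕ => (2 : ℝ≥0)⁻¹ ^ N) atTop (𝓝 0) :=
        tendsto_pow_atTop_nhds_zero_of_lt_one (by positivity) (by norm_num)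
      exact (h5.eventually (gt_mem_nhds (hd0 i))).mono fun _ h => h.le
    exact ((eventually_all_finset F).mpr this).exists
  have e1 : ν 0 0 ≤ ∑ i ∈ F, 6 * (f.1 (d i) : ℝ) := by
    calc ν 0 0 = ∑ n ∈ range (2 ^ N), ν N n := by
          rw [h1.eq_ms N 0 0]; simp [ms]
      _ ≤ ∑ n ∈ range (2 ^ N), ∑ i ∈ F,
          if (dy a N n ∩ Metric.ball (x i) (d i)).Nonempty then ν N n else 0 := by
          apply sum_le_sum
          intro n hn
          have hnn : ∀ i ∈ F,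
              0 ≤ if (dy a N n ∩ Metric.ball (x i) (d i)).Nonempty then ν N n else 0 :=
            fun i _ => by split_ifs; exacts [h1.nonneg _ _, le_rfl]
          rcases (h1.nonneg N n).eq_or_lt with h | h
          · rw [← h]; simp
          · obtain ⟨y, hy1, hy2⟩ := h4 N n (mem_range.mp hn) h
            have := hF ⟨dy_subset_Icc a (mem_range.mp hn) hy1, hy2⟩
            simp only [Set.mem_iUnion] at this
            obtain ⟨i, hi, hy3⟩ := this
            refine le_trans ?_ (single_le_sum hnn hi)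
            rw [if_pos ⟨y, hy1, hy3⟩]
      _ ≤ _ := by
          rw [sum_comm]
          exact sum_le_sum fun i hi => mass_ball h1 f h3 a (x i) (d i) N (hN i hi)
  have e2 : ∑ i ∈ F, (c i).toReal ≤ ν 0 0 / 12 := by
    rw [← ENNReal.toReal_sum (fun i _ => hct i)]
    apply ENNReal.toReal_le_of_le_ofReal (by positivity)
    exact (ENNReal.sum_le_tsum F).trans hlt.le
  have e3 : ∑ i ∈ F, ε i ≤ ν 0 0 / 24 := (sum_le_hasSum F (fun i _ => (hε i).le) he).trans he'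
  have e4 : ∑ i ∈ F, (f.1 (d i) : ℝ) ≤ ∑ i ∈ F, (c i).toReal + ∑ i ∈ F, ε i := by
    rw [← sum_add_distrib]
    exact sum_le_sum fun i _ => hfd i
  rw [← mul_sum] at e1
  linarith

/-- All ancestors of the node lie in the tree. -/
def chain (τ : ℕ → ℕ → Prop) (N n : ℕ) : Prop := ∀ m r, m + r = N → τ m (n / 2 ^ r)

lemma exists_cover (τ : ℕ → ℕ → Prop) {g : ℕ → ℝ} (hg : ∀ m, 0 ≤ g m) (d m n : ℕ) :
    ∃ T : Finset (ℕ × ℕ), ∑ t ∈ T, g t.1 ≤ cN τ g d m n ∧
      ∀ n', n' / 2 ^ d = n → chain τ (m + d) n' →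
        ∃ t ∈ T, ∃ r, t.1 + r = m + d ∧ n' / 2 ^ r = t.2 := by
  classical
  have base : ∀ d m n, ∃ T : Finset (ℕ × ℕ), ∑ t ∈ T, g t.1 ≤ cN τ g 0 m n ∧
      ∀ n', n' / 2 ^ d = n → chain τ (m + d) n' →
        ∃ t ∈ T, ∃ r, t.1 + r = m + d ∧ n' / 2 ^ r = t.2 := by
    intro d m n
    by_cases h : τ m n
    · exact ⟨{(m, n)}, by simp [cN, h], fun n' h1 _ => ⟨(m, n), by simp, d, rfl, h1⟩⟩
    · exact ⟨∅, by simp [cN, h], fun n' h1 h2 => absurd (h1 ▸ h2 m d rfl) h⟩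
  induction d generalizing m n with
  | zero => exact base 0 m n
  | succ d ih =>
    obtain ⟨T0, h0, h0'⟩ := base (d + 1) m n
    obtain ⟨T1, h1, h1'⟩ := ih (m + 1) (2 * n)
    obtain ⟨T2, h2, h2'⟩ := ih (m + 1) (2 * n + 1)
    rcases le_total (cN τ g 0 m n) (cN τ g d (m + 1) (2 * n) + cN τ g d (m + 1) (2 * n + 1)) with
      h | h
    · refine ⟨T0, ?_, h0'⟩
      rw [cN]
      exact le_min h0 (h0.trans h)
    · have hs : ∑ t ∈ T1 ∪ T2, g t.1 ≤ ∑ t ∈ T1, g t.1 + ∑ t ∈ T2, g t.1 := by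
        rw [← sum_union_inter]
        linarith [sum_nonneg (s := T1 ∩ T2) (f := fun t => g t.1) (fun _ _ => hg _)]
      refine ⟨T1 ∪ T2, ?_, fun n' hn hc => ?_⟩
      · rw [cN]
        exact le_min (by exact (hs.trans (add_le_add h1 h2)).trans h) (hs.trans (add_le_add h1 h2))
      · have e : m + (d + 1) = m + 1 + d := by ring
        rw [e] at hc ⊢
        rw [pow_succ, ← Nat.div_div_eq_div_mul] at hn
        rcases Nat.even_or_odd' (n' / 2 ^ d) with ⟨k, hk | hk⟩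
        · obtain ⟨t, ht, ht'⟩ := h1' n' (by omega) hc
          exact ⟨t, mem_union_left _ ht, ht'⟩
        · obtain ⟨t, ht, ht'⟩ := h2' n' (by omega) hc
          exact ⟨t, mem_union_right _ ht, ht'⟩

theorem haus_eq_zero {X : Set ℝ} (f : Gauge) (a : ℝ) (τ : ℕ → ℕ → Prop)
    (hX : ∀ x ∈ X, ∀ N, ∃ n < 2 ^ N, chain τ N n ∧ x ∈ dy a N n)
    (h : ¬ Pos τ (gs f)) : haus f X = 0 := by
  rw [pos_iff_cap (gs_nonneg f), not_lt] at h
  have key : ∀ k : ℕ, ∃ T : Finset (ℕ × ℕ), ∑ t ∈ T, gs f t.1 < min (2⁻¹ ^ k) (gs f k) ∧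
      X ⊆ ⋃ t : T, dy a t.1.1 t.1.2 := by
    intro k
    obtain ⟨d, hd⟩ := exists_cN_lt (τ := τ) (g := gs f) (m := 0) (n := 0)
      (e := min (2⁻¹ ^ k) (gs f k)) (h.trans_lt (lt_min (by positivity) (gs_pos f k)))
    obtain ⟨T, h1, h2⟩ := exists_cover τ (gs_nonneg f) d 0 0
    refine ⟨T, h1.trans_lt hd, fun x hx => ?_⟩
    obtain ⟨n, hn, hc, hx'⟩ := hX x hx d
    obtain ⟨t, ht, r, hr, hr'⟩ := h2 n (Nat.div_eq_of_lt hn) (by rwa [zero_add])
    refine Set.mem_iUnion.mpr ⟨⟨t, ht⟩, ?_⟩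
    rw [zero_add] at hr
    rw [← hr] at hx'
    exact hr' ▸ dy_subset_anc a _ _ _ hx'
  choose T hT hT' using key
  have hd : ∀ m n, Metric.ediam (dy a m n) = (((2 : ℝ≥0)⁻¹ ^ m : ℝ≥0) : ℝ≥0∞) := by
    intro m n
    rw [dy, Real.ediam_Icc, ← ENNReal.ofReal_coe_nnreal]
    congr 1
    push_cast
    rw [inv_pow]
    field_simp
    ring
  have ht : Tendsto (fun k : ℕ => (((2 : ℝ≥0)⁻¹ ^ k : ℝ≥0) : ℝ≥0∞)) atTop (𝓝 0) := by
    rw [← ENNReal.coe_zero, ENNReal.tendsto_coe]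
    exact tendsto_pow_atTop_nhds_zero_of_lt_one (by positivity) (by norm_num)
  have := MeasureTheory.Measure.mkMetric_le_liminf_sum (ι := fun k => T k) X (l := atTop)
    (fun k : ℕ => (((2 : ℝ≥0)⁻¹ ^ k : ℝ≥0) : ℝ≥0∞)) ht (fun k t => dy a t.1.1 t.1.2)
    (Eventually.of_forall fun k t => ?_) (Eventually.of_forall hT')
    (fun d : ℝ≥0∞ => (f.1 d.toNNReal : ℝ≥0∞))
  · refine le_antisymm (this.trans ?_) (by positivity)
    rw [← ht.liminf_eq]
    apply liminf_le_liminf (Eventually.of_forall fun k => ?_)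
    simp only [hd, ENNReal.toNNReal_coe]
    rw [← ENNReal.ofNNReal_finsetSum, ENNReal.coe_le_coe, ← NNReal.coe_le_coe]
    push_cast
    have h5 := (hT k).le.trans (min_le_left _ _)
    rw [← sum_coe_sort] at h5
    exact h5
  · rw [hd, ENNReal.coe_le_coe]
    by_contra hc
    have h5 := f.2.1 (not_le.mp hc).le
    have h6 : gs f k ≤ gs f t.1.1 := by exact_mod_cast h5
    have h7 := single_le_sum (f := fun t : ℕ × ℕ => gs f t.1) (fun _ _ => gs_nonneg f _) t.2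
    have h8 := (hT k).trans_le (min_le_right _ _)
    linarith

/-- The closed set described by a tree. -/
def Cl (τ : ℕ → ℕ → Prop) : Set ℝ := ⋂ N, ⋃ n ∈ {n | n < 2 ^ N ∧ chain τ N n}, dy 0 N n

lemma isClosed_lev (τ : ℕ → ℕ → Prop) (N : ℕ) :
    IsClosed (⋃ n ∈ {n | n < 2 ^ N ∧ chain τ N n}, dy 0 N n) :=
  Set.Finite.isClosed_biUnion ((Set.finite_lt_nat (2 ^ N)).subset fun _ h => h.1)
    fun _ _ => isClosed_Icc

lemma isClosed_Cl (τ : ℕ → ℕ → Prop) : IsClosed (Cl τ) := isClosed_iInter (isClosed_lev τ)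

theorem haus_Cl_pos_iff (f : Gauge) (τ : ℕ → ℕ → Prop) : 0 < haus f (Cl τ) ↔ Pos τ (gs f) := by
  constructor
  · intro h
    by_contra hc
    refine h.ne' (haus_eq_zero f 0 τ (fun x hx N => ?_) hc)
    have := Set.mem_iInter.mp hx N
    simp only [Set.mem_iUnion] at this
    obtain ⟨n, hn, hx'⟩ := this
    exact ⟨n, hn.1, hn.2, hx'⟩
  · rintro ⟨ν, h1, h2, h3, h4⟩
    refine haus_pos_of_flow (isClosed_Cl τ) f 0 h1 h2 h3 fun m n hn hp => ?_
    have hanti : ∀ N, (⋃ n ∈ {n | n < 2 ^ (N + 1) ∧ chain τ (N + 1) n}, dy 0 (N + 1) n) ⊆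
        ⋃ n ∈ {n | n < 2 ^ N ∧ chain τ N n}, dy 0 N n := by
      intro N x hx
      simp only [Set.mem_iUnion] at hx ⊢
      obtain ⟨n, hn, hx'⟩ := hx
      refine ⟨n / 2 ^ 1, ⟨?_, fun m r hr => ?_⟩, dy_subset_anc 0 N 1 n hx'⟩
      · have := hn.1
        rw [pow_succ] at this
        omega
      · rw [Nat.div_div_eq_div_mul, ← pow_add]
        exact hn.2 m (1 + r) (by omega)
    have hanti' : Antitone fun N => ⋃ n ∈ {n | n < 2 ^ N ∧ chain τ N n}, dy 0 N n :=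
      antitone_nat_of_succ_le hanti
    have := IsCompact.nonempty_iInter_of_sequence_nonempty_isCompact_isClosed
      (fun N => dy 0 m n ∩ ⋃ n ∈ {n | n < 2 ^ N ∧ chain τ N n}, dy 0 N n)
      (fun N => Set.inter_subset_inter_right _ (hanti N)) (fun N => ?_)
      (isCompact_Icc.inter_right (isClosed_lev τ 0))
      (fun N => isClosed_Icc.inter (isClosed_lev τ N))
    · rwa [← Set.inter_iInter] at this
    · rw [h1.eq_ms N] at hp
      obtain ⟨n', hn', hp'⟩ := exists_of_ms_pos hp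
      obtain ⟨y, hy⟩ := dy_nonempty 0 (m + N) n'
      refine ⟨y, hn' ▸ dy_subset_anc 0 m N n' hy, hanti' (Nat.le_add_left N m) ?_⟩
      simp only [Set.mem_iUnion]
      refine ⟨n', ⟨?_, fun m' r hr => h4 _ _ ?_⟩, hy⟩
      · rw [← hn', Nat.div_lt_iff_lt_mul (by positivity), ← pow_add] at hn
        exact hn
      · rw [← hr] at hp'
        exact hp'.trans_le (h1.le_anc r m' n')

/-- The tree of dyadic intervals meeting `C`. -/
def tr (C : Set ℝ) (a : ℝ) (m n : ℕ) : Prop := (dy a m n ∩ C).Nonempty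

lemma tr_anc {C : Set ℝ} {a : ℝ} {m r n : ℕ} (h : tr C a (m + r) n) : tr C a m (n / 2 ^ r) :=
  h.mono (Set.inter_subset_inter_left _ (dy_subset_anc a m r n))

theorem haus_pos_iff (f : Gauge) {C : Set ℝ} (hC : IsClosed C) :
    0 < haus f C ↔ ∃ a : ℤ, Pos (tr C a) (gs f) := by
  constructor
  · intro h
    by_contra hc
    push Not at hc
    have h1 : C = ⋃ a : ℤ, C ∩ Set.Icc (a : ℝ) (a + 1) := by
      rw [← Set.inter_iUnion, iUnion_Icc_intCast, Set.inter_univ]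
    apply h.ne'
    rw [h1, haus, MeasureTheory.measure_iUnion_null_iff]
    intro a
    refine haus_eq_zero f a (tr C a) (fun x hx N => ?_) (hc a)
    obtain ⟨n, hn, hx'⟩ := exists_dy hx.2 N
    refine ⟨n, hn, fun m r hr => tr_anc ?_, hx'⟩
    rw [hr]
    exact ⟨x, hx', hx.1⟩
  · rintro ⟨a, ν, h1, h2, h3, h4⟩
    exact haus_pos_of_flow hC f a h1 h2 h3 fun m n _ hp => h4 m n hp

lemma haus_union_pos_iff (f : Gauge) (A B : Set ℝ) :
    0 < haus f (A ∪ B) ↔ 0 < haus f A ∨ 0 < haus f B := by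
  simp only [pos_iff_ne_zero, haus, ne_eq, MeasureTheory.measure_union_null_iff, not_and_or]

theorem exists_gauge {g : ℕ → ℝ} (h0 : ∀ m, 0 < g m) (h1 : Antitone g)
    (h2 : Tendsto g atTop (𝓝 0)) : ∃ f : Gauge, ∀ m, gs f m = g m := by
  set u : ℕ → ℝ := fun m => g m - g (m + 1) with hu
  have u0 : ∀ m, 0 ≤ u m := fun m => sub_nonneg.mpr (h1 (Nat.le_succ m))
  have hsum : ∀ k, HasSum (fun m => u (m + k)) (g k) := by
    intro k
    rw [hasSum_iff_tendsto_nat_of_nonneg (fun m => u0 _)]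
    have : ∀ n, ∑ i ∈ range n, u (i + k) = g k - g (n + k) := by
      intro n
      induction n with
      | zero => simp
      | succ n ih =>
        rw [sum_range_succ, ih, hu]
        simp only [add_right_comm n 1 k]
        ring
    simp only [this]
    simpa using (h2.comp (tendsto_add_atTop_nat k)).const_sub (g k)
  set cl : ℕ → ℝ≥0 → ℝ := fun m t => max 0 (min 1 (2 ^ (m + 1) * (t : ℝ) - 1)) with hcl
  have cl0 : ∀ m t, 0 ≤ cl m t := fun m t => le_max_left _ _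
  have cl1 : ∀ m t, cl m t ≤ 1 := fun m t => max_le zero_le_one (min_le_left _ _)
  have hb : ∀ m t, ‖u m * cl m t‖ ≤ u m := by
    intro m t
    rw [Real.norm_of_nonneg (mul_nonneg (u0 m) (cl0 m t))]
    exact mul_le_of_le_one_right (u0 m) (cl1 m t)
  have hsu : Summable u := by simpa using (hsum 0).summable
  have hs : ∀ t, Summable fun m => u m * cl m t := fun t => hsu.of_norm_bounded (hb · t)
  set F : ℝ≥0 → ℝ := fun t => ∑' m, u m * cl m t with hF
  have hFc : Continuous F := continuous_tsum (fun m => by simp only [hcl]; fun_prop) hsu hb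
  have hF0 : ∀ t, 0 ≤ F t := fun t => tsum_nonneg fun m => mul_nonneg (u0 m) (cl0 m t)
  have hFm : Monotone F := by
    intro s t hst
    refine (hs s).tsum_le_tsum (fun m => mul_le_mul_of_nonneg_left ?_ (u0 m)) (hs t)
    have : (s : ℝ) ≤ t := hst
    simp only [hcl]
    gcongr
  have hFk : ∀ k, F ((2 : ℝ≥0)⁻¹ ^ k) = g k := by
    intro k
    rw [← (hsum k).tsum_eq, hF]
    simp only
    rw [← (hs _).sum_add_tsum_nat_add k, sum_eq_zero, zero_add]
    · congr 1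
      funext m
      have : cl (m + k) ((2 : ℝ≥0)⁻¹ ^ k) = 1 := by
        simp only [hcl]
        push_cast
        have e : (2 : ℝ) ^ (m + k + 1) * 2⁻¹ ^ k = 2 * 2 ^ m := by
          rw [inv_pow]; field_simp; ring
        have e2 : (1 : ℝ) ≤ 2 ^ m := one_le_pow₀ (by norm_num)
        rw [e, min_eq_left (by linarith), max_eq_right zero_le_one]
      rw [this, mul_one]
    · intro m hm
      have : cl m ((2 : ℝ≥0)⁻¹ ^ k) = 0 := by
        simp only [hcl]
        push_cast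
        have e : (2 : ℝ) ^ (m + 1) * 2⁻¹ ^ k ≤ 1 := by
          rw [inv_pow, ← div_eq_mul_inv, div_le_one (by positivity)]
          exact pow_le_pow_right₀ (by norm_num) (mem_range.mp hm)
        exact max_eq_left (min_le_of_right_le (by linarith))
      rw [this, mul_zero]
  refine ⟨⟨⟨fun t => ⟨F t, hF0 t⟩, hFc.subtype_mk _⟩, fun s t hst => hFm hst, ?_, fun t ht => ?_⟩,
    fun m => hFk m⟩
  · apply NNReal.eq
    change F 0 = 0
    simp [hF, hcl]
  · have h5 : Tendsto (fun N : ℕ => (2 : ℝ≥0)⁻¹ ^ N) atTop (𝓝 0) :=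
      tendsto_pow_atTop_nhds_zero_of_lt_one (by positivity) (by norm_num)
    obtain ⟨k, hk⟩ := (h5.eventually (gt_mem_nhds ht)).exists
    change (0 : ℝ) < F t
    exact (h0 k).trans_le (hFk k ▸ hFm hk.le)

end Pool.Agent.Lib.MP_409048_lc
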