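import Mathlib
import Pool.Agent.Lib.MP_409048_lc.Haus

set_option autoImplicit false

namespace Pool.Agent.Lib.MP_409048_lc

open Filter Topology

lemma continuous_cN (τ : ℕ → ℕ → Prop) (d m n : ℕ) : Continuous fun f => cN τ (gs f) d m n := by
  have h : ∀ m n, Continuous fun f => cN τ (gs f) 0 m n := by
    intro m n
    simp only [cN]
    split_ifs
    exacts [continuous_gs m, continuous_const]
  induction d generalizing m n with
  | zero => exact h m n
  | succ d ih => exact (h m n).min ((ih _ _).add (ih _ _))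

theorem pos_fsigma' (τ : ℕ → ℕ → Prop) : ∃ G : ℕ → Set Gauge, (∀ n, IsClosed (G n)) ∧
    {f | Pos τ (gs f)} = ⋃ n, G n := by
  refine ⟨fun k => ⋂ d, {f | 1 / ((k : ℝ) + 1) ≤ cN τ (gs f) d 0 0}, fun k =>
    isClosed_iInter fun d => isClosed_le continuous_const (continuous_cN τ d 0 0), ?_⟩
  ext f
  simp only [Set.mem_ofPred_eq, Set.mem_iUnion, Set.mem_iInter, pos_iff_cap (gs_nonneg f)]
  constructor
  · intro h
    obtain ⟨k, hk⟩ := exists_nat_one_div_lt h
    exact ⟨k, fun d => hk.le.trans (cap_le_cN (gs_nonneg f) d 0 0)⟩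
  · rintro ⟨k, hk⟩
    exact lt_of_lt_of_le (by positivity) (le_ciInf hk)

lemma haus_pos_iff_of_subset (f : Gauge) {X : Set ℝ} (hX : IsClosed X) {a : ℝ}
    (h : X ⊆ Set.Icc a (a + 1)) : 0 < haus f X ↔ Pos (tr X a) (gs f) := by
  constructor
  · intro h1
    by_contra hc
    refine h1.ne' (haus_eq_zero f a (tr X a) (fun x hx N => ?_) hc)
    obtain ⟨n, hn, hx'⟩ := exists_dy (h hx) N
    refine ⟨n, hn, fun m r hr => tr_anc ?_, hx'⟩
    rw [hr]
    exact ⟨x, hx', hx⟩
  · rintro ⟨ν, h1, h2, h3, h4⟩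
    exact haus_pos_of_flow hX f a h1 h2 h3 fun m n _ hp => h4 m n hp

lemma Cl_subset (τ : ℕ → ℕ → Prop) : Cl τ ⊆ Set.Icc 0 1 := by
  intro x hx
  have := Set.mem_iInter.mp hx 0
  simp only [Set.mem_iUnion] at this
  obtain ⟨n, hn, hx'⟩ := this
  simpa using dy_subset_Icc 0 hn.1 hx'

lemma haus_shift (f : Gauge) (τ : ℕ → ℕ → Prop) (a : ℝ) :
    0 < haus f ((fun x => x - a) ⁻¹' Cl τ) ↔ Pos τ (gs f) := by
  rw [← haus_Cl_pos_iff, haus_pos_iff_of_subset f (isClosed_Cl τ) (a := 0)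
    (by simpa using Cl_subset τ), haus_pos_iff_of_subset f
    ((isClosed_Cl τ).preimage (by fun_prop)) (a := a) fun x hx => by
      have := Cl_subset τ hx
      constructor <;> linarith [this.1, this.2]]
  have : tr ((fun x => x - a) ⁻¹' Cl τ) a = tr (Cl τ) 0 := by
    funext m n
    apply propext
    constructor
    · rintro ⟨x, h1, h2⟩
      exact ⟨x - a, ⟨by linarith [h1.1], by linarith [h1.2]⟩, h2⟩
    · rintro ⟨x, h1, h2⟩
      exact ⟨x + a, ⟨by linarith [h1.1], by linarith [h1.2]⟩, by simpa using h2⟩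
  rw [this]

theorem exists_closed_union' {ι : Type} [Countable ι] (τ : ι → ℕ → ℕ → Prop) :
    ∃ C : Set ℝ, IsClosed C ∧ posGauges C = {f | ∃ i, Pos (τ i) (gs f)} := by
  obtain ⟨e, he⟩ := exists_surjective_nat (Option ι)
  set τ' : ℕ → ℕ → ℕ → Prop := fun n => (e n).elim (fun _ _ => False) τ with hτ
  refine ⟨⋃ n : ℕ, (fun x => x - n) ⁻¹' Cl (τ' n), LocallyFinite.isClosed_iUnion (fun x => ?_)
    fun n => (isClosed_Cl _).preimage (by fun_prop), ?_⟩
  · refine ⟨Set.Iio (x + 1), Iio_mem_nhds (by linarith),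
      (Set.finite_Iio ⌈x + 1⌉₊).subset fun n ⟨y, h1, h2⟩ => ?_⟩
    have := (Cl_subset _ h1).1
    exact Nat.lt_ceil.mpr (by linarith [Set.mem_Iio.mp h2])
  · ext f
    have : 0 < haus f (⋃ n : ℕ, (fun x => x - n) ⁻¹' Cl (τ' n)) ↔
        ∃ n : ℕ, 0 < haus f ((fun x => x - n) ⁻¹' Cl (τ' n)) := by
      simp only [pos_iff_ne_zero, haus, ne_eq, MeasureTheory.measure_iUnion_null_iff, not_forall]
    simp only [posGauges, Set.mem_ofPred_eq, this, haus_shift]
    constructor
    · rintro ⟨n, hn⟩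
      simp only [hτ] at hn
      rcases h : e n with _ | i
      · rw [h] at hn
        obtain ⟨ν, -, h2, -, h4⟩ := hn
        exact (h4 0 0 h2).elim
      · rw [h] at hn
        exact ⟨i, hn⟩
    · rintro ⟨i, hi⟩
      obtain ⟨n, hn⟩ := he (some i)
      exact ⟨n, by simp only [hτ, hn]; exact hi⟩

lemma exists_gs_lt {ε : ℝ} (h : 0 < ε) : ∃ f : Gauge, gs f 0 < ε := by
  obtain ⟨f, hf⟩ := exists_gauge (g := fun m => ε / 2 * 2⁻¹ ^ m) (fun m => by positivity)
    (fun m m' e => mul_le_mul_of_nonneg_left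
      (pow_le_pow_of_le_one (by norm_num) (by norm_num) e) (by positivity))
    (by simpa using (tendsto_pow_atTop_nhds_zero_of_lt_one (r := (2⁻¹ : ℝ)) (by norm_num)
      (by norm_num)).const_mul (ε / 2))
  exact ⟨f, by rw [hf]; simp; linarith⟩

theorem exists_code' (O : ℕ → Set Gauge) (hO : TopologicalSpace.IsTopologicalBasis (Set.range O))
    {ι : Type} [Countable ι] (F : ι → Set Gauge)
    (hF : ∀ i, ∃ G : ℕ → Set Gauge, (∀ n, IsClosed (G n)) ∧ F i = ⋃ n, G n)
    (W : ι → Set (ℕ → ℕ)) (hW : ∀ i, IsClopen (W i)) :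
    ∃ r : (ℕ → ℕ) → (ℕ → ℕ), Continuous r ∧ ∀ x, coded O (r x) = {f | ∃ i, x ∈ W i ∧ f ∈ F i} := by
  classical
  have key : ∀ U : Set Gauge, IsOpen U → U.Nonempty → ∃ e : ℕ → ℕ, ⋃ j, O (e j) = U := by
    rintro U hU ⟨f0, h0⟩
    obtain ⟨_, ⟨b, rfl⟩, -, hb⟩ := hO.exists_subset_of_mem_open h0 hU
    refine ⟨fun j => if O j ⊆ U then j else b, Set.Subset.antisymm (Set.iUnion_subset fun j => ?_)
      fun f hf => ?_⟩
    · beta_reduce
      split_ifs with h
      exacts [h, hb]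
    · obtain ⟨_, ⟨j, rfl⟩, h1, h2⟩ := hO.exists_subset_of_mem_open hf hU
      exact Set.mem_iUnion.mpr ⟨j, by beta_reduce; rwa [if_pos h2]⟩
  choose G hG1 hG2 using hF
  choose e he using fun t : ι × ℕ × ℕ =>
    key (G t.1 t.2.1 ∩ {f | 1 / ((t.2.2 : ℝ) + 1) ≤ gs f 0})ᶜ
      ((hG1 _ _).inter (isClosed_le continuous_const (continuous_gs 0))).isOpen_compl
      ((exists_gs_lt (by positivity)).imp fun f hf h => hf.not_ge h.2)
  obtain ⟨u, hu⟩ := key Set.univ isOpen_univ ((exists_gs_lt one_pos).imp fun _ _ => trivial)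
  obtain ⟨en, hen⟩ := exists_surjective_nat (Option (ι × ℕ × ℕ))
  refine ⟨fun x p => (en (Nat.unpair p).1).elim (u (Nat.unpair p).2) fun t =>
    if x ∈ W t.1 then e t (Nat.unpair p).2 else u (Nat.unpair p).2, continuous_pi fun p => ?_,
    fun x => ?_⟩
  · rcases en (Nat.unpair p).1 with _ | t
    · exact continuous_const
    · exact Continuous.if (p := fun x => x ∈ W t.1) (fun a ha => by
        have := (hW t.1).frontier_eq
        exact absurd (this ▸ ha : a ∈ (∅ : Set (ℕ → ℕ))) id) continuous_const continuous_const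
  · ext f
    simp only [coded, Nat.unpair_pair, Set.mem_ofPred_eq]
    rw [Set.mem_iUnion]
    constructor
    · rintro ⟨n, hn⟩
      rcases h : en n with _ | t
      · simp only [h, Option.elim, hu] at hn
        exact absurd trivial hn
      · simp only [h, Option.elim] at hn
        by_cases hx : x ∈ W t.1
        · simp only [if_pos hx, he, compl_compl] at hn
          exact ⟨t.1, hx, hG2 t.1 ▸ Set.mem_iUnion.mpr ⟨_, hn.1⟩⟩
        · simp only [if_neg hx, hu] at hn
          exact absurd trivial hn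
    · rintro ⟨i, hx, hf⟩
      rw [hG2] at hf
      obtain ⟨n, hn⟩ := Set.mem_iUnion.mp hf
      obtain ⟨k, hk⟩ := exists_nat_one_div_lt (gs_pos f 0)
      obtain ⟨m, hm⟩ := hen (some (i, n, k))
      refine ⟨m, ?_⟩
      simp only [hm, Option.elim, if_pos hx, he, compl_compl]
      exact ⟨hn, hk.le⟩

end Pool.Agent.Lib.MP_409048_lc
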