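import Mathlib
import Pool.Agent.Lib.MP_409048_lc.Flow

set_option autoImplicit false

namespace Pool.Agent.Lib.MP_409048_lc

open Filter MeasureTheory Topology

abbrev Br : Type := ℕ → Bool

/-- The node of level `m` on a branch. -/
def cell : ℕ → Br → ℕ
  | 0, _ => 0
  | m + 1, ξ => 2 * cell m ξ + if ξ m then 1 else 0

lemma cell_lt (m : ℕ) (ξ : Br) : cell m ξ < 2 ^ m := by
  induction m with
  | zero => simp [cell]
  | succ m ih => rw [cell, pow_succ]; split_ifs <;> omega

lemma cell_anc (m r : ℕ) (ξ : Br) : cell (m + r) ξ / 2 ^ r = cell m ξ := by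
  induction r with
  | zero => simp
  | succ r ih =>
    rw [← add_assoc, cell, pow_succ', ← Nat.div_div_eq_div_mul, ← ih]
    congr 1
    split_ifs <;> omega

lemma cell_eq_of_le {m m' : ℕ} (h : m ≤ m') {ξ ξ' : Br} (e : cell m' ξ = cell m' ξ') :
    cell m ξ = cell m ξ' := by
  obtain ⟨r, rfl⟩ := Nat.exists_eq_add_of_le h
  rw [← cell_anc m r, e, cell_anc]

lemma measurable_cell (m : ℕ) : Measurable (cell m) := by
  induction m with
  | zero => exact measurable_const
  | succ m ih =>
    exact (measurable_of_countable fun p : ℕ × Bool => 2 * p.1 + if p.2 then 1 else 0).comp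
      (ih.prodMk (measurable_pi_apply m))

def cs (m n : ℕ) : Set Br := {ξ | cell m ξ = n}

lemma measurableSet_cell (m : ℕ) (p : ℕ → Prop) : MeasurableSet {ξ | p (cell m ξ)} :=
  measurable_cell m (MeasurableSet.of_discrete (s := {n | p n}))

lemma measurableSet_cs (m n : ℕ) : MeasurableSet (cs m n) := measurableSet_cell m (· = n)

lemma cs_eq_empty {m n : ℕ} (h : 2 ^ m ≤ n) : cs m n = ∅ :=
  Set.eq_empty_of_forall_notMem fun ξ e => by
    have := cell_lt m ξ
    have e : cell m ξ = n := e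
    omega

lemma isFlow_meas (μ : Measure Br) [IsFiniteMeasure μ] (Ξ : Set Br) :
    IsFlow fun m n => μ.real (Ξ ∩ cs m n) := by
  refine ⟨fun _ _ => measureReal_nonneg, fun m n => ?_⟩
  rw [← measureReal_inter_add_sdiff (s := Ξ ∩ cs m n) (measurableSet_cs (m + 1) (2 * n))]
  congr 2
  · ext ξ
    simp only [cs, cell, Set.mem_inter_iff, Set.mem_ofPred_eq]
    constructor
    · exact fun h => ⟨h.1.1, h.2⟩
    · exact fun h => ⟨⟨h.1, by have := h.2; split_ifs at this <;> omega⟩, h.2⟩
  · ext ξ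
    simp only [cs, cell, Set.mem_inter_iff, Set.mem_sdiff, Set.mem_ofPred_eq]
    constructor
    · exact fun h => ⟨h.1.1, by have := h.2; have := h.1.2; split_ifs at * <;> omega⟩
    · exact fun h => ⟨⟨h.1, by have := h.2; split_ifs at this <;> omega⟩, by have := h.2; omega⟩

theorem realize {ν : ℕ → ℕ → ℝ} (h1 : IsFlow ν) (h2 : 0 < ν 0 0) :
    ∃ μ : Measure Br, IsFiniteMeasure μ ∧ 0 < μ.real Set.univ ∧
      ∀ m n, μ.real (cs m n) ≤ ν m n := by
  classical
  obtain ⟨l, l0, l1⟩ : ∃ l : ℕ → ℕ → ℝ, (∀ n, l 0 n = 0) ∧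
      ∀ m n, l (m + 1) n = l m (n / 2) + if n % 2 = 1 then ν (m + 1) (n - 1) else 0 :=
    ⟨fun m => Nat.rec (fun _ => 0)
      (fun m x n => x (n / 2) + if n % 2 = 1 then ν (m + 1) (n - 1) else 0) m,
      fun _ => rfl, fun _ _ => rfl⟩
  obtain ⟨c, c0, c1⟩ : ∃ c : ℕ → ℝ → ℕ, (∀ t, c 0 t = 0) ∧ ∀ m t, c (m + 1) t =
      2 * c m t + if l m (c m t) + ν (m + 1) (2 * c m t) ≤ t then 1 else 0 :=
    ⟨fun m => Nat.rec (fun _ => 0)
      (fun m x t => 2 * x t + if l m (x t) + ν (m + 1) (2 * x t) ≤ t then 1 else 0) m,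
      fun _ => rfl, fun _ _ => rfl⟩
  have hs : ∀ m, Measurable (c m) →
      MeasurableSet {t | l m (c m t) + ν (m + 1) (2 * c m t) ≤ t} := fun m hm =>
    measurableSet_le ((measurable_of_countable fun n => l m n + ν (m + 1) (2 * n)).comp hm)
      measurable_id
  have hc : ∀ m, Measurable (c m) := by
    intro m
    induction m with
    | zero => rw [show c 0 = fun _ => 0 from funext c0]; exact measurable_const
    | succ m ih =>
      rw [show c (m + 1) = _ from funext (c1 m)]
      exact (ih.const_mul 2).add (Measurable.ite (hs m ih) measurable_const measurable_const)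
  set φ : ℝ → Br := fun t m => if l m (c m t) + ν (m + 1) (2 * c m t) ≤ t then true else false
    with hφ
  have hm : Measurable φ := measurable_pi_lambda _ fun m =>
    Measurable.ite (hs m (hc m)) measurable_const measurable_const
  have e1 : ∀ m t, cell m (φ t) = c m t := by
    intro m t
    induction m with
    | zero => rw [c0]; rfl
    | succ m ih =>
      rw [cell, c1, ih]
      simp only [hφ]
      split_ifs <;> simp_all
  have e2 : ∀ t ∈ Set.Ico 0 (ν 0 0), ∀ m,
      t ∈ Set.Ico (l m (c m t)) (l m (c m t) + ν m (c m t)) := by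
    intro t ht m
    induction m with
    | zero => simpa [c0, l0] using ht
    | succ m ih =>
      have e := h1.add m (c m t)
      rw [c1]
      split_ifs with h
      · rw [l1, if_pos (by omega), show (2 * c m t + 1) / 2 = c m t by omega, Nat.add_sub_cancel]
        exact ⟨h, by linarith [ih.2]⟩
      · rw [l1, if_neg (by omega), add_zero, add_zero, show 2 * c m t / 2 = c m t by omega]
        exact ⟨ih.1, not_le.mp h⟩
  have hf : IsFiniteMeasure (volume.restrict (Set.Ico 0 (ν 0 0))) := ⟨by simp⟩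
  refine ⟨(volume.restrict (Set.Ico 0 (ν 0 0))).map φ, inferInstance, ?_, fun m n => ?_⟩
  · rw [map_measureReal_apply hm MeasurableSet.univ]
    simpa [Measure.real, h2.le] using h2
  · rw [map_measureReal_apply hm (measurableSet_cs m n),
      measureReal_restrict_apply (hm (measurableSet_cs m n))]
    calc _ ≤ volume.real (Set.Ico (l m n) (l m n + ν m n)) := by
          refine measureReal_mono (fun t ht => ?_) (by simp)
          have e3 : cell m (φ t) = n := ht.1
          rw [← e3, e1]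
          exact e2 t ht.2 m
      _ = _ := by simp [Measure.real, h1.nonneg]

theorem exhaust (μ : Measure Br) [IsFiniteMeasure μ] {L : ℕ → Set Br}
    (hL : ∀ τ, MeasurableSet (L τ)) (U : Filter ℕ) :
    ∃ P : Set Br, Tendsto (fun τ => μ.real (P ∩ L τ)) U (𝓝 0) ∧
      ∀ Ξ, Tendsto (fun τ => μ.real (Ξ ∩ L τ)) U (𝓝 0) → μ.real (Ξ \ P) = 0 := by
  set N : Set (Set Br) := {P | MeasurableSet P ∧ Tendsto (fun τ => μ.real (P ∩ L τ)) U (𝓝 0)}
    with hN
  have n0 : ∅ ∈ N := ⟨MeasurableSet.empty, by simpa using tendsto_const_nhds⟩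
  have n1 : ∀ P ∈ N, ∀ Q ∈ N, P ∪ Q ∈ N := by
    intro P hP Q hQ
    refine ⟨hP.1.union hQ.1, squeeze_zero (fun _ => measureReal_nonneg) (fun τ => ?_)
      (by simpa using hP.2.add hQ.2)⟩
    rw [Set.union_inter_distrib_right]
    exact measureReal_union_le _ _
  have hb : BddAbove (μ.real '' N) := ⟨μ.real Set.univ, by
    rintro _ ⟨P, -, rfl⟩
    exact measureReal_mono (Set.subset_univ _)⟩
  obtain ⟨u, -, hu, hu'⟩ := exists_seq_tendsto_sSup (Set.Nonempty.image _ ⟨_, n0⟩) hb
  choose P hP1 hP2 using hu'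
  have n2 : ∀ k, Set.accumulate P k ∈ N := by
    intro k
    induction k with
    | zero => simpa using hP1 0
    | succ k ih => rw [Set.accumulate_succ]; exact n1 _ ih _ (hP1 _)
  have t1 : Tendsto (fun k => μ.real (Set.accumulate P k)) atTop (𝓝 (μ.real (⋃ k, P k))) :=
    (ENNReal.tendsto_toReal (measure_ne_top _ _)).comp tendsto_measure_iUnion_accumulate
  have n3 : (⋃ k, P k) ∈ N := by
    refine ⟨MeasurableSet.iUnion fun k => (hP1 k).1, ?_⟩
    rw [tendsto_order]
    refine ⟨fun a ha => Eventually.of_forall fun _ => ha.trans_le measureReal_nonneg,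
      fun a ha => ?_⟩
    obtain ⟨k, hk⟩ := (t1.eventually (lt_mem_nhds (show μ.real (⋃ k, P k) - a / 2 < _ by
      linarith))).exists
    filter_upwards [(n2 k).2.eventually (gt_mem_nhds (show 0 < a / 2 by linarith))] with τ hτ
    have e1 : μ.real ((⋃ k, P k) \ Set.accumulate P k) = _ :=
      measureReal_sdiff (Set.accumulate_subset_iUnion k) (n2 k).1
    have e2 : μ.real ((⋃ k, P k) ∩ L τ) ≤
        μ.real ((Set.accumulate P k ∩ L τ) ∪ ((⋃ k, P k) \ Set.accumulate P k)) :=
      measureReal_mono fun x hx => by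
        by_cases h : x ∈ Set.accumulate P k
        exacts [Or.inl ⟨h, hx.2⟩, Or.inr ⟨hx.1, h⟩]
    linarith [measureReal_union_le (μ := μ) (Set.accumulate P k ∩ L τ)
      ((⋃ k, P k) \ Set.accumulate P k)]
  refine ⟨⋃ k, P k, n3.2, fun Ξ hΞ => ?_⟩
  have n4 : toMeasurable μ Ξ ∈ N := by
    refine ⟨measurableSet_toMeasurable _ _, hΞ.congr fun τ => ?_⟩
    simp only [Measure.real]
    rw [Measure.measure_toMeasurable_inter (hL τ) (measure_ne_top _ _)]
  have e1 : μ.real ((⋃ k, P k) ∪ toMeasurable μ Ξ) ≤ sSup (μ.real '' N) :=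
    le_csSup hb ⟨_, n1 _ n3 _ n4, rfl⟩
  have e2 : sSup (μ.real '' N) ≤ μ.real (⋃ k, P k) :=
    le_of_tendsto' hu fun k => by
      rw [← hP2 k]
      exact measureReal_mono (Set.subset_iUnion P k)
  have e3 := measureReal_add_sdiff (μ := μ) (t := toMeasurable μ Ξ) n3.1
  have e4 : μ.real (Ξ \ ⋃ k, P k) ≤ μ.real (toMeasurable μ Ξ \ ⋃ k, P k) :=
    measureReal_mono (Set.sdiff_subset_sdiff_left (subset_toMeasurable _ _))
  exact le_antisymm (by linarith) measureReal_nonneg

end Pool.Agent.Lib.MP_409048_lc
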