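import Mathlib
import Pool.Agent.Lib.MP_409048_lc.Flow

set_option autoImplicit false

namespace Pool.Agent.Lib.MP_409048_lc

open Finset

/-- Level at which block `j` starts. -/
def Lv (len : ℕ → ℕ) (j : ℕ) : ℕ := ∑ i ∈ range j, len i

lemma Lv_succ (len : ℕ → ℕ) (j : ℕ) : Lv len (j + 1) = Lv len j + len j := sum_range_succ _ _

@[simp] lemma Lv_zero (len : ℕ → ℕ) : Lv len 0 = 0 := rfl

lemma Lv_strictMono {len : ℕ → ℕ} (h : ∀ j, 0 < len j) : StrictMono (Lv len) :=
  strictMono_nat_of_lt_succ fun j => by rw [Lv_succ]; linarith [h j]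

lemma exists_block {len : ℕ → ℕ} (h : ∀ j, 0 < len j) (m : ℕ) :
    ∃ j, Lv len j ≤ m ∧ m < Lv len (j + 1) := by
  induction m with
  | zero => exact ⟨0, le_rfl, Lv_strictMono h (by omega : 0 < 0 + 1)⟩
  | succ m ih =>
    obtain ⟨j, h1, h2⟩ := ih
    rcases Nat.lt_or_ge (m + 1) (Lv len (j + 1)) with h3 | h3
    · exact ⟨j, by omega, h3⟩
    · have := Lv_strictMono h (by omega : j + 1 < j + 1 + 1)
      exact ⟨j + 1, h3, by omega⟩

/-- The homogeneous pattern `ψ` is dominated by `g`. -/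
def Dom (len : ℕ → ℕ) (ψ : ℕ → ℕ) (g : ℕ → ℝ) (M : ℝ) : Prop :=
  ∀ j m, (2⁻¹ : ℝ) ^ (ψ j + (m - Lv len j)) ≤ M * g m

lemma hp_anti {a b : ℕ} (h : a ≤ b) : (2⁻¹ : ℝ) ^ b ≤ 2⁻¹ ^ a :=
  pow_le_pow_of_le_one (by norm_num) (by norm_num) h

lemma hp_pos (a : ℕ) : 0 < (2⁻¹ : ℝ) ^ a := by positivity

lemma hp_mul (a : ℕ) : (2⁻¹ : ℝ) ^ a * 2 ^ a = 1 := by rw [← mul_pow]; norm_num

lemma Dom.mono {len ψ ψ' : ℕ → ℕ} {g : ℕ → ℝ} {M : ℝ} (h : Dom len ψ g M)
    (h' : ∀ j, ψ j ≤ ψ' j) : Dom len ψ' g M :=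
  fun j m => (hp_anti (by linarith [h' j])).trans (h j m)

lemma exists_ge_avg {α : Type} (s : Finset α) (f : α → ℝ) {K t : ℝ} (hK : (s.card : ℝ) ≤ K)
    (ht : 0 < t) (h : t ≤ ∑ u ∈ s, f u) : ∃ u ∈ s, t ≤ K * f u := by
  by_contra hc
  push Not at hc
  rcases s.eq_empty_or_nonempty with h1 | h1
  · simp [h1] at h; linarith
  · have h2 := sum_lt_sum_of_nonempty h1 hc
    have h3 : (0 : ℝ) < s.card := by exact_mod_cast h1.card_pos
    rw [← mul_sum, sum_const, nsmul_eq_mul] at h2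
    nlinarith

lemma ms_mod_self {s i : ℕ} (hi : i < 2 ^ s) (n : ℕ) :
    ms (fun n' => if n' % 2 ^ s = i then (1 : ℝ) else 0) s n = 1 := by
  unfold ms
  beta_reduce
  rw [sum_eq_single i]
  · rw [if_pos]
    rw [add_comm, Nat.add_mul_mod_self_right, Nat.mod_eq_of_lt hi]
  · intro u hu hne
    rw [if_neg]
    rwa [add_comm, Nat.add_mul_mod_self_right, Nat.mod_eq_of_lt (mem_range.mp hu)]
  · intro h
    exact absurd (mem_range.mpr hi) h

lemma ms_mod_add {s i : ℕ} (hi : i < 2 ^ s) (t n : ℕ) :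
    ms (fun n' => if n' % 2 ^ s = i then (1 : ℝ) else 0) (s + t) n = 2 ^ t := by
  rw [ms_add]
  have : ms (fun n' => if n' % 2 ^ s = i then (1 : ℝ) else 0) s = fun _ => 1 :=
    funext (ms_mod_self hi)
  rw [this]
  simp [ms]

lemma ms_mod_le {s i r : ℕ} (hi : i < 2 ^ s) (hr : r ≤ s) (n : ℕ) :
    ms (fun n' => if n' % 2 ^ s = i then (1 : ℝ) else 0) r n ≤ 1 := by
  obtain ⟨t, rfl⟩ := Nat.exists_eq_add_of_le hr
  have := le_ms (μ := ms (fun n' => if n' % 2 ^ (r + t) = i then (1 : ℝ) else 0) r)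
    (ms_nonneg (fun _ => by split_ifs <;> norm_num) _) t n
  rw [← ms_add, ms_mod_self hi] at this
  exact this

/-- A tree given block by block: free branching followed by a choice among finitely many
options. -/
structure Scheme (len : ℕ → ℕ) (Q : Type) where
  hb : ℕ → Q → ℕ
  cb : ℕ → ℕ
  opts : ℕ → Q → Finset Q
  q0 : Q
  hlen : ∀ j q, hb j q + cb j ≤ len j
  hcard : ∀ j q, (opts j q).card ≤ 2 ^ cb j

namespace Scheme

variable {len : ℕ → ℕ} {Q : Type} (S : Scheme len Q)

noncomputable def st : ℕ → ℕ → Option Q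
  | 0, n => if n = 0 then some S.q0 else none
  | j + 1, n => (st j (n / 2 ^ len j)).bind
      fun q => (S.opts j q).toList[n % 2 ^ (len j - S.hb j q)]?

def tree (m n : ℕ) : Prop := ∀ j, Lv len j = m → (S.st j n).isSome

variable {S}

lemma st_succ {j n : ℕ} {q' : Q} (h : S.st (j + 1) n = some q') :
    ∃ q, S.st j (n / 2 ^ len j) = some q ∧ q' ∈ S.opts j q ∧
      (S.opts j q).toList[n % 2 ^ (len j - S.hb j q)]? = some q' := by
  rw [st, Option.bind_eq_some_iff] at h
  obtain ⟨q, h1, h2⟩ := h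
  exact ⟨q, h1, mem_toList.mp (List.mem_of_getElem? h2), h2⟩

lemma step_heavy {ν : ℕ → ℕ → ℝ} (h1 : IsFlow ν) (h4 : ∀ m n, 0 < ν m n → S.tree m n)
    {j n : ℕ} {q : Q} (hq : S.st j n = some q) (hp : 0 < ν (Lv len j) n) :
    ∃ n' q', S.st (j + 1) n' = some q' ∧ q' ∈ S.opts j q ∧
      ν (Lv len j) n * 2⁻¹ ^ (S.hb j q + S.cb j) ≤ ν (Lv len (j + 1)) n' := by
  classical
  set s := len j - S.hb j q with hs
  have hl := S.hlen j q
  set A := (range (2 ^ len j)).filter (fun u => u % 2 ^ s < 2 ^ S.cb j) with hA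
  have hsome : ∀ u < 2 ^ len j, 0 < ν (Lv len (j + 1)) (n * 2 ^ len j + u) →
      ∃ q', S.st (j + 1) (n * 2 ^ len j + u) = some q' ∧ q' ∈ S.opts j q ∧
        u % 2 ^ s < 2 ^ S.cb j := by
    intro u hu hp'
    obtain ⟨q', hq'⟩ := Option.isSome_iff_exists.mp (h4 _ _ hp' (j + 1) rfl)
    obtain ⟨q1, e1, e2, e3⟩ := st_succ hq'
    rw [div_desc hu, hq] at e1
    obtain rfl := Option.some.inj e1
    refine ⟨q', hq', e2, ?_⟩
    have e4 := (List.getElem?_eq_some_iff.mp e3).1
    rw [length_toList] at e4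
    have e5 : (n * 2 ^ len j + u) % 2 ^ s = u % 2 ^ s := by
      have : len j = S.hb j q + s := by omega
      rw [this, pow_add, ← mul_assoc, add_comm, Nat.add_mul_mod_self_right]
    rw [← hs, e5] at e4
    exact e4.trans_le (S.hcard j q)
  have hcard : (A.card : ℝ) ≤ 2 ^ (S.hb j q + S.cb j) := by
    have : A.card ≤ (range (2 ^ S.hb j q) ×ˢ range (2 ^ S.cb j)).card := by
      apply card_le_card_of_injOn (fun u => (u / 2 ^ s, u % 2 ^ s))
      · intro u hu
        simp only [hA, coe_filter, mem_range, Set.mem_ofPred_eq] at hu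
        simp only [coe_product, coe_range, Set.mem_prod, Set.mem_Iio]
        refine ⟨?_, hu.2⟩
        rw [Nat.div_lt_iff_lt_mul (by positivity), ← pow_add]
        have : len j = S.hb j q + s := by omega
        exact this ▸ hu.1
      · intro u _ v _ h
        simp only [Prod.mk.injEq] at h
        rw [← Nat.div_add_mod u (2 ^ s), ← Nat.div_add_mod v (2 ^ s), h.1, h.2]
    rw [card_product, card_range, card_range, ← pow_add] at this
    exact_mod_cast this
  have hsum : ν (Lv len j) n ≤ ∑ u ∈ A, ν (Lv len (j + 1)) (n * 2 ^ len j + u) := by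
    rw [h1.eq_ms (len j), ← Lv_succ, ms, hA, sum_filter]
    apply sum_le_sum
    intro u hu
    split_ifs with h
    · exact le_rfl
    · by_contra hc
      obtain ⟨_, -, -, h5⟩ := hsome u (mem_range.mp hu) (not_le.mp hc)
      exact h h5
  obtain ⟨u, hu, hu'⟩ := exists_ge_avg A _ hcard hp hsum
  have hu2 := mem_range.mp (mem_filter.mp hu).1
  have hp' : 0 < ν (Lv len (j + 1)) (n * 2 ^ len j + u) := by
    by_contra hc
    have := mul_nonpos_of_nonneg_of_nonpos (by positivity : (0 : ℝ) ≤ 2 ^ (S.hb j q + S.cb j))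
      (not_lt.mp hc)
    linarith
  obtain ⟨q', e1, e2, -⟩ := hsome u hu2 hp'
  refine ⟨_, q', e1, e2, ?_⟩
  calc _ ≤ 2 ^ (S.hb j q + S.cb j) * ν (Lv len (j + 1)) (n * 2 ^ len j + u)
        * 2⁻¹ ^ (S.hb j q + S.cb j) := by gcongr
    _ = _ := by
      rw [mul_right_comm, mul_comm ((2 : ℝ) ^ _), hp_mul, one_mul]

/-- Heavy thread. -/
theorem exists_thread {g : ℕ → ℝ} (h : Pos S.tree g) :
    ∃ c : ℝ, 0 < c ∧ ∃ q : ℕ → Q, q 0 = S.q0 ∧ (∀ j, q (j + 1) ∈ S.opts j (q j)) ∧
      ∀ j, c * 2⁻¹ ^ (∑ i ∈ range j, (S.hb i (q i) + S.cb i)) ≤ g (Lv len j) := by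
  obtain ⟨ν, h1, h2, h3, h4⟩ := h
  have key : ∀ j (x : ℕ × Q), ∃ y : ℕ × Q, S.st j x.1 = some x.2 → 0 < ν (Lv len j) x.1 →
      S.st (j + 1) y.1 = some y.2 ∧ y.2 ∈ S.opts j x.2 ∧
      ν (Lv len j) x.1 * 2⁻¹ ^ (S.hb j x.2 + S.cb j) ≤ ν (Lv len (j + 1)) y.1 := by
    intro j x
    by_cases hx : S.st j x.1 = some x.2 ∧ 0 < ν (Lv len j) x.1
    · obtain ⟨n', q', e⟩ := step_heavy h1 h4 hx.1 hx.2
      exact ⟨(n', q'), fun _ _ => e⟩
    · exact ⟨x, fun a b => absurd ⟨a, b⟩ hx⟩
  choose F hF using key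
  let x : ℕ → ℕ × Q := fun j => Nat.rec (0, S.q0) F j
  have hx : ∀ j, x (j + 1) = F j (x j) := fun j => rfl
  have inv : ∀ j, S.st j (x j).1 = some (x j).2 ∧
      ν 0 0 * 2⁻¹ ^ (∑ i ∈ range j, (S.hb i (x i).2 + S.cb i)) ≤ ν (Lv len j) (x j).1 := by
    intro j
    induction j with
    | zero => exact ⟨by simp [x, st], by simp [x]⟩
    | succ j ih =>
      have hp : 0 < ν (Lv len j) (x j).1 := lt_of_lt_of_le (by positivity) ih.2
      obtain ⟨e1, -, e3⟩ := hF j (x j) ih.1 hp
      rw [hx]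
      refine ⟨e1, le_trans ?_ e3⟩
      rw [sum_range_succ, pow_add, ← mul_assoc]
      gcongr
      exact ih.2
  refine ⟨ν 0 0, h2, fun j => (x j).2, rfl, fun j => ?_, fun j => (inv j).2.trans (h3 _ _)⟩
  have hp : 0 < ν (Lv len j) (x j).1 := lt_of_lt_of_le (by positivity) (inv j).2
  exact (hF j (x j) (inv j).1 hp).2.1

/-- Homogeneous subtree along a path of states. -/
theorem pos_of_path (hl : ∀ j, 0 < len j) {g : ℕ → ℝ} {M : ℝ} (hM : 0 < M) (q : ℕ → Q)
    (h0 : q 0 = S.q0) (hq : ∀ j, q (j + 1) ∈ S.opts j (q j))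
    (hd : Dom len (fun j => ∑ i ∈ range j, S.hb i (q i)) g M) : Pos S.tree g := by
  classical
  have hidx : ∀ j, ∃ i, i < 2 ^ (len j - S.hb j (q j)) ∧
      (S.opts j (q j)).toList[i]? = some (q (j + 1)) := by
    intro j
    obtain ⟨i, hi, hi'⟩ := List.getElem_of_mem (mem_toList.mpr (hq j))
    refine ⟨i, ?_, by rw [List.getElem?_eq_getElem hi, hi']⟩
    rw [length_toList] at hi
    exact (hi.trans_le (S.hcard _ _)).trans_le
      (Nat.pow_le_pow_right (by norm_num) (by have := S.hlen j (q j); omega))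
  choose idx hidx hidx' using hidx
  obtain ⟨ok, ok0, ok_succ⟩ : ∃ ok : ℕ → ℕ → Prop, (∀ n, ok 0 n ↔ n = 0) ∧ ∀ j n, ok (j + 1) n ↔
      ok j (n / 2 ^ len j) ∧ n % 2 ^ (len j - S.hb j (q j)) = idx j :=
    ⟨fun j => Nat.rec (fun n => n = 0)
      (fun j o n => o (n / 2 ^ len j) ∧ n % 2 ^ (len j - S.hb j (q j)) = idx j) j,
      fun _ => Iff.rfl, fun _ _ => Iff.rfl⟩
  have hok : ∀ j n, ok j n → S.st j n = some (q j) := by
    intro j
    induction j with
    | zero => intro n hn; have hn' : n = 0 := (ok0 n).mp hn; simp only [st]; rw [if_pos hn', h0]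
    | succ j ih =>
      intro n hn
      rw [ok_succ] at hn
      rw [st, ih _ hn.1, Option.bind_some, hn.2, hidx']
  set ψ : ℕ → ℕ := fun j => ∑ i ∈ range j, S.hb i (q i) with hψ
  have ψs : ∀ j, ψ (j + 1) = ψ j + S.hb j (q j) := fun j => sum_range_succ _ _
  let a : ℕ → ℕ → ℝ := fun j n => if ok j n then 2⁻¹ ^ ψ j else 0
  have a0 : ∀ j n, 0 ≤ a j n := fun j n => by
    simp only [a]; split_ifs; exacts [(hp_pos _).le, le_rfl]
  obtain ⟨ν, h1, h2⟩ := exists_flow_of_levels (Lv len) (Lv_strictMono hl) a a0 (by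
    intro j n
    rw [Lv_succ, Nat.add_sub_cancel_left]
    by_cases h : ok j n
    · rw [ms_congr (μ' := fun n' => 2⁻¹ ^ ψ (j + 1) *
        if n' % 2 ^ (len j - S.hb j (q j)) = idx j then (1 : ℝ) else 0), ms_mul]
      · have e : len j = (len j - S.hb j (q j)) + S.hb j (q j) := by
          have := S.hlen j (q j); omega
        have e2 := ms_mod_add (hidx j) (S.hb j (q j)) n
        rw [← e] at e2
        rw [e2, ψs, pow_add, mul_assoc, hp_mul, mul_one]
        simp only [a, if_pos h]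
      · intro n' hn'
        simp only [a, ok_succ, hn', h, true_and]
        split_ifs <;> simp
    · rw [ms_congr (μ' := fun _ => 0)]
      · simp [a, h, ms]
      · intro n' hn'
        simp only [a, ok_succ, hn', h, false_and, if_false])
  refine Pos.of_smul hM h1 ?_ (fun m n => ?_) (fun m n hp j hj => ?_)
  · rw [h2 0 0 0 le_rfl]
    have : ok 0 0 := (ok0 0).mpr rfl
    simp [a, this]
  · obtain ⟨j, hj1, hj2⟩ := exists_block hl m
    rw [h2 (j + 1) m n hj2.le]
    have e1 : ms (a (j + 1)) (Lv len (j + 1) - m) n ≤ 2⁻¹ ^ ψ (j + 1) *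
        ms (fun n' => if n' % 2 ^ (len j - S.hb j (q j)) = idx j then (1 : ℝ) else 0)
          (Lv len (j + 1) - m) n := by
      rw [← ms_mul]
      apply ms_mono
      intro n'
      simp only [a, ok_succ]
      by_cases h : n' % 2 ^ (len j - S.hb j (q j)) = idx j
      · simp only [h, and_true, if_true, mul_one]
        split_ifs; exacts [le_rfl, (hp_pos _).le]
      · simp [h]
    refine e1.trans ?_
    have hl2 := S.hlen j (q j)
    have hL := Lv_succ len j
    rcases le_total (Lv len (j + 1) - m) (len j - S.hb j (q j)) with h | h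
    · have e2 := hd (j + 1) m
      rw [Nat.sub_eq_zero_of_le hj2.le, add_zero] at e2
      refine le_trans ?_ e2
      exact mul_le_of_le_one_right (hp_pos _).le (ms_mod_le (hidx j) h n)
    · obtain ⟨t, ht⟩ := Nat.exists_eq_add_of_le h
      rw [ht, ms_mod_add (hidx j)]
      refine le_trans (le_of_eq ?_) (hd j m)
      have : ψ (j + 1) = ψ j + (m - Lv len j) + t := by rw [ψs]; omega
      rw [this, pow_add, mul_assoc, hp_mul, mul_one]
  · rw [h2 j m n hj.ge, hj, Nat.sub_self, ms_zero] at hp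
    have : ok j n := by
      by_contra hc
      simp [a, hc] at hp
    rw [hok j n this]
    rfl

open Classical in
variable (S) in
/-- Mass of a state. -/
noncomputable def wt (ν : ℕ → ℕ → ℝ) (j : ℕ) (q : Q) : ℝ :=
  ms (fun n => if S.st j n = some q then ν (Lv len j) n else 0) (Lv len j) 0

lemma wt_nonneg {ν : ℕ → ℕ → ℝ} (h1 : IsFlow ν) (j : ℕ) (q : Q) : 0 ≤ S.wt ν j q :=
  ms_nonneg (fun _ => by split_ifs; exacts [h1.nonneg _ _, le_rfl]) _ _

lemma wt_zero (ν : ℕ → ℕ → ℝ) : S.wt ν 0 S.q0 = ν 0 0 := by simp [wt, st]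

theorem wt_succ {ν : ℕ → ℕ → ℝ} (h1 : IsFlow ν) (h4 : ∀ m n, 0 < ν m n → S.tree m n)
    (par : ℕ → Q → Q) (hpar : ∀ j q q', q' ∈ S.opts j q → par j q' = q) (j : ℕ) (q : Q) :
    S.wt ν j q = ∑ q' ∈ S.opts j q, S.wt ν (j + 1) q' := by
  classical
  unfold wt
  rw [← ms_sum, Lv_succ, add_comm (Lv len j), ms_add]
  congr 1
  funext n
  split_ifs with h
  · rw [h1.eq_ms (len j), add_comm (len j)]
    apply ms_congr
    intro n' hn'
    rcases (h1.nonneg (Lv len j + len j) n').eq_or_lt with hp | hp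
    · rw [← hp]; simp
    · obtain ⟨q', hq'⟩ := Option.isSome_iff_exists.mp (h4 _ _ hp (j + 1) (Lv_succ _ _))
      obtain ⟨q1, e1, e2, -⟩ := st_succ hq'
      rw [hn', h] at e1
      obtain rfl := Option.some.inj e1
      rw [sum_eq_single q']
      · rw [if_pos hq']
      · intro q2 _ hne
        rw [if_neg]
        rw [hq']
        exact fun e => hne (Option.some.inj e).symm
      · exact fun h => absurd e2 h
  · rw [ms_congr (μ' := fun _ => 0)]
    · simp [ms]
    · intro n' hn'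
      apply sum_eq_zero
      intro q' hq'
      rw [if_neg]
      intro e
      obtain ⟨q1, e1, e2, -⟩ := st_succ e
      rw [hn', ← hpar j q1 q' e2, hpar j q q' hq'] at e1
      exact h e1

open Classical in
lemma count_le (par : ℕ → Q → Q) (hpar : ∀ j q q', q' ∈ S.opts j q → par j q' = q)
    (Ψ : ℕ → Q → ℕ) (hΨ : ∀ j q q', q' ∈ S.opts j q → Ψ j q + S.hb j q ≤ Ψ (j + 1) q')
    (j : ℕ) (q : Q) :
    ms (fun n => if S.st j n = some q then (1 : ℝ) else 0) (Lv len j) 0 ≤ 2 ^ Ψ j q := by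
  induction j generalizing q with
  | zero =>
    simp only [Lv_zero, ms_zero]
    split_ifs
    · exact one_le_pow₀ (by norm_num)
    · positivity
  | succ j ih =>
    rw [Lv_succ, add_comm (Lv len j), ms_add]
    by_cases hq : q ∈ S.opts j (par j q)
    · obtain ⟨i, hi, hi'⟩ := List.getElem_of_mem (mem_toList.mpr hq)
      have hl := S.hlen j (par j q)
      have hi2 : i < 2 ^ (len j - S.hb j (par j q)) := by
        rw [length_toList] at hi
        exact (hi.trans_le (S.hcard _ _)).trans_le (Nat.pow_le_pow_right (by norm_num) (by omega))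
      calc _ ≤ ms (fun n => 2 ^ S.hb j (par j q) *
            if S.st j n = some (par j q) then (1 : ℝ) else 0) (Lv len j) 0 := by
            apply ms_mono
            intro n
            split_ifs with h
            · have e : len j = (len j - S.hb j (par j q)) + S.hb j (par j q) := by omega
              have e2 := ms_mod_add hi2 (S.hb j (par j q)) n
              rw [← e] at e2
              rw [mul_one, ← e2]
              apply ms_mono
              intro n'
              split_ifs with h5 h6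
              · exact le_rfl
              · exfalso
                obtain ⟨q1, -, e4, e5⟩ := st_succ h5
                obtain rfl := hpar j q1 q e4
                apply h6
                obtain ⟨e6, e7⟩ := List.getElem?_eq_some_iff.mp e5
                exact (List.Nodup.getElem_inj_iff (nodup_toList _)).mp (e7.trans hi'.symm)
              · norm_num
              · exact le_rfl
            · rw [mul_zero, ms_congr (μ' := fun _ => 0)]
              · simp [ms]
              · intro n' hn'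
                rw [if_neg]
                intro e
                obtain ⟨q1, e1, e2, -⟩ := st_succ e
                rw [hn', ← hpar j q1 q e2] at e1
                exact h e1
        _ ≤ _ := by
            rw [ms_mul]
            calc _ ≤ (2 : ℝ) ^ S.hb j (par j q) * 2 ^ Ψ j (par j q) := by gcongr; exact ih _
              _ ≤ _ := by
                rw [← pow_add]
                exact pow_le_pow_right₀ (by norm_num) (by linarith [hΨ j _ q hq])
    · rw [ms_congr (μ' := fun _ => 0)]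
      · simp [ms]
      · intro n _
        rw [ms_congr (μ' := fun _ => 0)]
        · simp [ms]
        · intro n' _
          rw [if_neg]
          intro e
          obtain ⟨q1, -, e2, -⟩ := st_succ e
          exact hq (by rwa [hpar j q1 q e2])

theorem wt_le {ν : ℕ → ℕ → ℝ} {g : ℕ → ℝ} (h1 : IsFlow ν) (h3 : ∀ m n, ν m n ≤ g m)
    (par : ℕ → Q → Q) (hpar : ∀ j q q', q' ∈ S.opts j q → par j q' = q)
    (Ψ : ℕ → Q → ℕ) (hΨ : ∀ j q q', q' ∈ S.opts j q → Ψ j q + S.hb j q ≤ Ψ (j + 1) q')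
    (j : ℕ) (q : Q) (m : ℕ) :
    S.wt ν j q * 2⁻¹ ^ (Ψ j q + (m - Lv len j)) ≤ g m := by
  classical
  have hg : 0 ≤ g m := (h1.nonneg m 0).trans (h3 m 0)
  have hb : ∀ n, ν (Lv len j) n ≤ 2 ^ (m - Lv len j) * g m := by
    intro n
    rcases le_total m (Lv len j) with h | h
    · obtain ⟨r, hr⟩ := Nat.exists_eq_add_of_le h
      rw [Nat.sub_eq_zero_of_le h, hr, pow_zero, one_mul]
      exact (h1.le_anc r m n).trans (h3 _ _)
    · rw [h1.eq_ms (m - Lv len j), Nat.add_sub_cancel' h]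
      exact ms_le_of_le (h3 m)
  have h5 : S.wt ν j q ≤ 2 ^ (m - Lv len j) * g m * 2 ^ Ψ j q := by
    refine le_trans ?_ (mul_le_mul_of_nonneg_left (count_le par hpar Ψ hΨ j q) (by positivity))
    rw [← ms_mul]
    apply ms_mono
    intro n
    split_ifs
    · rw [mul_one]; exact hb n
    · simp
  calc _ ≤ 2 ^ (m - Lv len j) * g m * 2 ^ Ψ j q * 2⁻¹ ^ (Ψ j q + (m - Lv len j)) := by gcongr
    _ = g m * (2⁻¹ ^ (m - Lv len j) * 2 ^ (m - Lv len j)) * (2⁻¹ ^ Ψ j q * 2 ^ Ψ j q) := by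
      rw [pow_add]; ring
    _ = g m := by rw [hp_mul, hp_mul, mul_one, mul_one]

lemma st_congr {S' : Scheme len Q} (K : ℕ) (h0 : S.q0 = S'.q0)
    (h1 : ∀ j < K, ∀ q, S.hb j q = S'.hb j q) (h2 : ∀ j < K, ∀ q, S.opts j q = S'.opts j q)
    (j : ℕ) (hj : j ≤ K) (n : ℕ) : S.st j n = S'.st j n := by
  induction j generalizing n with
  | zero => simp [st, h0]
  | succ j ih =>
    simp only [st]
    rw [ih (by omega)]
    congr 1
    funext q
    rw [h1 j (by omega), h2 j (by omega)]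

end Scheme

end Pool.Agent.Lib.MP_409048_lc
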