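import Mathlib
import Pool.Agent.Lib.MP_409048_lc.Scheme

set_option autoImplicit false

namespace Pool.Agent.Lib.MP_409048_lc

open Finset

/-- Total number of tag bits below a coordinate. -/
def Gam : ℕ → ℕ
  | 0 => 0
  | j + 1 => 3 * Gam j + 2 * j + 1

def hh (j : ℕ) : ℕ := 2 * Gam j + j

/-- Number of bits of a tag coordinate. -/
def gam (j : ℕ) : ℕ := hh j + j + 1

/-- Half length of a test level. -/
def bet (j : ℕ) : ℕ := 2 * hh j + j + 1

lemma Gam_succ (j : ℕ) : Gam (j + 1) = Gam j + gam j := by simp only [Gam, gam, hh]; ring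

lemma Gam_mono : Monotone Gam := monotone_nat_of_le_succ fun j => by rw [Gam_succ]; omega

lemma le_Gam (j : ℕ) : j ≤ Gam j := by
  induction j with
  | zero => exact le_rfl
  | succ j ih => simp only [Gam]; omega

lemma hh_mono : Monotone hh := fun a b h => by
  have := Gam_mono h
  simp only [hh]; omega

lemma gam_le_Gam {κ j : ℕ} (h : κ < j) : gam κ ≤ Gam j := by
  have := Gam_mono (show κ + 1 ≤ j from h)
  rw [Gam_succ] at this; omega

/-- Finite assignments. -/
abbrev Wd : Type := Finset (ℕ × ℕ)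

def Prs (j : ℕ) : Wd := range j ×ˢ range (2 ^ Gam j)

lemma Prs_mono : Monotone Prs := fun a b h =>
  product_subset_product (range_subset_range.mpr h)
    (range_subset_range.mpr (Nat.pow_le_pow_right (by norm_num) (Gam_mono h)))

lemma exists_Prs (w : Wd) : ∃ j, w ⊆ Prs j := by
  refine ⟨∑ p ∈ w, (p.1 + p.2) + 1, fun p hp => ?_⟩
  have h := single_le_sum (f := fun p : ℕ × ℕ => p.1 + p.2) (fun _ _ => Nat.zero_le _) hp
  simp only [Prs, mem_product, mem_range]
  refine ⟨by omega, ?_⟩
  have h1 := le_Gam (∑ p ∈ w, (p.1 + p.2) + 1)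
  have h2 := Nat.lt_two_pow_self (n := Gam (∑ p ∈ w, (p.1 + p.2) + 1))
  omega

theorem exists_layout : ∃ (stg : ℕ → ℕ) (tst : ℕ → Wd) (pos : ℕ → Wd → Bool → ℕ),
    stg 0 = 0 ∧ (∀ k, stg (k + 1) = stg k ∨ stg (k + 1) = stg k + 1) ∧
    (∀ k, tst k ⊆ Prs (stg k)) ∧
    (∀ j w r, w ⊆ Prs j → stg (pos j w r) = j ∧ tst (pos j w r) = w) ∧
    ∀ j w w', w ⊆ Prs j → pos j w false ≤ pos j w' true := by
  classical
  set ts : ℕ → List Wd := fun j => (Prs j).powerset.toList with hts
  have hmem : ∀ j w, w ∈ ts j ↔ w ⊆ Prs j := fun j w => by simp [hts]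
  have hpos : ∀ j, 0 < (ts j).length := fun j =>
    List.length_pos_of_mem ((hmem j ∅).mpr (empty_subset _))
  set ln : ℕ → ℕ := fun j => 2 * (ts j).length with hln
  have hl : ∀ j, 0 < ln j := fun j => by have := hpos j; simp only [hln]; omega
  choose stg h1 h2 using exists_block hl
  have huniq : ∀ k j, Lv ln j ≤ k → k < Lv ln (j + 1) → stg k = j := by
    intro k j a b
    have e1 := (Lv_strictMono hl).lt_iff_lt.mp (a.trans_lt (h2 k))
    have e2 := (Lv_strictMono hl).lt_iff_lt.mp ((h1 k).trans_lt b)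
    omega
  refine ⟨stg, fun k => (ts (stg k)).getD ((k - Lv ln (stg k)) % (ts (stg k)).length) ∅,
    fun j w r => Lv ln j + (if r then (ts j).length else 0) + (ts j).idxOf w, ?_, ?_, ?_, ?_, ?_⟩
  · exact huniq 0 0 le_rfl (Lv_strictMono hl (by omega : 0 < 0 + 1))
  · intro k
    rcases Nat.lt_or_ge (k + 1) (Lv ln (stg k + 1)) with h | h
    · exact Or.inl (huniq _ _ (by linarith [h1 k]) h)
    · have := Lv_strictMono hl (by omega : stg k + 1 < stg k + 1 + 1)
      exact Or.inr (huniq _ _ h (by linarith [h2 k]))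
  · intro k
    beta_reduce
    rw [← hmem, List.getD_eq_getElem _ _ (Nat.mod_lt _ (hpos _))]
    exact List.getElem_mem _
  · intro j w r hw
    have hi := List.idxOf_lt_length_iff.mpr ((hmem j w).mpr hw)
    have e : stg (Lv ln j + (if r then (ts j).length else 0) + (ts j).idxOf w) = j := by
      apply huniq
      · omega
      · rw [Lv_succ]; simp only [hln]; split_ifs <;> omega
    refine ⟨e, ?_⟩
    simp only [e]
    have e2 : (Lv ln j + (if r then (ts j).length else 0) + (ts j).idxOf w - Lv ln j)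
        % (ts j).length = (ts j).idxOf w := by
      rw [add_assoc, Nat.add_sub_cancel_left]
      split_ifs
      · rw [Nat.add_mod_left, Nat.mod_eq_of_lt hi]
      · rw [zero_add, Nat.mod_eq_of_lt hi]
    rw [e2, List.getD_eq_getElem _ _ hi, List.getElem_idxOf]
  · intro j w w' hw
    have hi := List.idxOf_lt_length_iff.mpr ((hmem j w).mpr hw)
    simp only [Bool.false_eq_true, if_false, if_true]
    omega

/-- Stage of a step. -/
noncomputable def stg : ℕ → ℕ := exists_layout.choose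

/-- Assignment tested at a step. -/
noncomputable def tst : ℕ → Wd := exists_layout.choose_spec.choose

/-- Step at which an assignment is tested. -/
noncomputable def pos : ℕ → Wd → Bool → ℕ := exists_layout.choose_spec.choose_spec.choose

lemma stg_zero : stg 0 = 0 := exists_layout.choose_spec.choose_spec.choose_spec.1

lemma stg_succ (k : ℕ) : stg (k + 1) = stg k ∨ stg (k + 1) = stg k + 1 :=
  exists_layout.choose_spec.choose_spec.choose_spec.2.1 k

lemma tst_sub (k : ℕ) : tst k ⊆ Prs (stg k) :=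
  exists_layout.choose_spec.choose_spec.choose_spec.2.2.1 k

lemma stg_pos {j : ℕ} {w : Wd} (r : Bool) (h : w ⊆ Prs j) : stg (pos j w r) = j :=
  (exists_layout.choose_spec.choose_spec.choose_spec.2.2.2.1 j w r h).1

lemma tst_pos {j : ℕ} {w : Wd} (r : Bool) (h : w ⊆ Prs j) : tst (pos j w r) = w :=
  (exists_layout.choose_spec.choose_spec.choose_spec.2.2.2.1 j w r h).2

lemma pos_le {j : ℕ} {w : Wd} (w' : Wd) (h : w ⊆ Prs j) : pos j w false ≤ pos j w' true :=
  exists_layout.choose_spec.choose_spec.choose_spec.2.2.2.2 j w w' h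

lemma stg_mono : Monotone stg := monotone_nat_of_le_succ fun k => by
  rcases stg_succ k with h | h <;> omega

lemma lt_pos_succ {k j : ℕ} (h : stg k ≤ j) : k < pos (j + 1) ∅ false := by
  by_contra hc
  have := stg_mono (not_lt.mp hc)
  rw [stg_pos _ (empty_subset _)] at this
  omega

lemma tst_lt {k : ℕ} {p : ℕ × ℕ} (h : p ∈ tst k) : p.1 < stg k :=
  mem_range.mp (mem_product.mp (tst_sub k h)).1

/-- Tags. -/
def Tags : Set (ℕ → ℕ) := {a | ∀ κ, a κ < 2 ^ gam κ}

def Sat (w : Wd) (a : ℕ → ℕ) : Prop := ∀ p ∈ w, a p.1 = p.2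

/-- The test `w` is low for the tag `a`. -/
def low (A : Set ℕ) (P : Set Wd) (w : Wd) (a : ℕ → ℕ) : Prop :=
  ((∀ p ∈ w, p.1 ∈ A) ∧ Sat w a) ∨ w ∈ P

open Classical in
noncomputable def own (A : Set ℕ) (j : ℕ) (a : ℕ → ℕ) : Wd :=
  ((range j).filter (· ∈ A)).image fun κ => (κ, a κ)

lemma mem_own {A : Set ℕ} {j : ℕ} {a : ℕ → ℕ} {p : ℕ × ℕ} :
    p ∈ own A j a ↔ p.1 < j ∧ p.1 ∈ A ∧ a p.1 = p.2 := by
  simp only [own, mem_image, mem_filter, mem_range]
  constructor
  · rintro ⟨κ, ⟨h1, h2⟩, rfl⟩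
    exact ⟨h1, h2, rfl⟩
  · rintro ⟨h1, h2, h3⟩
    exact ⟨p.1, ⟨h1, h2⟩, by rw [h3]⟩

lemma sat_own {A : Set ℕ} {j : ℕ} {a a' : ℕ → ℕ} :
    Sat (own A j a) a' ↔ ∀ κ < j, κ ∈ A → a' κ = a κ :=
  ⟨fun h κ h1 h2 => h (κ, a κ) (mem_own.mpr ⟨h1, h2, rfl⟩), fun h p hp => by
    obtain ⟨h1, h2, h3⟩ := mem_own.mp hp
    rw [h _ h1 h2, h3]⟩

lemma own_eq {A : Set ℕ} {j : ℕ} {a a' : ℕ → ℕ} (h : ∀ κ < j, κ ∈ A → a' κ = a κ) :
    own A j a' = own A j a := by
  ext p
  simp only [mem_own]
  exact ⟨fun ⟨h1, h2, h3⟩ => ⟨h1, h2, by rw [← h _ h1 h2, h3]⟩,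
    fun ⟨h1, h2, h3⟩ => ⟨h1, h2, by rw [h _ h1 h2, h3]⟩⟩

lemma own_sub {A : Set ℕ} {j : ℕ} {a : ℕ → ℕ} (ha : a ∈ Tags) : own A j a ⊆ Prs j := by
  intro p hp
  obtain ⟨h1, -, h3⟩ := mem_own.mp hp
  simp only [Prs, mem_product, mem_range]
  exact ⟨h1, h3 ▸ (ha _).trans_le (Nat.pow_le_pow_right (by norm_num) (gam_le_Gam h1))⟩

lemma low_own {A : Set ℕ} {P : Set Wd} {j : ℕ} {a : ℕ → ℕ} : low A P (own A j a) a :=
  Or.inl ⟨fun _ hp => (mem_own.mp hp).2.1, sat_own.mpr fun _ _ _ => rfl⟩

open Classical in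
noncomputable def res (A : Set ℕ) (j : ℕ) (a : ℕ → ℕ) : ℕ → ℕ :=
  fun κ => if κ < j ∧ κ ∈ A then a κ else 0

lemma low_congr {A : Set ℕ} {P : Set Wd} {k : ℕ} {a a' : ℕ → ℕ}
    (h : ∀ κ < stg k, κ ∈ A → a κ = a' κ) : low A P (tst k) a ↔ low A P (tst k) a' := by
  unfold low Sat
  exact or_congr_left (and_congr_right fun h1 => forall₂_congr fun p hp => by
    rw [h _ (tst_lt hp) (h1 p hp)])

lemma low_res {A : Set ℕ} {P : Set Wd} {k : ℕ} {a : ℕ → ℕ} :
    low A P (tst k) (res A (stg k) a) ↔ low A P (tst k) a :=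
  low_congr fun _ h1 h2 => if_pos ⟨h1, h2⟩

lemma res_succ_mem {A : Set ℕ} {j : ℕ} (h : j ∈ A) (a : ℕ → ℕ) :
    res A (j + 1) a = Function.update (res A j a) j (a j) := by
  classical
  funext κ
  by_cases e : κ = j
  · subst e; simp [res, h]
  · rw [Function.update_of_ne e]
    exact if_congr (and_congr_left fun _ => by omega) rfl rfl

lemma res_succ_not {A : Set ℕ} {j : ℕ} (h : j ∉ A) (a : ℕ → ℕ) :
    res A (j + 1) a = res A j a := by
  classical
  funext κ
  by_cases e : κ = j
  · subst e; simp [res, h]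
  · exact if_congr (and_congr_left fun _ => by omega) rfl rfl

lemma res_self (A : Set ℕ) (j : ℕ) (a : ℕ → ℕ) : res A j a j = 0 := by simp [res]

lemma res_zero (A : Set ℕ) (a : ℕ → ℕ) : res A 0 a = fun _ => 0 := by funext κ; simp [res]

lemma res_congr {A : Set ℕ} {j : ℕ} {a a' : ℕ → ℕ} (h : ∀ κ < j, κ ∈ A → a κ = a' κ) :
    res A j a = res A j a' := by
  funext κ
  unfold res
  split_ifs with h1
  · exact h _ h1.1 h1.2
  · rfl

noncomputable def BB (k : ℕ) : ℕ := ∑ i ∈ range k, bet (stg i)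

open Classical in
noncomputable def XX (E : Set ℕ) (j : ℕ) : ℕ := ∑ κ ∈ range j, if κ ∈ E then gam κ else 0

lemma BB_succ (k : ℕ) : BB (k + 1) = BB k + bet (stg k) := sum_range_succ _ _

lemma le_BB (k : ℕ) : k ≤ BB k := by
  induction k with
  | zero => exact Nat.zero_le _
  | succ k ih => rw [BB_succ, bet]; omega

open Classical in
lemma XX_succ (E : Set ℕ) (j : ℕ) : XX E (j + 1) = XX E j + if j ∈ E then gam j else 0 :=
  sum_range_succ _ _

lemma XX_le (E : Set ℕ) (j : ℕ) : XX E j ≤ Gam j := by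
  induction j with
  | zero => exact le_rfl
  | succ j ih => rw [XX_succ, Gam_succ]; split_ifs <;> omega

lemma XX_mono {E E' : Set ℕ} (h : E ⊆ E') (j : ℕ) : XX E j ≤ XX E' j := by
  apply sum_le_sum
  intro κ _
  by_cases h1 : κ ∈ E
  · rw [if_pos h1, if_pos (h h1)]
  · rw [if_neg h1]; exact Nat.zero_le _

@[simp] lemma XX_empty (j : ℕ) : XX ∅ j = 0 := by simp [XX]

/-- The last block of a stage whose coordinate is in `A`. -/
def lastb (A : Set ℕ) (b : ℕ) : Prop :=
  b % 2 = 1 ∧ stg (b / 2 + 1) = stg (b / 2) + 1 ∧ stg (b / 2) ∈ A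

open Classical in
lemma XX_step (E : Set ℕ) (b : ℕ) : XX E (stg ((b + 1) / 2)) =
    XX E (stg (b / 2)) + if lastb E b then gam (stg (b / 2)) else 0 := by
  obtain ⟨k, rfl | rfl⟩ := Nat.even_or_odd' b
  · rw [show (2 * k + 1) / 2 = k by omega, show 2 * k / 2 = k by omega, if_neg, add_zero]
    exact fun h => by have := h.1; omega
  · have e0 : lastb E (2 * k + 1) ↔ stg (k + 1) = stg k + 1 ∧ stg k ∈ E := by
      unfold lastb
      rw [show (2 * k + 1) / 2 = k by omega]
      exact and_iff_right (by omega)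
    rw [show (2 * k + 1 + 1) / 2 = k + 1 by omega, show (2 * k + 1) / 2 = k by omega]
    rcases stg_succ k with h | h
    · rw [if_neg (fun e => by have := (e0.mp e).1; omega), h, add_zero]
    · rw [h, XX_succ]
      congr 1
      exact if_congr ⟨fun e => e0.mpr ⟨h, e⟩, fun e => (e0.mp e).2⟩ rfl rfl

noncomputable def len (b : ℕ) : ℕ := bet (stg (b / 2)) + if b % 2 = 0 then 0 else 2 * gam (stg (b / 2))

lemma len_pos (b : ℕ) : 0 < len b := by unfold len bet; omega

/-- Level of the middle of a test. -/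
noncomputable def mid (k : ℕ) : ℕ := Lv len (2 * k + 1)

lemma mid_mono : Monotone mid := fun _ _ h => (Lv_strictMono len_pos).monotone (by omega)

open Classical in
noncomputable def hbf (A E : Set ℕ) (P : Set Wd) (b : ℕ) (q : ℕ → ℕ) : ℕ :=
  (if (b % 2 = 1 ↔ low A P (tst (b / 2)) q) then bet (stg (b / 2)) else 0) +
    if lastb E b then gam (stg (b / 2)) else 0

open Classical in
/-- Number of free levels before block `b` in the homogeneous set of the tag `a`. -/
noncomputable def pat (A E : Set ℕ) (P : Set Wd) (a : ℕ → ℕ) (b : ℕ) : ℕ :=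
  BB (b / 2) + XX E (stg (b / 2)) +
    if b % 2 = 1 ∧ ¬ low A P (tst (b / 2)) a then bet (stg (b / 2)) else 0

lemma pat_zero (A E : Set ℕ) (P : Set Wd) (a : ℕ → ℕ) : pat A E P a 0 = 0 := by
  simp [pat, BB, XX, stg_zero]

lemma pat_succ (A E : Set ℕ) (P : Set Wd) (a a' : ℕ → ℕ) (b : ℕ) (h : b % 2 = 0 → a' = a) :
    pat A E P a' (b + 1) = pat A E P a b + hbf A E P b a := by
  unfold pat hbf
  rw [XX_step]
  obtain ⟨k, rfl | rfl⟩ := Nat.even_or_odd' b
  · rw [show (2 * k + 1) / 2 = k by omega, show 2 * k / 2 = k by omega, h (by omega)]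
    have e1 : (2 * k + 1) % 2 = 1 := by omega
    have e2 : ¬ 2 * k % 2 = 1 := by omega
    split_ifs <;> first | ring1 | (exfalso; tauto)
  · rw [show (2 * k + 1 + 1) / 2 = k + 1 by omega, show (2 * k + 1) / 2 = k by omega, BB_succ]
    have e1 : (2 * k + 1) % 2 = 1 := by omega
    have e2 : ¬ (2 * k + 1 + 1) % 2 = 1 := by omega
    split_ifs <;> first | ring1 | (exfalso; tauto)

lemma pat_res (A E : Set ℕ) (P : Set Wd) (a : ℕ → ℕ) (b : ℕ) :
    pat A E P (res A (stg (b / 2)) a) b = pat A E P a b := by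
  classical
  unfold pat
  congr 1
  exact if_congr (and_congr_right fun _ => not_congr low_res) rfl rfl

lemma hbf_res (A E : Set ℕ) (P : Set Wd) (a : ℕ → ℕ) (b : ℕ) :
    hbf A E P b (res A (stg (b / 2)) a) = hbf A E P b a := by
  classical
  unfold hbf
  congr 1
  exact if_congr (iff_congr Iff.rfl low_res) rfl rfl

lemma pat_eq_sum (A E : Set ℕ) (P : Set Wd) (a : ℕ → ℕ) (b : ℕ) :
    ∑ i ∈ range b, hbf A E P i (res A (stg (i / 2)) a) = pat A E P a b := by
  induction b with
  | zero => simp [pat_zero]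
  | succ b ih => rw [sum_range_succ, ih, hbf_res, pat_succ A E P a a b fun _ => rfl]

lemma pat_odd (A E : Set ℕ) (P : Set Wd) (a : ℕ → ℕ) (k : ℕ) (h : low A P (tst k) a) :
    pat A E P a (2 * k + 1) = BB k + XX E (stg k) := by
  unfold pat
  rw [show (2 * k + 1) / 2 = k by omega, if_neg (fun e => e.2 h), add_zero]

open Classical in
/-- The tree of the union over all tags of the homogeneous sets. -/
noncomputable def Sch (A E : Set ℕ) (P : Set Wd) : Scheme len (ℕ → ℕ) where
  hb := hbf A E P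
  cb := fun b => if lastb A b then gam (stg (b / 2)) else 0
  opts := fun b q => if lastb A b then
      (if q (stg (b / 2)) = 0 then
        (range (2 ^ gam (stg (b / 2)))).image (Function.update q (stg (b / 2))) else ∅)
    else {q}
  q0 := fun _ => 0
  hlen := fun b q => by
    unfold hbf len lastb
    split_ifs <;> omega
  hcard := fun b q => by
    split_ifs
    · exact card_image_le.trans (by simp)
    · simp
    · simp

lemma res_step (A : Set ℕ) (a : ℕ → ℕ) {b : ℕ} (h : ¬ lastb A b) :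
    res A (stg ((b + 1) / 2)) a = res A (stg (b / 2)) a := by
  obtain ⟨k, rfl | rfl⟩ := Nat.even_or_odd' b
  · rw [show (2 * k + 1) / 2 = k by omega, show 2 * k / 2 = k by omega]
  · unfold lastb at h
    rw [show (2 * k + 1) / 2 = k by omega] at h ⊢
    rw [show (2 * k + 1 + 1) / 2 = k + 1 by omega]
    rcases stg_succ k with h1 | h1
    · rw [h1]
    · rw [h1, res_succ_not fun e => h ⟨by omega, h1, e⟩]

lemma stg_last {A : Set ℕ} {b : ℕ} (h : lastb A b) : stg ((b + 1) / 2) = stg (b / 2) + 1 := by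
  rw [← h.2.1]
  have := h.1
  congr 1
  omega

lemma res_mem_opts (A E : Set ℕ) (P : Set Wd) {a : ℕ → ℕ} (ha : a ∈ Tags) (b : ℕ) :
    res A (stg ((b + 1) / 2)) a ∈ (Sch A E P).opts b (res A (stg (b / 2)) a) := by
  classical
  simp only [Sch]
  split_ifs with h1 h2
  · rw [stg_last h1, res_succ_mem h1.2.2]
    exact mem_image_of_mem _ (mem_range.mpr (ha _))
  · exact absurd (res_self _ _ _) h2
  · rw [res_step A a h1]; exact mem_singleton_self _

/-- A dominated homogeneous set gives positive capacity. -/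
theorem pos_of_dom {A E : Set ℕ} {P : Set Wd} {a : ℕ → ℕ} (ha : a ∈ Tags) {g : ℕ → ℝ} {M : ℝ}
    (hM : 0 < M) (h : Dom len (pat A E P a) g M) : Pos (Sch A E P).tree g := by
  refine Scheme.pos_of_path len_pos hM (fun b => res A (stg (b / 2)) a) ?_ (res_mem_opts A E P ha) ?_
  · simp only [Nat.zero_div, stg_zero, res_zero]; rfl
  · have : (fun j => ∑ i ∈ range j, (Sch A E P).hb i (res A (stg (i / 2)) a)) = pat A E P a :=
      funext (pat_eq_sum A E P a)
    rw [this]
    exact h

lemma sum_cb (A E : Set ℕ) (P : Set Wd) (b : ℕ) :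
    ∑ i ∈ range b, (Sch A E P).cb i = XX A (stg (b / 2)) := by
  induction b with
  | zero => simp [stg_zero, XX]
  | succ b ih => rw [sum_range_succ, ih, XX_step]; rfl

lemma exists_tag {A E : Set ℕ} {P : Set Wd} {q : ℕ → ℕ → ℕ} (h0 : q 0 = fun _ => 0)
    (hq : ∀ b, q (b + 1) ∈ (Sch A E P).opts b (q b)) :
    ∃ a ∈ Tags, ∀ b, q b = res A (stg (b / 2)) a := by
  classical
  have h1 : ∀ b, q b ∈ Tags ∧ (∀ κ, stg (b / 2) ≤ κ ∨ κ ∉ A → q b κ = 0) ∧
      ∀ κ < stg (b / 2), q (b + 1) κ = q b κ := by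
    have h2 : ∀ b κ, κ < stg (b / 2) → q (b + 1) κ = q b κ := by
      intro b κ hκ
      have := hq b
      simp only [Sch] at this
      split_ifs at this
      · obtain ⟨v, -, hv⟩ := mem_image.mp this
        rw [← hv, Function.update_of_ne hκ.ne]
      · simp at this
      · rw [mem_singleton.mp this]
    intro b
    refine ⟨?_, ?_, h2 b⟩
    · induction b with
      | zero => rw [h0]; exact fun κ => by positivity
      | succ b ih =>
        have := hq b
        simp only [Sch] at this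
        split_ifs at this
        · obtain ⟨v, hv1, hv⟩ := mem_image.mp this
          rw [← hv]
          intro κ
          by_cases e : κ = stg (b / 2)
          · rw [e, Function.update_self]; exact mem_range.mp hv1
          · rw [Function.update_of_ne e]; exact ih κ
        · simp at this
        · rw [mem_singleton.mp this]; exact ih
    · induction b with
      | zero => rw [h0]; exact fun _ _ => rfl
      | succ b ih =>
        have := hq b
        have hm : stg (b / 2) ≤ stg ((b + 1) / 2) := stg_mono (by omega)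
        simp only [Sch] at this
        split_ifs at this with h3
        · obtain ⟨v, hv1, hv⟩ := mem_image.mp this
          rw [← hv]
          intro κ hκ
          have h4 := stg_last h3
          rw [Function.update_of_ne]
          · exact ih κ (hκ.imp_left fun e => by omega)
          · rintro rfl
            rcases hκ with e | e
            · omega
            · exact e h3.2.2
        · simp at this
        · rw [mem_singleton.mp this]
          exact fun κ hκ => ih κ (hκ.imp_left fun e => by omega)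
  have h3 : ∀ b b' κ, b ≤ b' → κ < stg (b / 2) → q b' κ = q b κ := by
    intro b b' κ hb hκ
    induction b', hb using Nat.le_induction with
    | base => rfl
    | succ b' hb ih => rw [(h1 b').2.2 κ (hκ.trans_le (stg_mono (by omega))), ih]
  refine ⟨fun κ => q (2 * pos (κ + 1) ∅ false) κ, fun κ => (h1 _).1 κ, fun b => funext fun κ => ?_⟩
  unfold res
  split_ifs with h4
  · have h5 : κ < stg (2 * pos (κ + 1) ∅ false / 2) := by
      rw [Nat.mul_div_cancel_left _ (by norm_num), stg_pos _ (empty_subset _)]; omega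
    rcases le_total b (2 * pos (κ + 1) ∅ false) with h | h
    · exact (h3 _ _ κ h h4.1).symm
    · exact h3 _ _ κ h h5
  · exact (h1 b).2.1 κ (by by_contra hc; push Not at hc; exact h4 hc)

/-- Positive capacity gives a heavy tag. -/
theorem thread_of_pos {A E : Set ℕ} {P : Set Wd} {g : ℕ → ℝ} (h : Pos (Sch A E P).tree g) :
    ∃ c : ℝ, 0 < c ∧ ∃ a ∈ Tags, ∀ k, low A P (tst k) a →
      c * 2⁻¹ ^ (BB k + (XX E (stg k) + XX A (stg k))) ≤ g (mid k) := by
  obtain ⟨c, hc, q, h0, h1, h2⟩ := Scheme.exists_thread h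
  obtain ⟨a, ha, hq⟩ := exists_tag h0 h1
  refine ⟨c, hc, a, ha, fun k hk => ?_⟩
  have := h2 (2 * k + 1)
  rw [sum_add_distrib, sum_cb] at this
  simp only [hq] at this
  have e : ∑ i ∈ range (2 * k + 1), (Sch A E P).hb i (res A (stg (i / 2)) a) = _ :=
    pat_eq_sum A E P a _
  rw [e, pat_odd A E P a k hk, show (2 * k + 1) / 2 = k by omega, add_assoc] at this
  exact this

/-- Weights of the classes of tags. -/
theorem weights_of_pos {A : Set ℕ} {g : ℕ → ℝ} (h : Pos (Sch A ∅ ∅).tree g) :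
    ∃ W : ℕ → (ℕ → ℕ) → ℝ, (∀ j a, 0 ≤ W j a) ∧ (∀ a, 0 < W 0 a) ∧
      (∀ j a a', (∀ κ < j, κ ∈ A → a κ = a' κ) → W j a = W j a') ∧
      (∀ j a, j ∉ A → W j a = W (j + 1) a) ∧
      (∀ j a, j ∈ A → W j a = ∑ v ∈ range (2 ^ gam j), W (j + 1) (Function.update a j v)) ∧
      ∀ a b m, W (stg (b / 2)) a * 2⁻¹ ^ (pat A ∅ ∅ a b + (m - Lv len b)) ≤ g m := by
  classical
  obtain ⟨ν, h1, h2, h3, h4⟩ := h
  set S := Sch A ∅ ∅ with hS
  let par : ℕ → (ℕ → ℕ) → ℕ → ℕ := fun b q =>
    if lastb A b then Function.update q (stg (b / 2)) 0 else q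
  have hpar : ∀ b q q', q' ∈ S.opts b q → par b q' = q := by
    intro b q q' hq
    simp only [hS, Sch] at hq
    simp only [par]
    split_ifs at hq ⊢ with e1 e2
    · obtain ⟨v, -, rfl⟩ := mem_image.mp hq
      rw [Function.update_idem, ← e2, Function.update_eq_self]
    · simp at hq
    · exact mem_singleton.mp hq
  set w : ℕ → (ℕ → ℕ) → ℝ := fun b a => S.wt ν b (res A (stg (b / 2)) a) with hw
  have w1 : ∀ b a, ¬ lastb A b → w b a = w (b + 1) a := by
    intro b a hb
    simp only [hw]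
    rw [Scheme.wt_succ h1 h4 par hpar, res_step A a hb]
    simp only [hS, Sch, if_neg hb, sum_singleton]
  have w2 : ∀ b a, lastb A b → w b a =
      ∑ v ∈ range (2 ^ gam (stg (b / 2))), w (b + 1) (Function.update a (stg (b / 2)) v) := by
    intro b a hb
    simp only [hw]
    rw [Scheme.wt_succ h1 h4 par hpar]
    have : S.opts b (res A (stg (b / 2)) a) = (range (2 ^ gam (stg (b / 2)))).image
        (Function.update (res A (stg (b / 2)) a) (stg (b / 2))) := by
      simp only [hS, Sch, if_pos hb, res_self, if_true]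
    rw [this, sum_image fun v _ v' _ e => Function.update_injective _ _ e]
    apply sum_congr rfl
    intro v _
    rw [stg_last hb, res_succ_mem hb.2.2, Function.update_self,
      res_congr (a := Function.update a (stg (b / 2)) v) (a' := a)
        fun κ hκ _ => Function.update_of_ne hκ.ne _ _]
  have w3 : ∀ b b' a, b ≤ b' → stg (b / 2) = stg (b' / 2) → w b a = w b' a := by
    intro b b' a hb
    induction b', hb using Nat.le_induction with
    | base => exact fun _ => rfl
    | succ b' hb ih =>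
      intro e
      have e1 : stg (b / 2) ≤ stg (b' / 2) := stg_mono (by omega)
      have e2 : stg (b' / 2) ≤ stg ((b' + 1) / 2) := stg_mono (by omega)
      rw [ih (by omega), w1 b' a fun h => by have := stg_last h; omega]
  have w4 : ∀ b b' a, stg (b / 2) = stg (b' / 2) → w b a = w b' a := fun b b' a e =>
    (le_total b b').elim (fun h => w3 b b' a h e) fun h => (w3 b' b a h e.symm).symm
  have p1 : ∀ j, stg (2 * pos j ∅ false / 2) = j := fun j => by
    rw [Nat.mul_div_cancel_left _ (by norm_num), stg_pos _ (empty_subset _)]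
  have p2 : ∀ j, ∃ b, b % 2 = 1 ∧ stg (b / 2) = j ∧ stg (b / 2 + 1) = j + 1 := by
    intro j
    have hex : ∃ k, j + 1 ≤ stg k := ⟨pos (j + 1) ∅ false, (stg_pos _ (empty_subset _)).ge⟩
    have e1 := Nat.find_spec hex
    have e0 : Nat.find hex ≠ 0 := fun e => by rw [e, stg_zero] at e1; omega
    obtain ⟨k, hk⟩ := Nat.exists_eq_succ_of_ne_zero e0
    have e2 := Nat.find_min hex (show k < Nat.find hex by omega)
    rw [hk] at e1
    refine ⟨2 * k + 1, by omega, ?_⟩
    rw [show (2 * k + 1) / 2 = k by omega]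
    rcases stg_succ k with h | h <;> simp only [Nat.succ_eq_add_one] at e1 <;> omega
  refine ⟨fun j a => w (2 * pos j ∅ false) a, fun j a => Scheme.wt_nonneg h1 _ _, fun a => ?_,
    fun j a a' e => ?_, fun j a hj => ?_, fun j a hj => ?_, fun a b m => ?_⟩ <;> beta_reduce
  · rw [w4 _ 0 a (by rw [p1]; exact stg_zero.symm)]
    simp only [hw, Nat.zero_div, stg_zero, res_zero]
    exact h2.trans_eq (Scheme.wt_zero (S := S) ν).symm
  · simp only [hw, p1, res_congr e]
  · obtain ⟨b, e1, e2, e3⟩ := p2 j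
    rw [w4 _ b a (by rw [p1, e2]), w1 b a fun h => hj (e2 ▸ h.2.2)]
    exact w4 _ _ a (by rw [p1, ← e3]; congr 1; omega)
  · obtain ⟨b, e1, e2, e3⟩ := p2 j
    rw [w4 _ b a (by rw [p1, e2]), w2 b a ⟨e1, by rw [e2, e3], e2 ▸ hj⟩, e2]
    exact sum_congr rfl fun v _ => w4 _ _ _ (by rw [p1, ← e3]; congr 1; omega)
  · rw [w4 _ b a (p1 _), ← pat_res]
    refine Scheme.wt_le h1 h3 par hpar (fun b q => pat A ∅ ∅ q b) (fun b q q' hq => ?_) b _ m
    refine (pat_succ A ∅ ∅ q q' b fun hb => ?_).ge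
    rw [← hpar b q q' hq]
    simp only [par]
    rw [if_neg fun h => by have := h.1; omega]

end Pool.Agent.Lib.MP_409048_lc
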