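import Mathlib
import Pool.Agent.Lib.MP_409048_lc.Layout

set_option autoImplicit false

namespace Pool.Agent.Lib.MP_409048_lc

open Finset Filter

/-- A sigma-ideal of small sets of tags. -/
def Null (X : Set (ℕ → ℕ)) : Prop :=
  ∃ Φ : ℕ → ℕ → (ℕ → ℕ) → Finset ℕ, (∀ n κ a, (Φ n κ a).card ≤ 2 ^ hh κ) ∧
    (∀ n κ a a', (∀ κ' < κ, a κ' = a' κ') → Φ n κ a = Φ n κ a') ∧
    ∀ a ∈ X, ∃ n, ∀ m, ∃ κ, m ≤ κ ∧ a κ ∈ Φ n κ a

lemma Null.mono {X Y : Set (ℕ → ℕ)} (h : Null Y) (h' : X ⊆ Y) : Null X := by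
  obtain ⟨Φ, h1, h2, h3⟩ := h
  exact ⟨Φ, h1, h2, fun a ha => h3 a (h' ha)⟩

lemma null_empty : Null ∅ :=
  ⟨fun _ _ _ => ∅, fun _ _ _ => by simp, fun _ _ _ _ _ => rfl, fun _ h => h.elim⟩

lemma nonempty_of_not_null {X : Set (ℕ → ℕ)} (h : ¬ Null X) : X.Nonempty :=
  Set.nonempty_iff_ne_empty.mpr fun e => h (e ▸ null_empty)

lemma null_iUnion {ι : Type} [Countable ι] {X : ι → Set (ℕ → ℕ)} (h : ∀ i, Null (X i)) :
    Null (⋃ i, X i) := by
  rcases isEmpty_or_nonempty ι with h0 | h0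
  · simpa using null_empty
  · obtain ⟨e, he⟩ := exists_surjective_nat ι
    choose Φ h1 h2 h3 using h
    refine ⟨fun n => Φ (e (Nat.unpair n).1) (Nat.unpair n).2, fun _ _ _ => h1 _ _ _ _,
      fun _ _ _ _ => h2 _ _ _ _ _, fun a ha => ?_⟩
    obtain ⟨i, hi⟩ := Set.mem_iUnion.mp ha
    obtain ⟨k, rfl⟩ := he i
    obtain ⟨n, hn⟩ := h3 _ a hi
    exact ⟨Nat.pair k n, by simpa using hn⟩

lemma pigeon {C : Type} [Countable C] {X : Set (ℕ → ℕ)} (hX : ¬ Null X)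
    {p : (ℕ → ℕ) → C → Prop} (h : ∀ a ∈ X, ∃ c, p a c) : ∃ c, ¬ Null {a | a ∈ X ∧ p a c} := by
  by_contra hc
  push Not at hc
  exact hX ((null_iUnion hc).mono fun a ha => Set.mem_iUnion.mpr ((h a ha).imp fun _ e => ⟨ha, e⟩))

theorem not_null_Tags : ¬ Null Tags := by
  rintro ⟨Φ, h1, h2, h3⟩
  have step : ∀ κ (a : ℕ → ℕ), ∃ v < 2 ^ gam κ, ∀ n ≤ κ, v ∉ Φ n κ a := by
    intro κ a
    have : ((range (κ + 1)).biUnion fun n => Φ n κ a).card < (range (2 ^ gam κ)).card := by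
      refine (card_biUnion_le_card_mul _ _ _ fun n _ => h1 n κ a).trans_lt ?_
      rw [card_range, card_range, gam, add_assoc, pow_add, mul_comm]
      exact Nat.mul_lt_mul_of_pos_left Nat.lt_two_pow_self (by positivity)
    obtain ⟨v, hv, hv'⟩ := exists_mem_notMem_of_card_lt_card this
    exact ⟨v, mem_range.mp hv, fun n hn e =>
      hv' (mem_biUnion.mpr ⟨n, mem_range.mpr (by omega), e⟩)⟩
  choose F hF1 hF2 using step
  obtain ⟨s, s1⟩ : ∃ s : ℕ → ℕ → ℕ, ∀ n, s (n + 1) = Function.update (s n) n (F n (s n)) :=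
    ⟨fun n => Nat.rec (fun _ => 0) (fun n x => Function.update x n (F n x)) n, fun _ => rfl⟩
  have i2 : ∀ n κ, κ < n → s n κ = F κ (s κ) := by
    intro n κ h
    induction n, h using Nat.le_induction with
    | base => rw [s1, Function.update_self]
    | succ n h ih => rw [s1, Function.update_of_ne (by omega), ih]
  obtain ⟨n, hn⟩ := h3 (fun κ => F κ (s κ)) fun κ => hF1 _ _
  obtain ⟨κ, e1, e2⟩ := hn n
  rw [h2 n κ _ (s κ) fun κ' e => (i2 κ κ' e).symm] at e2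
  exact hF2 κ _ n e1 e2

lemma cover (E : Set (ℕ × ℕ)) (l : ℕ) :
    (∃ m : Fin l → ℕ × ℕ, (∀ r, m r ∈ E) ∧ (Function.Injective fun r => (m r).1) ∧
      Function.Injective fun r => (m r).2) ∨
    ∃ R C : Finset ℕ, R.card ≤ l ∧ C.card ≤ l ∧ ∀ p ∈ E, p.1 ∈ R ∨ p.2 ∈ C := by
  induction l with
  | zero => exact Or.inl ⟨Fin.elim0, fun r => r.elim0, fun r => r.elim0, fun r => r.elim0⟩
  | succ l ih =>
    rcases ih with ⟨m, h1, h2, h3⟩ | ⟨R, C, h1, h2, h3⟩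
    · by_cases h : ∀ p ∈ E, p.1 ∈ univ.image (fun r => (m r).1) ∨
        p.2 ∈ univ.image fun r => (m r).2
      · exact Or.inr ⟨_, _, card_image_le.trans (by simp), card_image_le.trans (by simp), h⟩
      · push Not at h
        obtain ⟨p, hp, e1, e2⟩ := h
        refine Or.inl ⟨Fin.cons p m, fun r => Fin.cases hp h1 r, ?_, ?_⟩
        · have : (fun r => ((Fin.cons p m : Fin (l + 1) → ℕ × ℕ) r).1) =
              Fin.cons p.1 fun r => (m r).1 := funext fun r => Fin.cases rfl (fun _ => rfl) r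
          rw [this, Fin.cons_injective_iff]
          exact ⟨by simpa using e1, h2⟩
        · have : (fun r => ((Fin.cons p m : Fin (l + 1) → ℕ × ℕ) r).2) =
              Fin.cons p.2 fun r => (m r).2 := funext fun r => Fin.cases rfl (fun _ => rfl) r
          rw [this, Fin.cons_injective_iff]
          exact ⟨by simpa using e2, h3⟩
    · exact Or.inr ⟨R, C, by omega, by omega, h3⟩

/-- A family of non-null sets of tags which split at the coordinates `2τ` and `2τ+1`. -/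
def Fan (Z : Set (ℕ → ℕ)) (τ : ℕ) {ρ : Type} (Y : ρ → Set (ℕ → ℕ)) : Prop :=
  (∀ r, ¬ Null (Y r) ∧ Y r ⊆ Z) ∧ ∀ r r', ∀ a ∈ Y r, ∀ a' ∈ Y r', (∀ κ < 2 * τ, a κ = a' κ) ∧
    (r = r' → a (2 * τ) = a' (2 * τ)) ∧
    (r ≠ r' → a (2 * τ) ≠ a' (2 * τ) ∧ a (2 * τ + 1) ≠ a' (2 * τ + 1))

theorem many {V : Ultrafilter ℕ} (hV : (V : Filter ℕ) ≤ atTop) {X : Set (ℕ → ℕ)} (hX : ¬ Null X)
    {Good : ℕ → Set (ℕ → ℕ)} (h : ∀ a ∈ X, ∀ᶠ τ in V, a ∈ Good τ) :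
    ∀ᶠ τ in V, ∃ Y : Fin (2 ^ hh (2 * τ)) → Set (ℕ → ℕ), Fan (X ∩ Good τ) τ Y := by
  classical
  by_contra hc
  rw [← Ultrafilter.eventually_not] at hc
  set Cyl : ℕ → (ℕ → ℕ) → ℕ × ℕ → Set (ℕ → ℕ) := fun τ a p =>
    {a' | a' ∈ X ∩ Good τ ∧ (∀ κ < 2 * τ, a' κ = a κ) ∧ a' (2 * τ) = p.1 ∧ a' (2 * τ + 1) = p.2}
    with hCyl
  have hcong : ∀ τ a a', (∀ κ < 2 * τ, a κ = a' κ) → Cyl τ a = Cyl τ a' := by
    intro τ a a' e
    funext p
    ext x
    exact and_congr_right fun _ => and_congr_left fun _ => forall₂_congr fun κ hκ => by rw [e κ hκ]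
  have hcov : ∀ (E : Set (ℕ × ℕ)) (l : ℕ), ∃ R C : Finset ℕ, R.card ≤ l ∧ C.card ≤ l ∧
      ((¬ ∃ m : Fin l → ℕ × ℕ, (∀ r, m r ∈ E) ∧ (Function.Injective fun r => (m r).1) ∧
        Function.Injective fun r => (m r).2) → ∀ p ∈ E, p.1 ∈ R ∨ p.2 ∈ C) := by
    intro E l
    rcases cover E l with e | ⟨R, C, e1, e2, e3⟩
    · exact ⟨∅, ∅, by simp, by simp, fun e' => absurd e e'⟩
    · exact ⟨R, C, e1, e2, fun _ => e3⟩
  choose R C c1 c2 c3 using hcov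
  set Φ : ℕ → (ℕ → ℕ) → Finset ℕ := fun κ a =>
    (if κ % 2 = 0 then R else C) {p | ¬ Null (Cyl (κ / 2) a p)} (2 ^ hh (2 * (κ / 2))) with hΦ
  have n1 : Null {a | ∀ m, ∃ κ, m ≤ κ ∧ a κ ∈ Φ κ a} := by
    refine ⟨fun _ => Φ, fun _ κ a => ?_, fun _ κ a a' e => ?_, fun a ha => ⟨0, ha⟩⟩
    · have : 2 ^ hh (2 * (κ / 2)) ≤ 2 ^ hh κ :=
        Nat.pow_le_pow_right (by norm_num) (hh_mono (by omega))
      simp only [hΦ]
      split_ifs
      exacts [(c1 _ _).trans this, (c2 _ _).trans this]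
    · simp only [hΦ]
      rw [hcong (κ / 2) a a' fun κ' e' => e κ' (by omega)]
  obtain ⟨c, hc2⟩ := pigeon (C := Option (ℕ × List ℕ × ℕ × ℕ)) hX
    (p := fun a c => c.elim (∀ m, ∃ κ, m ≤ κ ∧ a κ ∈ Φ κ a) fun c =>
      a ∈ Cyl c.1 (fun κ => c.2.1.getD κ 0) c.2.2 ∧ Null (Cyl c.1 (fun κ => c.2.1.getD κ 0) c.2.2))
    (by
      intro a ha
      by_cases h0 : ∃ τ, a ∈ Good τ ∧ Null (Cyl τ a (a (2 * τ), a (2 * τ + 1)))
      · obtain ⟨τ, e1, e2⟩ := h0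
        refine ⟨some (τ, (List.range (2 * τ)).map a, a (2 * τ), a (2 * τ + 1)), ?_⟩
        simp only [Option.elim]
        rw [hcong τ _ a fun κ hκ => by simp [hκ]]
        exact ⟨⟨⟨ha, e1⟩, fun _ _ => rfl, rfl, rfl⟩, e2⟩
      · push Not at h0
        refine ⟨none, fun m => ?_⟩
        obtain ⟨τ, e1, e2, e3⟩ := ((h a ha).and (hc.and (hV (eventually_ge_atTop m)))).exists
        have e3 : m ≤ τ := e3
        have := c3 {p | ¬ Null (Cyl τ a p)} (2 ^ hh (2 * τ)) (by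
          rintro ⟨f, f1, f2, f3⟩
          refine e2 ⟨fun r => Cyl τ a (f r), fun r => ⟨f1 r, fun x hx => hx.1⟩, ?_⟩
          intro r r' x hx x' hx'
          refine ⟨fun κ hκ => by rw [hx.2.1 κ hκ, hx'.2.1 κ hκ], ?_, fun hne => ?_⟩
          · rintro rfl
            rw [hx.2.2.1, hx'.2.2.1]
          · rw [hx.2.2.1, hx'.2.2.1, hx.2.2.2, hx'.2.2.2]
            exact ⟨fun e => hne (f2 e), fun e => hne (f3 e)⟩) _ (h0 τ e1)
        rcases this with e | e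
        · refine ⟨2 * τ, by omega, ?_⟩
          simp only [hΦ]
          rwa [if_pos (by omega), show 2 * τ / 2 = τ by omega]
        · refine ⟨2 * τ + 1, by omega, ?_⟩
          simp only [hΦ]
          rwa [if_neg (by omega), show (2 * τ + 1) / 2 = τ by omega])
  apply hc2
  rcases c with _ | c
  · exact n1.mono fun a ha => ha.2
  · by_cases e : Null (Cyl c.1 (fun κ => c.2.1.getD κ 0) c.2.2)
    · exact e.mono fun a ha => ha.2.1
    · exact null_empty.mono fun a ha => e ha.2.2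

end Pool.Agent.Lib.MP_409048_lc
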