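import Mathlib
import Pool.Agent.Lib.MP_409048_lc.Null
import Pool.Agent.Lib.MP_409048_lc.Meas

set_option autoImplicit false

namespace Pool.Agent.Lib.MP_409048_lc

open Finset Filter MeasureTheory Topology

/-- The measures attached to the tags. -/
structure Ctx where
  μ : (ℕ → ℕ) → Measure Br
  fin : ∀ a, IsFiniteMeasure (μ a)
  Z : (ℕ → ℕ) → Br → ℕ → ℕ
  tot : ∀ a, (μ a).real Set.univ ≤ 1
  lo : ∀ a k n, (μ a).real (cs (mid k) n) ≤ 2⁻¹ ^ BB k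
  hi : ∀ a k n, ¬ Sat (tst k) a → (μ a).real (cs (mid k) n) ≤ 2⁻¹ ^ (BB k + bet (stg k))

instance (c : Ctx) (a : ℕ → ℕ) : IsFiniteMeasure (c.μ a) := c.fin a

structure Node where
  X : Set (ℕ → ℕ)
  Ξ : (ℕ → ℕ) → Set Br
  ω : ℕ → ℝ
  L : ℝ

structure Node.Ok (c : Ctx) (N : ℕ) (d : Node) : Prop where
  nn : ¬ Null d.X
  sub : d.X ⊆ Tags
  L0 : 0 ≤ d.L
  ω0 : ∀ n, 0 ≤ d.ω n
  le : ∀ a ∈ d.X, ∀ n, d.ω n ≤ d.L * (c.μ a).real (d.Ξ a ∩ cs N n)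

def Node.Le (d' d : Node) : Prop := d'.X ⊆ d.X ∧ ∀ a, d'.Ξ a ⊆ d.Ξ a

lemma Node.Le.trans {d d' d'' : Node} (h : d''.Le d') (h' : d'.Le d) : d''.Le d :=
  ⟨h.1.trans h'.1, fun a => (h.2 a).trans (h'.2 a)⟩

lemma Node.Ok.zero {c : Ctx} {N : ℕ} {d : Node} (h : d.Ok c N) {n : ℕ} (hn : 2 ^ N ≤ n) :
    d.ω n = 0 := by
  obtain ⟨a, ha⟩ := nonempty_of_not_null h.nn
  have := h.le a ha n
  rw [cs_eq_empty hn] at this
  exact le_antisymm (by simpa using this) (h.ω0 n)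

lemma ratio_fin {ι : Type} [Fintype ι] (x y : ι → ℝ) (hy : ∀ i, 0 ≤ y i)
    (h : ∀ i, 0 < x i → 0 < y i) : ∃ q : ℕ, ∀ i, x i ≤ q * y i := by
  have : ∀ i, ∃ q : ℕ, x i ≤ q * y i := by
    intro i
    by_cases e : 0 < x i
    · obtain ⟨q, hq⟩ := exists_nat_ge (x i / y i)
      exact ⟨q, (div_le_iff₀ (h i e)).mp hq⟩
    · exact ⟨0, by simpa using e⟩
  choose q hq using this
  refine ⟨∑ i, q i, fun i => (hq i).trans (mul_le_mul_of_nonneg_right ?_ (hy i))⟩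
  exact_mod_cast single_le_sum (f := q) (fun _ _ => Nat.zero_le _) (mem_univ i)

lemma exists_ratio (μ : Measure Br) [IsFiniteMeasure μ] {C : Type} [Countable C] [Nonempty C]
    {Ξ : Set Br} {S : C → Set Br} (h : ∀ ξ ∈ Ξ, ∃ θ, ξ ∈ S θ) (N : ℕ) :
    ∃ (θ : Fin (2 ^ N) → C) (q : ℕ), ∀ n : Fin (2 ^ N),
      μ.real (Ξ ∩ cs N n) ≤ q * μ.real (Ξ ∩ S (θ n) ∩ cs N n) := by
  have : ∀ n : Fin (2 ^ N), ∃ θ, 0 < μ.real (Ξ ∩ cs N n) → 0 < μ.real (Ξ ∩ S θ ∩ cs N n) := by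
    intro n
    by_contra hc
    push Not at hc
    have h1 : μ (⋃ θ, Ξ ∩ S θ ∩ cs N n) = 0 := measure_iUnion_null fun θ =>
      (measureReal_eq_zero_iff (measure_ne_top _ _)).mp (le_antisymm (hc θ).2 measureReal_nonneg)
    have h2 : μ (Ξ ∩ cs N n) = 0 := measure_mono_null (fun ξ hξ => Set.mem_iUnion.mpr
      ((h ξ hξ.1).imp fun θ e => show ξ ∈ Ξ ∩ S θ ∩ cs N n from ⟨⟨hξ.1, e⟩, hξ.2⟩)) h1
    have := (hc (Classical.arbitrary C)).1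
    simp [Measure.real, h2] at this
  choose θ hθ using this
  exact ⟨θ, ratio_fin _ _ (fun _ => measureReal_nonneg) hθ⟩

lemma Node.Ok.bound {c : Ctx} {N : ℕ} {d : Node} (h : d.Ok c N) (M : ℕ) :
    ∃ d' : Node, ∃ T, d'.Ok c N ∧ d'.Le d ∧ d'.ω = d.ω ∧
      ∀ a, ∀ ξ ∈ d'.Ξ a, ∀ m ≤ M, c.Z a ξ m ≤ T := by
  obtain ⟨⟨θ, q⟩, hq⟩ := pigeon (C := (Fin (2 ^ N) → ℕ) × ℕ) h.nn
    (p := fun a x => ∀ n : Fin (2 ^ N), (c.μ a).real (d.Ξ a ∩ cs N n) ≤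
      x.2 * (c.μ a).real (d.Ξ a ∩ {ξ | ∀ m ≤ M, c.Z a ξ m ≤ x.1 n} ∩ cs N n)) (by
    intro a _
    obtain ⟨θ, q, e⟩ := exists_ratio (c.μ a) (Ξ := d.Ξ a)
      (S := fun T : ℕ => {ξ | ∀ m ≤ M, c.Z a ξ m ≤ T}) (fun ξ _ =>
        ⟨∑ m ∈ range (M + 1), c.Z a ξ m, fun m hm => single_le_sum (f := c.Z a ξ)
          (fun _ _ => Nat.zero_le _) (mem_range.mpr (by omega))⟩) N
    exact ⟨(θ, q), e⟩)
  refine ⟨⟨_, fun a => d.Ξ a ∩ {ξ | ∀ m ≤ M, c.Z a ξ m ≤ ∑ n, θ n}, d.ω, d.L * q⟩, ∑ n, θ n,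
    ⟨hq, fun a ha => h.sub ha.1, mul_nonneg h.L0 (by positivity), h.ω0, fun a ha n => ?_⟩,
    ⟨fun a ha => ha.1, fun a => Set.inter_subset_left⟩, rfl, fun a ξ hξ => hξ.2⟩
  rcases Nat.lt_or_ge n (2 ^ N) with hn | hn
  · refine (h.le a ha.1 n).trans ?_
    rw [mul_assoc]
    refine mul_le_mul_of_nonneg_left ((ha.2 ⟨n, hn⟩).trans ?_) h.L0
    refine mul_le_mul_of_nonneg_left (measureReal_mono ?_) (by positivity)
    exact fun ξ hξ => ⟨⟨hξ.1.1, fun m hm => (hξ.1.2 m hm).trans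
      (single_le_sum (f := θ) (fun _ _ => Nat.zero_le _) (mem_univ _))⟩, hξ.2⟩
  · change d.ω n ≤ _
    rw [h.zero hn]
    exact mul_nonneg (mul_nonneg h.L0 (by positivity)) measureReal_nonneg

lemma Node.Ok.refine {c : Ctx} {N : ℕ} {d : Node} (h : d.Ok c N) (r : ℕ) :
    ∃ d' : Node, d'.Ok c (N + r) ∧ d'.Le d ∧ d'.L = 2 * d.L ∧ ∀ n, ms d'.ω r n = d.ω n := by
  obtain ⟨q0, hq⟩ := pigeon (C := Fin (2 ^ (N + r)) → ℚ) h.nn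
    (p := fun a x => ∀ n : Fin (2 ^ (N + r)), (c.μ a).real (d.Ξ a ∩ cs (N + r) n) ≤ 2 * x n ∧
      x n ≤ (c.μ a).real (d.Ξ a ∩ cs (N + r) n)) (by
    intro a _
    have : ∀ t : ℝ, 0 ≤ t → ∃ x : ℚ, t ≤ 2 * x ∧ x ≤ t := by
      intro t ht
      rcases ht.eq_or_lt with e | e
      · exact ⟨0, by simp [← e]⟩
      · obtain ⟨x, e1, e2⟩ := exists_rat_btwn (show t / 2 < t by linarith)
        exact ⟨x, by linarith, e2.le⟩
    choose x hx using this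
    exact ⟨fun n => x _ measureReal_nonneg, fun n => hx _ _⟩)
  set q : ℕ → ℝ := fun n => if e : n < 2 ^ (N + r) then q0 ⟨n, e⟩ else 0 with hqd
  have h1 : ∀ a ∈ d.X, (∀ n : Fin (2 ^ (N + r)), (c.μ a).real (d.Ξ a ∩ cs (N + r) n) ≤ 2 * q0 n ∧
      q0 n ≤ (c.μ a).real (d.Ξ a ∩ cs (N + r) n)) → ∀ n,
      (c.μ a).real (d.Ξ a ∩ cs (N + r) n) ≤ 2 * q n ∧
        q n ≤ (c.μ a).real (d.Ξ a ∩ cs (N + r) n) := by
    intro a _ e n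
    simp only [hqd]
    split_ifs with hn
    · exact e ⟨n, hn⟩
    · simp [cs_eq_empty (not_lt.mp hn)]
  obtain ⟨a0, ha0, ha1⟩ := nonempty_of_not_null hq
  have q0' : ∀ n, 0 ≤ q n := fun n => by
    linarith [(h1 a0 ha0 ha1 n).1, measureReal_nonneg (μ := c.μ a0) (s := d.Ξ a0 ∩ cs (N + r) n)]
  have h2 : ∀ n, d.ω n ≤ 2 * d.L * ms q r n := by
    intro n
    refine (h.le a0 ha0 n).trans ?_
    rw [(isFlow_meas (c.μ a0) (d.Ξ a0)).eq_ms r, mul_comm 2, mul_assoc, ← ms_mul 2]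
    exact mul_le_mul_of_nonneg_left (ms_mono (fun n' => (h1 a0 ha0 ha1 n').1) _ _) h.L0
  have L2 : 0 ≤ 2 * d.L := by linarith [h.L0]
  refine ⟨⟨_, d.Ξ, fun n => d.ω (n / 2 ^ r) / ms q r (n / 2 ^ r) * q n, 2 * d.L⟩,
    ⟨hq, fun a ha => h.sub ha.1, L2, fun n => mul_nonneg (div_nonneg (h.ω0 _)
      (ms_nonneg q0' _ _)) (q0' n), fun a ha n => ?_⟩,
    ⟨fun a ha => ha.1, fun a => le_rfl⟩, rfl, fun n => ?_⟩
  · exact mul_le_mul (div_le_of_le_mul₀ (ms_nonneg q0' _ _) L2 (h2 _)) (h1 a ha.1 ha.2 n).2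
      (q0' n) L2
  · rw [ms_congr (μ' := fun n' => d.ω n / ms q r n * q n') fun n' e => by simp only [e], ms_mul]
    rcases (ms_nonneg q0' r n).eq_or_lt with e | e
    · have := h2 n
      rw [← e] at this ⊢
      linarith [h.ω0 n]
    · field_simp

/-- A finite stage of the construction of a measure. -/
structure State (c : Ctx) where
  ι : Type
  [fin : Fintype ι]
  nd : ι → Node
  N : ℕ
  Zs : Finset ℕ
  ok : ∀ i, (nd i).Ok c N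
  sep : ∀ i i', i ≠ i' → ∃ τ ∈ Zs, ∀ a ∈ (nd i).X, ∀ a' ∈ (nd i').X,
    (∀ κ < 2 * τ, a κ = a' κ) ∧ a (2 * τ + 1) ≠ a' (2 * τ + 1)
  zb : ∀ i, ∀ a ∈ (nd i).X, ∀ ξ ∈ (nd i).Ξ a, ∀ τ ∈ Zs, ∀ m ≤ (Zs.filter (· < τ)).card,
    c.Z a ξ m ≤ τ

attribute [instance] State.fin

structure Split (c : Ctx) (N : ℕ) (d : Node) (τ : ℕ) where
  ρ : Type
  [fin : Fintype ρ]
  ch : ρ → Node
  ok : ∀ r, (ch r).Ok c N
  le : ∀ r, (ch r).Le d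
  sum : ∀ n, ∑ r, (ch r).ω n = d.ω n
  sep : ∀ r r', r ≠ r' → ∀ a ∈ (ch r).X, ∀ a' ∈ (ch r').X,
    (∀ κ < 2 * τ, a κ = a' κ) ∧ a (2 * τ + 1) ≠ a' (2 * τ + 1)

attribute [instance] Split.fin

namespace State

variable {c : Ctx}

noncomputable def Ω (σ : State c) (n : ℕ) : ℝ := ∑ i, (σ.nd i).ω n

lemma Ω_nonneg (σ : State c) (n : ℕ) : 0 ≤ σ.Ω n := sum_nonneg fun i _ => (σ.ok i).ω0 n

def Le (σ' σ : State c) : Prop :=
  σ.N ≤ σ'.N ∧ (∀ n, ms σ'.Ω (σ'.N - σ.N) n = σ.Ω n) ∧ ∀ i', ∃ i, (σ'.nd i').Le (σ.nd i)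

lemma Le.trans {σ σ' σ'' : State c} (h : σ''.Le σ') (h' : σ'.Le σ) : σ''.Le σ := by
  refine ⟨h'.1.trans h.1, fun n => ?_, fun i => ?_⟩
  · have := h.1
    have := h'.1
    rw [show σ''.N - σ.N = (σ''.N - σ'.N) + (σ'.N - σ.N) by omega, ms_add,
      show ms σ''.Ω (σ''.N - σ'.N) = σ'.Ω from funext h.2.1, h'.2.1]
  · obtain ⟨i', e⟩ := h.2.2 i
    obtain ⟨i'', e'⟩ := h'.2.2 i'
    exact ⟨i'', e.trans e'⟩

def modify (σ : State c) (N' : ℕ) (nd' : σ.ι → Node) (h1 : ∀ i, (nd' i).Ok c N')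
    (h2 : ∀ i, (nd' i).Le (σ.nd i)) : State c where
  ι := σ.ι
  nd := nd'
  N := N'
  Zs := σ.Zs
  ok := h1
  sep := fun i i' h => (σ.sep i i' h).imp fun _ e =>
    ⟨e.1, fun a ha a' ha' => e.2 a ((h2 i).1 ha) a' ((h2 i').1 ha')⟩
  zb := fun i a ha ξ hξ => σ.zb i a ((h2 i).1 ha) ξ ((h2 i).2 a hξ)

lemma modify_le (σ : State c) (r : ℕ) (nd' : σ.ι → Node) (h1 : ∀ i, (nd' i).Ok c (σ.N + r))
    (h2 : ∀ i, (nd' i).Le (σ.nd i)) (h3 : ∀ i n, ms (nd' i).ω r n = (σ.nd i).ω n) :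
    (σ.modify (σ.N + r) nd' h1 h2).Le σ := by
  refine ⟨Nat.le_add_right _ _, fun n => ?_, fun i => ⟨i, h2 i⟩⟩
  change ms (fun n => ∑ i : σ.ι, (nd' i).ω n) (σ.N + r - σ.N) n = _
  rw [Nat.add_sub_cancel_left, ms_sum]
  exact sum_congr rfl fun i _ => h3 i n

def Bdd (σ : State c) (T : ℕ) : Prop := (∀ τ ∈ σ.Zs, τ < T) ∧
  ∀ i a, ∀ ξ ∈ (σ.nd i).Ξ a, ∀ m ≤ σ.Zs.card + Fintype.card σ.ι, c.Z a ξ m ≤ T

lemma exists_bdd (σ : State c) : ∃ σ' : State c, σ'.Le σ ∧ ∃ T, σ'.Bdd T := by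
  choose nd' T h1 h2 h3 h4 using fun i => (σ.ok i).bound (σ.Zs.card + Fintype.card σ.ι)
  refine ⟨_, σ.modify_le 0 nd' h1 h2 (fun i n => by rw [h3, ms_zero]),
    ∑ τ ∈ σ.Zs, τ + 1 + ∑ i, T i, fun τ hτ => ?_, fun i a ξ hξ m hm => ?_⟩
  · have := single_le_sum (f := fun τ : ℕ => τ) (fun _ _ => Nat.zero_le _)
      (show τ ∈ σ.Zs from hτ)
    omega
  · exact (h4 i a ξ hξ m hm).trans ((single_le_sum (f := T) (fun _ _ => Nat.zero_le _)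
      (mem_univ (α := σ.ι) i)).trans (Nat.le_add_left _ _))

lemma exists_const (σ : State c) {C : Type} [Countable C] (p : (ℕ → ℕ) → C) :
    ∃ σ' : State c, σ'.Le σ ∧ ∀ i, ∀ a ∈ (σ'.nd i).X, ∀ a' ∈ (σ'.nd i).X, p a = p a' := by
  choose x hx using fun i => pigeon (σ.ok i).nn (p := fun a x => p a = x) fun a _ => ⟨_, rfl⟩
  refine ⟨_, σ.modify_le 0 (fun i => ⟨_, (σ.nd i).Ξ, (σ.nd i).ω, (σ.nd i).L⟩)
    (fun i => ⟨hx i, fun a ha => (σ.ok i).sub ha.1, (σ.ok i).L0, (σ.ok i).ω0,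
      fun a ha => (σ.ok i).le a ha.1⟩) (fun i => ⟨fun a ha => ha.1, fun _ => le_rfl⟩)
    (fun i n => ms_zero _ _), fun i a ha a' ha' => ha.2.trans ha'.2.symm⟩

def Pre (σ : State c) (k : ℕ) (b : ℝ) : Prop := ∀ s : σ.ι → ℕ → ℕ, (∀ i, s i ∈ (σ.nd i).X) →
  ∀ n, ∑ i, (σ.nd i).L * (c.μ (s i)).real ((σ.nd i).Ξ (s i) ∩ cs (mid k) n) ≤ b

def Sm (σ : State c) (k : ℕ) (b : ℝ) : Prop :=
  mid k ≤ σ.N ∧ ∀ n, ms σ.Ω (σ.N - mid k) n ≤ b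

lemma exists_refine (σ : State c) (N' : ℕ) : ∃ σ' : State c, σ'.Le σ ∧ N' ≤ σ'.N ∧
    ∀ k b, mid k ≤ N' → σ.Pre k b → σ'.Sm k (2 * b) := by
  choose nd' h1 h2 h3 h4 using fun i => (σ.ok i).refine N'
  refine ⟨_, σ.modify_le N' nd' h1 h2 h4, Nat.le_add_left _ _, fun k b hk hp =>
    ⟨hk.trans (Nat.le_add_left _ _), fun n => ?_⟩⟩
  choose s hs using fun i => nonempty_of_not_null (h1 i).nn
  change ms (fun n => ∑ i : σ.ι, (nd' i).ω n) (σ.N + N' - mid k) n ≤ _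
  rw [ms_sum]
  refine le_trans ?_ (mul_le_mul_of_nonneg_left (hp s (fun i => (h2 i).1 (hs i)) n) zero_le_two)
  rw [mul_sum]
  refine sum_le_sum fun i _ => ?_
  rw [(isFlow_meas (c.μ (s i)) ((σ.nd i).Ξ (s i))).eq_ms (σ.N + N' - mid k), ← mul_assoc, ← h3,
    ← ms_mul, show mid k + (σ.N + N' - mid k) = σ.N + N' by omega]
  refine ms_mono (fun n' => ((h1 i).le _ (hs i) n').trans ?_) _ _
  exact mul_le_mul_of_nonneg_left
    (measureReal_mono (Set.inter_subset_inter_left _ ((h2 i).2 _))) (h1 i).L0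

noncomputable def compose (σ : State c) {T : ℕ} (hb : σ.Bdd T) (τ : σ.ι → ℕ) (hτ : ∀ i, T ≤ τ i)
    (sp : ∀ i, Split c σ.N (σ.nd i) (τ i)) : State c where
  ι := Σ i, (sp i).ρ
  nd := fun x => (sp x.1).ch x.2
  N := σ.N
  Zs := σ.Zs ∪ univ.image τ
  ok := fun x => (sp x.1).ok x.2
  sep := by
    rintro ⟨i, r⟩ ⟨i', r'⟩ h
    by_cases e : i = i'
    · subst e
      exact ⟨τ i, mem_union_right _ (mem_image_of_mem _ (mem_univ i)),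
        (sp i).sep r r' fun e => h (by rw [e])⟩
    · obtain ⟨t, e1, e2⟩ := σ.sep i i' e
      exact ⟨t, mem_union_left _ e1, fun a ha a' ha' =>
        e2 a (((sp i).le r).1 ha) a' (((sp i').le r').1 ha')⟩
  zb := by
    rintro ⟨i, r⟩ a ha ξ hξ t ht m hm
    have hξ' := ((sp i).le r).2 a hξ
    rcases mem_union.mp ht with e | e
    · refine σ.zb i a (((sp i).le r).1 ha) ξ hξ' t e m (hm.trans (card_le_card fun u hu => ?_))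
      obtain ⟨e1, e2⟩ := mem_filter.mp hu
      refine mem_filter.mpr ⟨(mem_union.mp e1).resolve_right fun e3 => ?_, e2⟩
      obtain ⟨j, -, rfl⟩ := mem_image.mp e3
      have := hb.1 t e
      have := hτ j
      omega
    · obtain ⟨j, -, rfl⟩ := mem_image.mp e
      refine (hb.2 i a ξ hξ' m (hm.trans ((card_filter_le _ _).trans ?_))).trans (hτ j)
      exact (card_union_le _ _).trans (Nat.add_le_add_left card_image_le _)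

lemma compose_le (σ : State c) {T : ℕ} (hb : σ.Bdd T) (τ : σ.ι → ℕ) (hτ : ∀ i, T ≤ τ i)
    (sp : ∀ i, Split c σ.N (σ.nd i) (τ i)) : (σ.compose hb τ hτ sp).Le σ := by
  refine ⟨le_rfl, fun n => ?_, fun x => ⟨x.1, (sp x.1).le x.2⟩⟩
  change ms (fun n => ∑ x : Σ i, (sp i).ρ, ((sp x.1).ch x.2).ω n) (σ.N - σ.N) n = _
  rw [Nat.sub_self, ms_zero, Fintype.sum_sigma]
  exact sum_congr rfl fun i _ => (sp i).sum n

end State

end Pool.Agent.Lib.MP_409048_lc
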