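import Mathlib
import Pool.Agent.Lib.MP_409048_lc.State

set_option autoImplicit false

namespace Pool.Agent.Lib.MP_409048_lc

open Finset Filter MeasureTheory Topology

/-- A node can be split so that its mass becomes small at a test of every tag. -/
def Kill (c : Ctx) (N : ℕ) (d : Node) (A : Set ℕ) (cc : ℕ → ℕ) : Prop :=
  ∃ Λ : ℝ, ∀ T0, ∃ τ, T0 ≤ τ ∧ ∃ sp : Split c N d τ, ∑ r, (sp.ch r).L ≤ Λ ∧ ∃ j, T0 ≤ j ∧
    ∀ a' ∈ Tags, ∃ k, stg k = j ∧ tst k = own A j a' ∧ ∀ s : sp.ρ → ℕ → ℕ,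
      (∀ r, s r ∈ (sp.ch r).X) → ∀ n,
      ∑ r, (sp.ch r).L * (c.μ (s r)).real ((sp.ch r).Ξ (s r) ∩ cs (mid k) n) ≤
        Λ * 2⁻¹ ^ (T0 + (BB k + cc j))

lemma exists_small (Λ : ℝ) {ε : ℝ} (hε : 0 < ε) (T : ℕ) : ∃ T0, T ≤ T0 ∧ Λ * 2⁻¹ ^ T0 ≤ ε := by
  have : Tendsto (fun n : ℕ => Λ * (2⁻¹ : ℝ) ^ n) atTop (𝓝 (Λ * 0)) :=
    (tendsto_pow_atTop_nhds_zero_of_lt_one (by norm_num) (by norm_num)).const_mul Λ
  exact ((eventually_ge_atTop T).and (this.eventually (ge_mem_nhds (by simpa using hε)))).exists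

lemma Ctx.hi' (c : Ctx) {a : ℕ → ℕ} {k e : ℕ} (h : ¬ Sat (tst k) a)
    (he : e ≤ BB k + bet (stg k)) (Ξ : Set Br) (n : ℕ) :
    (c.μ a).real (Ξ ∩ cs (mid k) n) ≤ 2⁻¹ ^ e :=
  (measureReal_mono Set.inter_subset_right).trans ((c.hi a k n h).trans (hp_anti he))

namespace State

variable {c : Ctx}

def Met (σ : State c) (A : Set ℕ) (P : Set Wd) (cc : ℕ → ℕ) (ε : ℝ) : Prop :=
  ∀ a' ∈ Tags, ∃ k, low A P (tst k) a' ∧ σ.Sm k (ε * 2⁻¹ ^ (BB k + cc (stg k)))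

lemma Sm.mono {σ : State c} {k : ℕ} {b b' : ℝ} (h : σ.Sm k b) (h' : b ≤ b') : σ.Sm k b' :=
  ⟨h.1, fun n => (h.2 n).trans h'⟩

theorem exists_met (σ : State c) {A : Set ℕ} (P : Set Wd) {cc : ℕ → ℕ}
    (hA : ∀ κ, κ % 2 = 1 → κ ∈ A) (hcc : ∀ j, cc j + j ≤ bet j)
    (h : ∀ N (d : Node), d.Ok c N → (∃ i, d.Le (σ.nd i)) → Kill c N d A cc) {ε : ℝ} (hε : 0 < ε) :
    ∃ σ' : State c, σ'.Le σ ∧ σ'.Met A P cc ε := by
  obtain ⟨σ1, l1, T, hb⟩ := σ.exists_bdd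
  choose Λ hΛ using fun i => h σ1.N (σ1.nd i) (σ1.ok i) (l1.2.2 i)
  obtain ⟨T0, e1, e2⟩ := exists_small (2 * ∑ i, Λ i) hε (2 * T)
  choose τ t1 sp t2 j t3 t4 using fun i => hΛ i T0
  have hτ : ∀ i, T ≤ τ i := fun i => by linarith [t1 i]
  obtain ⟨σ2, l2, -, h2⟩ := (σ1.compose hb τ hτ sp).exists_refine
    (mid (pos (T0 + ∑ i, j i + 1) ∅ false))
  refine ⟨σ2, l2.trans ((σ1.compose_le hb τ hτ sp).trans l1), fun a' ha' => ?_⟩
  have hhi : ∀ i k, T0 ≤ stg k → tst k = own A (stg k) a' →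
      (¬ ∃ a ∈ (σ1.nd i).X, ∀ κ < 2 * T, κ % 2 = 1 → a κ = a' κ) → ∀ s : (sp i).ρ → ℕ → ℕ,
      (∀ r, s r ∈ ((sp i).ch r).X) → ∀ n,
      ∑ r, ((sp i).ch r).L * (c.μ (s r)).real (((sp i).ch r).Ξ (s r) ∩ cs (mid k) n) ≤
        Λ i * 2⁻¹ ^ (T0 + (BB k + cc (stg k))) := by
    intro i k k1 k2 k3 s hs n
    refine le_trans ?_ (mul_le_mul_of_nonneg_right (t2 i) (hp_pos _).le)
    rw [sum_mul]
    refine sum_le_sum fun r _ => mul_le_mul_of_nonneg_left (c.hi' (fun e => k3 ⟨s r,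
      ((sp i).le r).1 (hs r), fun κ e3 e4 => ?_⟩) (by linarith [hcc (stg k)]) _ _) ((sp i).ok r).L0
    rw [k2] at e
    exact sat_own.mp e κ (by omega) (hA κ e4)
  have key : ∃ k, stg k ≤ T0 + ∑ i, j i ∧ tst k = own A (stg k) a' ∧ ∀ i,
      ∀ s : (sp i).ρ → ℕ → ℕ, (∀ r, s r ∈ ((sp i).ch r).X) → ∀ n,
      ∑ r, ((sp i).ch r).L * (c.μ (s r)).real (((sp i).ch r).Ξ (s r) ∩ cs (mid k) n) ≤
        Λ i * 2⁻¹ ^ (T0 + (BB k + cc (stg k))) := by
    by_cases hm : ∃ i, ∃ a ∈ (σ1.nd i).X, ∀ κ < 2 * T, κ % 2 = 1 → a κ = a' κ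
    · obtain ⟨i0, a0, m1, m2⟩ := hm
      obtain ⟨k, k1, k2, k3⟩ := t4 i0 a' ha'
      have := single_le_sum (f := j) (fun _ _ => Nat.zero_le _) (mem_univ i0)
      refine ⟨k, by omega, k1 ▸ k2, fun i => ?_⟩
      by_cases e : i = i0
      · subst e; rw [k1]; exact k3
      · refine hhi i k (k1 ▸ t3 i0) (k1 ▸ k2) ?_
        rintro ⟨a, m3, m4⟩
        obtain ⟨t, s1, s2⟩ := σ1.sep i i0 e
        have := hb.1 t s1
        exact (s2 a m3 a0 m1).2 (by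
          rw [m4 _ (by omega) (by omega), m2 _ (by omega) (by omega)])
    · have p1 := stg_pos false (own_sub (A := A) (j := T0) ha')
      have p2 := tst_pos false (own_sub (A := A) (j := T0) ha')
      exact ⟨_, by omega, by rw [p1, p2], fun i => hhi i _ p1.ge (by rw [p1, p2])
        fun e => hm ⟨i, e⟩⟩
  obtain ⟨k, k1, k2, k3⟩ := key
  refine ⟨k, k2 ▸ low_own, (h2 k ((∑ i, Λ i) * 2⁻¹ ^ (T0 + (BB k + cc (stg k))))
    (mid_mono (lt_pos_succ k1).le) fun s hs n => ?_).mono ?_⟩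
  · change ∑ x : Σ i, (sp i).ρ, _ ≤ _
    rw [Fintype.sum_sigma, sum_mul]
    exact sum_le_sum fun i _ => k3 i (fun r => s ⟨i, r⟩) (fun r => hs ⟨i, r⟩) n
  · rw [pow_add, ← mul_assoc, ← mul_assoc]
    exact mul_le_mul_of_nonneg_right e2 (hp_pos _).le

theorem exists_met_of_unsat (σ : State c) (A : Set ℕ) {P : Set Wd} {cc : ℕ → ℕ}
    (hcc : ∀ j, cc j + j ≤ bet j) {w : Wd} (hw : w ∈ P)
    (h : ∀ i, ∀ a ∈ (σ.nd i).X, ¬ Sat w a) {ε : ℝ} (hε : 0 < ε) :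
    ∃ σ' : State c, σ'.Le σ ∧ σ'.Met A P cc ε := by
  obtain ⟨j0, hj0⟩ := exists_Prs w
  obtain ⟨j, e1, e2⟩ := exists_small (2 * ∑ i, (σ.nd i).L) hε j0
  have p1 := stg_pos false (hj0.trans (Prs_mono e1))
  have p2 := tst_pos false (hj0.trans (Prs_mono e1))
  set k := pos j w false
  obtain ⟨σ2, l2, -, h2⟩ := σ.exists_refine (mid k)
  refine ⟨σ2, l2, fun a' _ => ⟨k, Or.inr (p2 ▸ hw),
    (h2 k ((∑ i, (σ.nd i).L) * 2⁻¹ ^ (j + (BB k + cc (stg k)))) le_rfl fun s hs n => ?_).mono ?_⟩⟩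
  · rw [sum_mul]
    exact sum_le_sum fun i _ => mul_le_mul_of_nonneg_left (c.hi' (p2 ▸ h i _ (hs i))
      (by linarith [hcc (stg k)]) _ _) (σ.ok i).L0
  · rw [pow_add, ← mul_assoc, ← mul_assoc]
    exact mul_le_mul_of_nonneg_right e2 (hp_pos _).le

theorem exists_typed (σ : State c) {C : Type} [Countable C] [Nonempty C]
    (S : C → (ℕ → ℕ) → Set Br) (h : ∀ i, ∀ a ∈ (σ.nd i).X, ∀ ξ ∈ (σ.nd i).Ξ a, ∃ θ, ξ ∈ S θ a) :
    ∃ σ' : State c, σ'.Le σ ∧ ∀ i, ∃ θ, ∀ a, (σ'.nd i).Ξ a ⊆ S θ a := by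
  obtain ⟨σ1, l1, T, hb⟩ := σ.exists_bdd
  have key : ∀ i, ∃ τ, T ≤ τ ∧ ∃ sp : Split c σ1.N (σ1.nd i) τ,
      ∀ r, ∃ θ, ∀ a, (sp.ch r).Ξ a ⊆ S θ a := by
    intro i
    have ok := σ1.ok i
    obtain ⟨i0, hi0⟩ := l1.2.2 i
    set d := σ1.nd i
    set N := σ1.N
    obtain ⟨⟨θ, q⟩, hq⟩ := pigeon (C := (Fin (2 ^ N) → C) × ℕ) ok.nn
      (p := fun a x => ∀ n : Fin (2 ^ N), (c.μ a).real (d.Ξ a ∩ cs N n) ≤
        x.2 * (c.μ a).real (d.Ξ a ∩ S (x.1 n) a ∩ cs N n)) (by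
      intro a ha
      obtain ⟨θ, q, e⟩ := exists_ratio (c.μ a) (Ξ := d.Ξ a) (S := fun θ => S θ a)
        (fun ξ hξ => h i0 a (hi0.1 ha) ξ (hi0.2 a hξ)) N
      exact ⟨(θ, q), e⟩)
    obtain ⟨τ, ⟨Y, y1, y2⟩, t1⟩ := ((many Nat.hyperfilter_le_atTop hq (Good := fun _ => Set.univ)
      fun _ _ => Eventually.of_forall fun _ => trivial).and
      (Nat.hyperfilter_le_atTop (eventually_ge_atTop (T + N)))).exists
    have t1 : T + N ≤ τ := t1
    have t2 : 2 ^ N ≤ 2 ^ hh (2 * τ) := Nat.pow_le_pow_right (by norm_num) (by unfold hh; omega)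
    refine ⟨τ, by omega, ⟨Fin (2 ^ N), fun r => ⟨Y (r.castLE t2), fun a => d.Ξ a ∩ S (θ r) a,
      fun n => if n = r then d.ω n else 0, d.L * q⟩, fun r => ⟨(y1 _).1,
        fun a ha => ok.sub ((y1 _).2 ha).1.1, mul_nonneg ok.L0 (by positivity), fun n => ?_,
        fun a ha n => ?_⟩, fun r => ⟨fun a ha => ((y1 _).2 ha).1.1, fun a => Set.inter_subset_left⟩,
        fun n => ?_, fun r r' e a ha a' ha' => ?_⟩,
      fun r => ⟨θ r, fun a => Set.inter_subset_right⟩⟩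
    · dsimp only
      split_ifs
      exacts [ok.ω0 n, le_rfl]
    · dsimp only
      split_ifs with e
      · subst e
        rw [mul_assoc]
        exact (ok.le a ((y1 _).2 ha).1.1 r).trans
          (mul_le_mul_of_nonneg_left (((y1 _).2 ha).1.2 r) ok.L0)
      · exact mul_nonneg (mul_nonneg ok.L0 (by positivity)) measureReal_nonneg
    · dsimp only
      rcases Nat.lt_or_ge n (2 ^ N) with hn | hn
      · rw [sum_eq_single ⟨n, hn⟩ (fun r _ e => if_neg fun e' => e (Fin.ext e'.symm))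
          (fun e => absurd (mem_univ _) e), if_pos rfl]
      · simp [ok.zero hn]
    · have := y2 _ _ a ha a' ha'
      exact ⟨this.1, (this.2.2 fun e' => e (Fin.castLE_injective _ e')).2⟩
  choose τ t1 sp t2 using key
  exact ⟨_, (σ1.compose_le hb τ t1 sp).trans l1, fun x => t2 x.1 x.2⟩

end State

lemma sum_le_of_unique {ρ : Type} [Fintype ρ] {f : ρ → ℝ} {p : ρ → Prop} {u v : ℝ} (hv : 0 ≤ v)
    (hp : ∀ r r', p r → p r' → r = r') (h1 : ∀ r, p r → f r ≤ u + v) (h2 : ∀ r, ¬ p r → f r ≤ u) :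
    ∑ r, f r ≤ Fintype.card ρ * u + v := by
  classical
  by_cases h : ∃ r, p r
  · obtain ⟨r0, h⟩ := h
    calc _ ≤ ∑ r, (u + if r = r0 then v else 0) := sum_le_sum fun r _ => by
          split_ifs with e
          · exact h1 r (e ▸ h)
          · rw [add_zero]; exact h2 r fun e' => e (hp _ _ e' h)
      _ = _ := by simp [sum_add_distrib]
  · have := sum_le_card_nsmul univ f u fun r _ => h2 r fun e => h ⟨r, e⟩
    rw [card_univ, nsmul_eq_mul] at this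
    linarith

variable {c : Ctx} {N : ℕ} {d : Node}

lemma sum_fin_div (e : ℕ) (x : ℝ) : ∑ _r : Fin (2 ^ e), 2⁻¹ ^ e * x = x := by
  rw [sum_const, card_univ, Fintype.card_fin, nsmul_eq_mul]
  push_cast
  rw [← mul_assoc, mul_comm ((2 : ℝ) ^ e), hp_mul, one_mul]

theorem kill_triv (ok : d.Ok c N) {A : Set ℕ} (hA : ∀ κ, κ % 2 = 1 → κ ∈ A) :
    Kill c N d A fun _ => 0 := by
  refine ⟨2 * d.L, fun T0 => ?_⟩
  obtain ⟨τ, ⟨Y, y1, y2⟩, t1⟩ := ((many Nat.hyperfilter_le_atTop ok.nn (Good := fun _ => Set.univ)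
    fun _ _ => Eventually.of_forall fun _ => trivial).and
    (Nat.hyperfilter_le_atTop (eventually_ge_atTop T0))).exists
  have t1 : T0 ≤ τ := t1
  have L0 := ok.L0
  have l0 := hp_pos (hh (2 * τ))
  refine ⟨τ, t1, ⟨Fin (2 ^ hh (2 * τ)), fun r => ⟨Y r, d.Ξ, fun n => 2⁻¹ ^ hh (2 * τ) * d.ω n,
    2⁻¹ ^ hh (2 * τ) * d.L⟩, fun r => ⟨(y1 _).1, fun a ha => ok.sub ((y1 _).2 ha).1,
      by positivity, fun n => mul_nonneg l0.le (ok.ω0 n), fun a ha n => ?_⟩,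
    fun r => ⟨fun a ha => ((y1 _).2 ha).1, fun a => le_rfl⟩, fun n => sum_fin_div _ _,
    fun r r' e a ha a' ha' => ⟨(y2 _ _ a ha a' ha').1, ((y2 _ _ a ha a' ha').2.2 e).2⟩⟩,
    (sum_fin_div _ _).le.trans (by linarith), 2 * τ + 2, by omega, fun a' ha' => ?_⟩
  · rw [mul_assoc]
    exact mul_le_mul_of_nonneg_left (ok.le a ((y1 _).2 ha).1 n) l0.le
  · have p1 := stg_pos false (own_sub (A := A) (j := 2 * τ + 2) ha')
    have p2 := tst_pos false (own_sub (A := A) (j := 2 * τ + 2) ha')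
    set k := pos (2 * τ + 2) (own A (2 * τ + 2) a') false
    refine ⟨k, p1, p2, fun s hs n => ?_⟩
    have q0 := hp_pos (T0 + (BB k + 0))
    refine (sum_le_of_unique (p := fun r => Sat (tst k) (s r))
      (u := 2⁻¹ ^ hh (2 * τ) * (d.L * 2⁻¹ ^ (T0 + (BB k + 0))))
      (v := d.L * 2⁻¹ ^ (T0 + (BB k + 0))) (by positivity) (fun r r' e e' => ?_) (fun r _ => ?_)
      fun r e => ?_).trans (le_of_eq ?_)
    · by_contra hc
      rw [p2, sat_own] at e e'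
      exact ((y2 _ _ _ (hs r) _ (hs r')).2.2 hc).2 (by
        rw [e _ (by omega) (hA _ (by omega)), e' _ (by omega) (hA _ (by omega))])
    · refine le_add_of_nonneg_of_le (by positivity) ?_
      dsimp only
      rw [mul_comm _ d.L, mul_assoc]
      refine mul_le_mul_of_nonneg_left ?_ L0
      refine (mul_le_mul_of_nonneg_left ((measureReal_mono Set.inter_subset_right).trans
        (c.lo _ k n)) l0.le).trans ?_
      rw [← pow_add]
      exact hp_anti (by unfold hh; omega)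
    · dsimp only
      rw [mul_assoc]
      refine mul_le_mul_of_nonneg_left (mul_le_mul_of_nonneg_left (c.hi' e ?_ _ _) L0) l0.le
      rw [p1]; unfold bet; omega
    · have := sum_fin_div (hh (2 * τ)) (d.L * 2⁻¹ ^ (T0 + (BB k + 0)))
      rw [sum_const, card_univ, nsmul_eq_mul] at this
      change (Fintype.card (Fin (2 ^ hh (2 * τ))) : ℝ) * _ + _ = _
      rw [this]; ring

/-- Points whose cell in the middle of the test `k` has small mass. -/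
def Light (c : Ctx) (a : ℕ → ℕ) (k : ℕ) : Set Br :=
  {ξ | (c.μ a).real (cs (mid k) (cell (mid k) ξ)) ≤ 2⁻¹ ^ (BB k + hh (stg k))}

lemma measurableSet_Light (c : Ctx) (a : ℕ → ℕ) (k : ℕ) : MeasurableSet (Light c a k) :=
  measurableSet_cell (mid k) fun n => (c.μ a).real (cs (mid k) n) ≤ 2⁻¹ ^ (BB k + hh (stg k))

noncomputable def kk (A : Set ℕ) (τ : ℕ) (a : ℕ → ℕ) : ℕ :=
  pos (2 * τ + 1) (own A (2 * τ + 1) a) false

theorem kill_light (ok : d.Ok c N) {V : Ultrafilter ℕ} (hV : (V : Filter ℕ) ≤ atTop) {A : Set ℕ}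
    {cc : ℕ → ℕ} (hcc : ∀ j, cc j ≤ 2 * Gam j)
    (h : ∀ a ∈ d.X, ∀ Ξ ⊆ d.Ξ a, Tendsto (fun τ => (c.μ a).real (Ξ ∩ Light c a (kk A τ a))) V (𝓝 0) →
      (c.μ a).real Ξ = 0) : Kill c N d A cc := by
  obtain ⟨q, hq⟩ := pigeon (C := ℕ) ok.nn (p := fun a q => ∀ᶠ τ in V, ∀ n : Fin (2 ^ N),
      (c.μ a).real (d.Ξ a ∩ cs N n) ≤
        q * (c.μ a).real (d.Ξ a ∩ cs N n ∩ Light c a (kk A τ a))) (by
    intro a ha
    have : ∀ n : Fin (2 ^ N), ∃ ρ : ℝ, 0 ≤ ρ ∧ (0 < (c.μ a).real (d.Ξ a ∩ cs N n) → 0 < ρ) ∧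
        ∀ᶠ τ in V, ρ ≤ (c.μ a).real (d.Ξ a ∩ cs N n ∩ Light c a (kk A τ a)) := by
      intro n
      by_cases e : 0 < (c.μ a).real (d.Ξ a ∩ cs N n)
      · by_contra hc
        push Not at hc
        refine e.ne' (h a ha _ Set.inter_subset_left (tendsto_order.mpr
          ⟨fun x hx => Eventually.of_forall fun _ => hx.trans_le measureReal_nonneg,
            fun x hx => ?_⟩))
        exact hc x hx.le fun _ => hx
      · exact ⟨0, le_rfl, fun e' => absurd e' e, Eventually.of_forall fun _ => measureReal_nonneg⟩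
    choose ρ r1 r2 r3 using this
    obtain ⟨q, hq⟩ := ratio_fin _ ρ r1 r2
    exact ⟨q, (eventually_all.mpr r3).mono fun τ e n =>
      (hq n).trans (mul_le_mul_of_nonneg_left (e n) (by positivity))⟩)
  refine ⟨d.L * q, fun T0 => ?_⟩
  obtain ⟨τ, ⟨Y, y1, -⟩, t1⟩ := ((many hV hq (Good := fun τ => {a | ∀ n : Fin (2 ^ N),
      (c.μ a).real (d.Ξ a ∩ cs N n) ≤ q * (c.μ a).real (d.Ξ a ∩ cs N n ∩ Light c a (kk A τ a))})
    fun _ ha => ha.2).and (hV (eventually_ge_atTop T0))).exists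
  have t1 : T0 ≤ τ := t1
  have L0 : 0 ≤ d.L * q := mul_nonneg ok.L0 (by positivity)
  have y2 := y1 ⟨0, by positivity⟩
  refine ⟨τ, t1, ⟨Unit, fun _ => ⟨Y ⟨0, by positivity⟩, fun a => d.Ξ a ∩ Light c a (kk A τ a),
    d.ω, d.L * q⟩, fun r => ⟨y2.1, fun a ha => ok.sub (y2.2 ha).1.1, L0, ok.ω0, fun a ha n => ?_⟩,
    fun r => ⟨fun a ha => (y2.2 ha).1.1, fun a => Set.inter_subset_left⟩, fun n => by simp,
    fun r r' e => absurd rfl e⟩, by simp, 2 * τ + 1, by omega, fun a' ha' => ?_⟩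
  · dsimp only
    rcases Nat.lt_or_ge n (2 ^ N) with hn | hn
    · rw [mul_assoc, Set.inter_right_comm]
      exact (ok.le a (y2.2 ha).1.1 n).trans (mul_le_mul_of_nonneg_left ((y2.2 ha).2 ⟨n, hn⟩) ok.L0)
    · rw [ok.zero hn]
      exact mul_nonneg L0 measureReal_nonneg
  · have p1 : stg (kk A τ a') = _ := stg_pos false (own_sub ha')
    have p2 : tst (kk A τ a') = _ := tst_pos false (own_sub ha')
    refine ⟨kk A τ a', p1, p2, fun s hs n => ?_⟩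
    have := hcc (2 * τ + 1)
    simp only [univ_unique, sum_singleton]
    refine mul_le_mul_of_nonneg_left ?_ L0
    by_cases e : Sat (tst (kk A τ a')) (s default)
    · have e1 : kk A τ (s default) = kk A τ a' := by
        rw [p2, sat_own] at e
        rw [kk, own_eq e, kk]
      rw [e1]
      rcases Set.eq_empty_or_nonempty (d.Ξ (s default) ∩ Light c (s default) (kk A τ a') ∩
        cs (mid (kk A τ a')) n) with e2 | ⟨ξ, ⟨-, e2⟩, e3⟩
      · rw [e2, measureReal_empty]; positivity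
      · have e3 : cell (mid (kk A τ a')) ξ = n := e3
        simp only [Light, Set.mem_ofPred_eq] at e2
        rw [e3] at e2
        refine (measureReal_mono Set.inter_subset_right).trans (e2.trans (hp_anti ?_))
        rw [p1]; unfold hh; omega
    · refine c.hi' e ?_ _ _
      rw [p1]; unfold bet hh; omega

theorem kill_heavy (ok : d.Ok c N) {V : Ultrafilter ℕ} (hV : (V : Filter ℕ) ≤ atTop)
    {A A' : Set ℕ} {cc : ℕ → ℕ} (h1 : ∀ᶠ τ in V, 2 * τ ∈ A' ∧ cc (2 * τ + 1) ≤ 2 * Gam (2 * τ))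
    (h : ∀ a ∈ d.X, Tendsto (fun τ => (c.μ a).real (d.Ξ a ∩ Light c a (kk A' τ a))) V (𝓝 0)) :
    Kill c N d A cc := by
  classical
  have L0 := ok.L0
  obtain ⟨δ, δ0, hδ⟩ : ∃ δ : ℝ, 0 < δ ∧ ∀ n, 0 < d.ω n → 4 * d.L * δ ≤ d.ω n := by
    obtain ⟨q, hq⟩ := ratio_fin (ι := Fin (2 ^ N)) (fun n => if 0 < d.ω n then 4 * d.L else 0)
      (fun n => d.ω n) (fun n => ok.ω0 n) fun n e => by
        by_contra hc
        rw [if_neg hc] at e
        exact lt_irrefl _ e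
    refine ⟨(q + 1 : ℝ)⁻¹, by positivity, fun n hn => ?_⟩
    have := hq ⟨n, by by_contra hc; exact hn.ne' (ok.zero (not_lt.mp hc))⟩
    simp only [if_pos hn] at this
    rw [← div_eq_mul_inv, div_le_iff₀ (by positivity)]
    linarith
  refine ⟨2 * d.L, fun T0 => ?_⟩
  obtain ⟨T1, u1, u2⟩ := exists_small 1 δ0 T0
  obtain ⟨τ, ⟨Y, y1, y2⟩, ⟨t2, t3⟩, t1⟩ := ((many hV ok.nn
    (Good := fun τ => {a | (c.μ a).real (d.Ξ a ∩ Light c a (kk A' τ a)) ≤ δ})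
    fun a ha => (h a ha).eventually (ge_mem_nhds δ0)).and
      (h1.and (hV (eventually_ge_atTop T1)))).exists
  have t1 : T1 ≤ τ := t1
  have l0 := hp_pos (hh (2 * τ))
  choose b hb using fun r => nonempty_of_not_null (y1 r).1
  have hT : ∀ r, ∀ a ∈ Y r, a ∈ Tags := fun r a ha => ok.sub ((y1 r).2 ha).1
  set k : Fin (2 ^ hh (2 * τ)) → ℕ := fun r => kk A' τ (b r) with hk
  have k1 : ∀ r, stg (k r) = 2 * τ + 1 := fun r => stg_pos false (own_sub (hT r _ (hb r)))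
  have k2 : ∀ r, tst (k r) = own A' (2 * τ + 1) (b r) :=
    fun r => tst_pos false (own_sub (hT r _ (hb r)))
  have k3 : ∀ r, ∀ a ∈ Y r, kk A' τ a = k r := by
    intro r a ha
    have := y2 r r a ha _ (hb r)
    simp only [hk, kk]
    rw [own_eq fun κ e _ => ?_]
    rcases Nat.lt_succ_iff_lt_or_eq.mp e with e | e
    exacts [this.1 κ e, e ▸ this.2.1 rfl]
  choose H hH using fun r => pigeon (C := Finset ℕ) (y1 r).1 (p := fun a H => ∀ n, n ∈ H ↔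
      2⁻¹ ^ (BB (k r) + hh (stg (k r))) < (c.μ a).real (cs (mid (k r)) n)) fun a _ =>
    ⟨(range (2 ^ mid (k r))).filter fun n =>
      2⁻¹ ^ (BB (k r) + hh (stg (k r))) < (c.μ a).real (cs (mid (k r)) n), fun n => by
      rw [mem_filter, mem_range]
      refine and_iff_right_of_imp fun e => ?_
      by_contra hc
      rw [cs_eq_empty (not_lt.mp hc), measureReal_empty] at e
      exact e.not_gt (hp_pos _)⟩
  have hc : ∀ r, ((H r).card : ℝ) * 2⁻¹ ^ (BB (k r) + hh (2 * τ + 1)) ≤ 1 := by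
    intro r
    obtain ⟨a, -, ha⟩ := nonempty_of_not_null (hH r)
    have e1 := sum_measureReal_le_measureReal_univ (μ := c.μ a) (s := H r)
      (t := cs (mid (k r))) (fun n _ => measurableSet_cs _ _) fun n _ n' _ e =>
        Set.disjoint_left.mpr fun ξ e1 e2 => e (Eq.trans (Eq.symm e1) e2)
    have e2 := card_nsmul_le_sum (H r) _ _ fun n hn => ((ha n).mp hn).le
    rw [nsmul_eq_mul, k1] at e2
    linarith [c.tot a]
  have hn : ∀ r r', r' ≠ r → ∀ a ∈ Y r, (c.μ a).real {ξ | cell (mid (k r')) ξ ∈ H r'} ≤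
      2⁻¹ ^ hh (2 * τ) * δ := by
    intro r r' e a ha
    have e1 : ¬ Sat (tst (k r')) a := fun e1 => by
      rw [k2, sat_own] at e1
      exact ((y2 _ _ _ (hb r') _ ha).2.2 e).1 (e1 _ (by omega) t2).symm
    have e2 : {ξ | cell (mid (k r')) ξ ∈ H r'} = ⋃ n ∈ H r', cs (mid (k r')) n := by
      ext ξ; simp [cs]
    rw [e2]
    refine (measureReal_biUnion_finset_le _ _).trans
      ((sum_le_card_nsmul _ _ _ fun n _ => c.hi a (k r') n e1).trans ?_)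
    have e3 := hh_mono (show 2 * τ ≤ 2 * τ + 1 by omega)
    rw [nsmul_eq_mul, k1]
    calc _ ≤ ((H r').card : ℝ) * 2⁻¹ ^ (BB (k r') + hh (2 * τ + 1) + (hh (2 * τ) + T1)) :=
          mul_le_mul_of_nonneg_left (hp_anti (by unfold bet; omega)) (by positivity)
      _ ≤ 1 * 2⁻¹ ^ (hh (2 * τ) + T1) := by
          rw [pow_add, ← mul_assoc]
          exact mul_le_mul_of_nonneg_right (hc r') (hp_pos _).le
      _ ≤ _ := by
          rw [one_mul, pow_add]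
          exact mul_le_mul_of_nonneg_left (by linarith) l0.le
  refine ⟨τ, by omega, ⟨Fin (2 ^ hh (2 * τ)), fun r => ⟨_, fun a => d.Ξ a ∩
      {ξ | cell (mid (k r)) ξ ∈ H r ∧ ∀ r' ≠ r, cell (mid (k r')) ξ ∉ H r'},
      fun n => 2⁻¹ ^ hh (2 * τ) * d.ω n, 2⁻¹ ^ hh (2 * τ) * (2 * d.L)⟩,
    fun r => ⟨hH r, fun a ha => hT r a ha.1, by positivity, fun n => mul_nonneg l0.le (ok.ω0 n),
      fun a ha n => ?_⟩,
    fun r => ⟨fun a ha => ((y1 _).2 ha.1).1, fun a => Set.inter_subset_left⟩,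
    fun n => sum_fin_div _ _, fun r r' e a ha a' ha' =>
      ⟨(y2 _ _ a ha.1 a' ha'.1).1, ((y2 _ _ a ha.1 a' ha'.1).2.2 e).2⟩⟩,
    (sum_fin_div _ _).le, 2 * τ + 1, by omega, fun a' ha' => ?_⟩
  · dsimp only
    rw [mul_assoc]
    refine mul_le_mul_of_nonneg_left ?_ l0.le
    rcases (ok.ω0 n).eq_or_lt with e | e
    · rw [← e]; exact mul_nonneg (by positivity) measureReal_nonneg
    set Ξ' := d.Ξ a ∩ {ξ | cell (mid (k r)) ξ ∈ H r ∧ ∀ r' ≠ r, cell (mid (k r')) ξ ∉ H r'} ∩ cs N n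
    have e1 : d.Ξ a ∩ cs N n ⊆ Ξ' ∪ (d.Ξ a ∩ Light c a (kk A' τ a)) ∪
        ⋃ r' ∈ univ.erase r, {ξ | cell (mid (k r')) ξ ∈ H r'} := by
      intro ξ hξ
      by_cases f1 : cell (mid (k r)) ξ ∈ H r
      · by_cases f2 : ∀ r' ≠ r, cell (mid (k r')) ξ ∉ H r'
        · exact Or.inl (Or.inl ⟨⟨hξ.1, f1, f2⟩, hξ.2⟩)
        · push Not at f2
          obtain ⟨r', f2, f3⟩ := f2
          exact Or.inr (Set.mem_biUnion (mem_coe.mpr (mem_erase.mpr ⟨f2, mem_univ _⟩)) f3)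
      · refine Or.inl (Or.inr ⟨hξ.1, ?_⟩)
        rw [k3 r a ha.1]
        exact not_lt.mp fun f2 => f1 ((ha.2 _).mpr f2)
    have e2 : (c.μ a).real (⋃ r' ∈ univ.erase r, {ξ | cell (mid (k r')) ξ ∈ H r'}) ≤ δ := by
      refine (measureReal_biUnion_finset_le _ _).trans ((sum_le_sum fun r' e' =>
        hn r r' (mem_erase.mp e').1 a ha.1).trans ?_)
      refine (sum_le_sum_of_subset_of_nonneg (erase_subset _ _) fun _ _ _ => by positivity).trans ?_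
      exact (sum_fin_div _ _).le
    have e3 : (c.μ a).real (d.Ξ a ∩ Light c a (kk A' τ a)) ≤ δ := ((y1 r).2 ha.1).2
    have e4 := (measureReal_mono (μ := c.μ a) e1).trans ((measureReal_union_le _ _).trans
      (add_le_add (measureReal_union_le _ _) e2))
    have e5 := ok.le a ((y1 r).2 ha.1).1 n
    have e6 := hδ n e
    have e7 := mul_le_mul_of_nonneg_left (e4.trans (add_le_add (add_le_add le_rfl e3) le_rfl)) L0
    linarith
  · have p1 := stg_pos true (own_sub (A := A) (j := 2 * τ + 1) ha')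
    have p2 := tst_pos true (own_sub (A := A) (j := 2 * τ + 1) ha')
    have p3 : ∀ r, mid (k r) ≤ mid (pos (2 * τ + 1) (own A (2 * τ + 1) a') true) :=
      fun r => mid_mono (pos_le _ (own_sub (hT r _ (hb r))))
    set k' := pos (2 * τ + 1) (own A (2 * τ + 1) a') true
    refine ⟨k', p1, p2, fun s hs n => ?_⟩
    have q0 := hp_pos (T0 + (BB k' + cc (2 * τ + 1)))
    refine (sum_le_of_unique (p := fun r => (d.Ξ (s r) ∩
      {ξ | cell (mid (k r)) ξ ∈ H r ∧ ∀ r' ≠ r, cell (mid (k r')) ξ ∉ H r'} ∩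
        cs (mid k') n).Nonempty) (u := 0)
      (v := 2 * d.L * 2⁻¹ ^ (T0 + (BB k' + cc (2 * τ + 1)))) (by positivity)
      (fun r r' e e' => ?_) (fun r _ => ?_) fun r e => ?_).trans (by simp)
    · by_contra hc
      obtain ⟨ξ, f1, f2⟩ := e
      obtain ⟨ξ', f3, f4⟩ := e'
      exact f3.2.2 r hc (cell_eq_of_le (p3 r) (Eq.trans f2 (Eq.symm f4)) ▸ f1.2.1)
    · dsimp only
      rw [zero_add, mul_comm _ (2 * d.L), mul_assoc]
      refine mul_le_mul_of_nonneg_left ?_ (by positivity)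
      refine (mul_le_mul_of_nonneg_left ((measureReal_mono Set.inter_subset_right).trans
        (c.lo _ k' n)) l0.le).trans ?_
      rw [← pow_add]
      exact hp_anti (by unfold hh; omega)
    · dsimp only
      rw [Set.not_nonempty_iff_eq_empty.mp e, measureReal_empty, mul_zero]

end Pool.Agent.Lib.MP_409048_lc
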