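import Mathlib
import Pool.Agent.Lib.MP_409048_lc.Layout

set_option autoImplicit false

namespace Pool.Agent.Lib.MP_409048_lc

open Finset

abbrev Fam : Type := ℕ × List Bool

/-- An enumeration of the families with infinite repetition. -/
noncomputable def fam (τ : ℕ) : Fam := (exists_surjective_nat Fam).choose (Nat.unpair τ).1

lemma fam_freq (e : Fam) (n : ℕ) : ∃ τ, n ≤ τ ∧ fam τ = e := by
  obtain ⟨i, hi⟩ := (exists_surjective_nat Fam).choose_spec e
  exact ⟨Nat.pair i n, Nat.right_le_pair _ _, by rw [fam, Nat.unpair_pair, hi]⟩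

def Co (D : Set Fam) : Set ℕ := {κ | κ % 2 = 1 ∨ fam (κ / 2) ∈ D}

lemma Co_mono {D D' : Set Fam} (h : D ⊆ D') : Co D ⊆ Co D' := fun _ h1 => h1.imp_right fun e => h e

def pf (y : ℕ → Bool) (k : ℕ) : List Bool := (List.range k).map y

@[simp] lemma length_pf (y : ℕ → Bool) (k : ℕ) : (pf y k).length = k := by simp [pf]

lemma pf_prefix (y : ℕ → Bool) {k k' : ℕ} (h : k ≤ k') : pf y k <+: pf y k' :=
  List.IsPrefix.map y (by
    have := List.take_prefix k (List.range k')
    rwa [List.take_range, min_eq_left h] at this)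

def Del (d : Fam) : Set Fam := {e | d.1 < e.1 ∨ (e.1 = d.1 ∧ e.2 <+: d.2)}

def Alw (d : Fam) : Set Fam := {e | d.1 < e.1 ∨ (e.1 = d.1 ∧ (e.2 <+: d.2 ∨ d.2 <+: e.2))}

def Up (i : ℕ) : Set Fam := {e | i < e.1}

def DelY (i : ℕ) (y : ℕ → Bool) : Set Fam := {e | i < e.1 ∨ (e.1 = i ∧ e.2 = pf y e.2.length)}

abbrev GG : Type := Fam × List (ℕ × Wd × Wd)

def eG (G : GG) (m : ℕ) : ℕ × Wd × Wd := G.2.getD m (0, ∅, ∅)

def tG (G : GG) (m : ℕ) : ℕ := (eG G m).1 / 2

def Sib (e : ℕ × Wd × Wd) : Prop :=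
  ∀ a a', Sat e.2.1 a → Sat e.2.2 a' → a e.1 ≠ a' e.1 ∧ ∀ κ < e.1, κ % 2 = 1 → a κ = a' κ

def Valid (G : GG) : Prop :=
  (∀ m < G.1.2.length, Sib (eG G m)) ∧ ∀ m m', m < m' → m' < G.1.2.length → tG G m < tG G m'

def PG (G : GG) : Set Wd := {w | ∃ m < G.1.2.length, w = (eG G m).2.1 ∨ w = (eG G m).2.2}

noncomputable def SG (G : GG) : Scheme len (ℕ → ℕ) := Sch (Co (Del G.1)) (Co (Alw G.1)) (PG G)

def Single (i : ℕ) (g : ℕ → ℝ) : Prop :=
  ∃ M : ℕ, ∃ a ∈ Tags, Dom len (pat (Co (Up i)) ∅ ∅ a) g (M + 1)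

lemma pat_anti {A A' : Set ℕ} (h : A ⊆ A') (a : ℕ → ℕ) (b : ℕ) :
    pat A' ∅ ∅ a b ≤ pat A ∅ ∅ a b := by
  have : low A ∅ (tst (b / 2)) a → low A' ∅ (tst (b / 2)) a :=
    fun e => e.imp_left fun e => ⟨fun p hp => h (e.1 p hp), e.2⟩
  unfold pat
  split_ifs <;> first | omega | (exfalso; tauto)

lemma pat_le {A A' E : Set ℕ} {P : Set Wd} (hE : A ⊆ E) {a a' : ℕ → ℕ} {b : ℕ}
    (h : low A' P (tst (b / 2)) a → low A ∅ (tst (b / 2)) a') :
    pat A ∅ ∅ a' b + XX A (stg (b / 2)) ≤ pat A' E P a b := by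
  have := XX_mono hE (stg (b / 2))
  unfold pat
  rw [XX_empty]
  split_ifs <;> first | omega | (exfalso; tauto)

section
variable {A : Set ℕ} {W : ℕ → (ℕ → ℕ) → ℝ} (h0 : ∀ j a, 0 ≤ W j a)
  (h2 : ∀ j a a', (∀ κ < j, κ ∈ A → a κ = a' κ) → W j a = W j a')
  (h3 : ∀ j a, j ∉ A → W j a = W (j + 1) a)
  (h4 : ∀ j a, j ∈ A → W j a = ∑ v ∈ range (2 ^ gam j), W (j + 1) (Function.update a j v))
include h0 h3 h4

lemma W_anti {a : ℕ → ℕ} (ha : a ∈ Tags) : Antitone fun j => W j a := by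
  apply antitone_nat_of_succ_le
  intro j
  by_cases h : j ∈ A
  · rw [h4 j a h]
    have := single_le_sum (f := fun v => W (j + 1) (Function.update a j v)) (fun _ _ => h0 _ _)
      (mem_range.mpr (ha j))
    simpa using this
  · exact (h3 j a h).ge

include h2

lemma greedy (j0 : ℕ) {a0 : ℕ → ℕ} (ha0 : a0 ∈ Tags) :
    ∃ a ∈ Tags, (∀ κ < j0, a κ = a0 κ) ∧ ∀ j, W j0 a0 * 2⁻¹ ^ XX A j ≤ W j a := by
  classical
  have step : ∀ j (a : ℕ → ℕ), ∃ a', a ∈ Tags → a' ∈ Tags ∧ (∀ κ ≠ j, a' κ = a κ) ∧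
      W j a * 2⁻¹ ^ (if j ∈ A then gam j else 0) ≤ W (j + 1) a' := by
    intro j a
    by_cases h : j ∈ A
    · obtain ⟨v, hv, hv'⟩ := exists_max_image (range (2 ^ gam j))
        (fun v => W (j + 1) (Function.update a j v)) ⟨0, mem_range.mpr (by positivity)⟩
      refine ⟨Function.update a j v, fun ha => ⟨fun κ => ?_, fun κ e => Function.update_of_ne e _ _,
        ?_⟩⟩
      · by_cases e : κ = j
        · rw [e, Function.update_self]; exact mem_range.mp hv
        · rw [Function.update_of_ne e]; exact ha κ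
      · have := sum_le_card_nsmul _ _ _ hv'
        rw [← h4 j a h, card_range, nsmul_eq_mul] at this
        rw [if_pos h]
        calc _ ≤ ((2 ^ gam j : ℕ) : ℝ) * W (j + 1) (Function.update a j v) * 2⁻¹ ^ gam j := by
              gcongr
          _ = _ := by
            push_cast
            rw [mul_right_comm, mul_comm ((2 : ℝ) ^ _), hp_mul, one_mul]
    · exact ⟨a, fun ha => ⟨ha, fun _ _ => rfl, by rw [if_neg h, ← h3 j a h]; simp⟩⟩
  choose F hF using step
  obtain ⟨s, s0, s1⟩ : ∃ s : ℕ → ℕ → ℕ, s 0 = a0 ∧ ∀ n, s (n + 1) = F (j0 + n) (s n) :=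
    ⟨fun n => Nat.rec a0 (fun n x => F (j0 + n) x) n, rfl, fun _ => rfl⟩
  have i1 : ∀ n, s n ∈ Tags := by
    intro n
    induction n with
    | zero => rwa [s0]
    | succ n ih => rw [s1]; exact (hF _ _ ih).1
  have i2 : ∀ n n' κ, n ≤ n' → κ < j0 + n → s n' κ = s n κ := by
    intro n n' κ h hκ
    induction n', h using Nat.le_induction with
    | base => rfl
    | succ n' h ih => rw [s1, (hF _ _ (i1 n')).2.1 κ (by omega), ih]
  have i3 : ∀ n κ, κ < j0 + n → s (κ + 1) κ = s n κ := fun n κ h =>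
    (le_total n (κ + 1)).elim (fun e => i2 _ _ κ e h) fun e => (i2 _ _ κ e (by omega)).symm
  have i4 : ∀ n, W j0 a0 * 2⁻¹ ^ XX A (j0 + n) ≤ W (j0 + n) (s n) := by
    intro n
    induction n with
    | zero =>
      rw [s0]
      exact mul_le_of_le_one_right (h0 _ _) (pow_le_one₀ (by norm_num) (by norm_num))
    | succ n ih =>
      rw [s1, ← add_assoc, XX_succ, pow_add, ← mul_assoc]
      refine le_trans ?_ (hF _ _ (i1 n)).2.2
      gcongr
  have ha : (fun κ => s (κ + 1) κ) ∈ Tags := fun κ => i1 _ κ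
  refine ⟨_, ha, fun κ h => by rw [i3 0 κ h, s0], fun j => ?_⟩
  rcases le_total j0 j with h | h
  · obtain ⟨n, rfl⟩ := Nat.exists_eq_add_of_le h
    rw [h2 _ _ (s n) fun κ e _ => i3 n κ e]
    exact i4 n
  · refine le_trans ?_ (W_anti h0 h3 h4 ha h)
    beta_reduce
    rw [h2 j0 (fun κ => s (κ + 1) κ) a0 fun κ e _ => by rw [i3 0 κ e, s0]]
    exact mul_le_of_le_one_right (h0 _ _) (pow_le_one₀ (by norm_num) (by norm_num))

end

lemma le_of_weight {c w M t g : ℝ} (hc : 0 < c) (hM : c⁻¹ ≤ M) (ht : 0 ≤ t)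
    (h1 : c * t ≤ w) (h2 : w ≤ g) : t ≤ M * g := by
  calc t = c⁻¹ * (c * t) := by field_simp
    _ ≤ M * g := by
      have := inv_pos.mpr hc
      exact mul_le_mul hM (h1.trans h2) (by positivity) (by linarith)

theorem dichotomy {T : List Bool → (ℕ → ℕ) → Prop}
    (hT : ∀ s t t', (∀ m < s.length, t m = t' m) → T s t → T s t') {y : ℕ → Bool}
    (hy : ∀ t, ∃ k, ¬ T (pf y k) t) {g : ℕ → ℝ} {i : ℕ}
    (h : Pos (Sch (Co (DelY i y)) ∅ ∅).tree g) :
    Single i g ∨ ∃ G, Valid G ∧ ¬ T G.1.2 (tG G) ∧ Pos (SG G).tree g := by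
  classical
  set A := Co (DelY i y) with hA
  obtain ⟨W, h0, h1, h2, h3, h4, h5⟩ := weights_of_pos h
  have t0 : (fun _ => 0) ∈ Tags := fun κ => by positivity
  obtain ⟨a, ha, -, ha2⟩ := greedy h0 h2 h3 h4 0 t0
  have c0 := h1 fun _ => 0
  by_cases hs : ∀ n, ∃ κ, n ≤ κ ∧ κ ∈ A ∧ ∃ v < 2 ^ gam κ, v ≠ a κ ∧
      0 < W (κ + 1) (Function.update a κ v)
  · right
    choose F hF1 hF2 v hv1 hv2 hv3 using hs
    obtain ⟨n, n1⟩ : ∃ n : ℕ → ℕ, ∀ m, n (m + 1) = F (n m) + 2 :=
      ⟨fun m => Nat.rec 0 (fun _ x => F x + 2) m, fun _ => rfl⟩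
    set κ : ℕ → ℕ := fun m => F (n m) with hκ
    have hsm : StrictMono fun m => κ m / 2 := strictMono_nat_of_lt_succ fun m => by
      have := hF1 (n (m + 1))
      have := n1 m
      simp only [hκ]
      omega
    obtain ⟨k, hk⟩ := hy fun m => κ m / 2
    set b : ℕ → ℕ → ℕ := fun m => Function.update a (κ m) (v (n m)) with hb
    have hbT : ∀ m, b m ∈ Tags := by
      intro m κ'
      by_cases e : κ' = κ m
      · simp only [hb]; rw [e, Function.update_self]; exact hv1 _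
      · simp only [hb]; rw [Function.update_of_ne e]; exact ha _
    choose a' ha'1 ha'2 ha'3 using fun m => greedy h0 h2 h3 h4 (κ m + 1) (hbT m)
    set e : ℕ → ℕ × Wd × Wd := fun m => (κ m, own A (κ m + 1) a, own A (κ m + 1) (b m)) with he
    set G : GG := ((i, pf y k), (List.range k).map e) with hG
    have hl : G.1.2.length = k := length_pf y k
    have heG : ∀ m < k, eG G m = e m := by
      intro m hm
      simp [eG, hG, hm]
    have htG : ∀ m < k, tG G m = κ m / 2 := fun m hm => by rw [tG, heG m hm]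
    have s1 : Co (Del G.1) ⊆ A := Co_mono fun u hu => hu.imp_right fun hu => ⟨hu.1, by
      have e1 := hu.2.length_le
      have e2 := pf_prefix y (show u.2.length ≤ k from hl ▸ e1)
      exact (List.prefix_of_prefix_length_le hu.2 e2 (by simp)).eq_of_length (by simp)⟩
    have s2 : A ⊆ Co (Alw G.1) := Co_mono fun u hu => hu.imp_right fun hu => ⟨hu.1, by
      rw [hu.2]
      exact (le_total u.2.length k).imp (pf_prefix y) (pf_prefix y)⟩
    refine ⟨G, ⟨fun m hm => ?_, fun m m' e1 e2 => ?_⟩, fun hc => hk (hT _ _ _ ?_ hc), ?_⟩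
    · rw [heG m (hl ▸ hm)]
      intro x x' e1 e2
      have e1 := sat_own.mp e1
      have e2 := sat_own.mp e2
      refine ⟨?_, fun κ' e3 e4 => ?_⟩
      · have e3 := e1 (κ m) (by omega) (hF2 _)
        have e4 := e2 (κ m) (by omega) (hF2 _)
        simp only [hb, Function.update_self] at e4
        change x (κ m) ≠ x' (κ m)
        rw [e3, e4]
        exact (hv2 _).symm
      · have e3 : κ' < κ m := e3
        rw [e1 κ' (by omega) (Or.inl e4), e2 κ' (by omega) (Or.inl e4)]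
        simp only [hb]
        rw [Function.update_of_ne e3.ne]
    · rw [htG m (by omega), htG m' (by omega)]
      exact hsm e1
    · exact fun m hm => htG m (hl ▸ hm)
    · set c : ℕ → ℝ := fun m => W (κ m + 1) (b m) with hc
      have cp : ∀ m, 0 < c m := fun m => hv3 _
      have sp : 0 ≤ ∑ m ∈ range k, (c m)⁻¹ := sum_nonneg fun m _ => (inv_pos.mpr (cp m)).le
      have ip := inv_pos.mpr c0
      refine pos_of_dom ha (M := (W 0 fun _ => 0)⁻¹ + ∑ m ∈ range k, (c m)⁻¹) (by linarith) ?_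
      intro j m
      have key : ∀ (x : ℕ → ℕ) (d : ℝ), 0 < d → d⁻¹ ≤ (W 0 fun _ => 0)⁻¹ + ∑ m ∈ range k, (c m)⁻¹ →
          (∀ j, d * 2⁻¹ ^ XX A j ≤ W j x) →
          (low (Co (Del G.1)) (PG G) (tst (j / 2)) a → low A ∅ (tst (j / 2)) x) →
          (2⁻¹ : ℝ) ^ (pat (Co (Del G.1)) (Co (Alw G.1)) (PG G) a j + (m - Lv len j)) ≤
            ((W 0 fun _ => 0)⁻¹ + ∑ m ∈ range k, (c m)⁻¹) * g m := by
        intro x d e1 e2 e3 e4
        refine le_of_weight e1 e2 (hp_pos _).le ?_ (h5 x j m)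
        have e5 := pat_le s2 e4
        calc _ ≤ d * 2⁻¹ ^ (XX A (stg (j / 2)) + (pat A ∅ ∅ x j + (m - Lv len j))) :=
              mul_le_mul_of_nonneg_left (hp_anti (by omega)) e1.le
          _ ≤ _ := by
            rw [pow_add, ← mul_assoc]
            exact mul_le_mul_of_nonneg_right (e3 _) (hp_pos _).le
      by_cases hw : ∃ m < k, tst (j / 2) = own A (κ m + 1) (b m)
      · obtain ⟨m', hm', hw⟩ := hw
        refine key (a' m') (c m') (cp m') ?_ (ha'3 m') fun _ => ?_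
        · have := single_le_sum (f := fun m => (c m)⁻¹) (fun m _ => (inv_pos.mpr (cp m)).le)
            (mem_range.mpr hm')
          linarith
        · rw [hw, ← own_eq fun κ' e1 _ => ha'2 m' κ' e1]
          exact low_own
      · refine key a _ c0 (by linarith) ha2 fun hlow => ?_
        rcases hlow with hlow | ⟨m', hm', hlow⟩
        · exact Or.inl ⟨fun p hp => s1 (hlow.1 p hp), hlow.2⟩
        · rw [heG m' (hl ▸ hm')] at hlow
          rcases hlow with hlow | hlow
          · rw [hlow]; exact low_own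
          · exact absurd ⟨m', hl ▸ hm', hlow⟩ hw
  · left
    push Not at hs
    obtain ⟨n, hn⟩ := hs
    have e1 : ∀ j, n ≤ j → W j a = W n a := by
      intro j hj
      induction j, hj using Nat.le_induction with
      | base => rfl
      | succ j hj ih =>
        rw [← ih]
        by_cases h : j ∈ A
        · rw [h4 j a h, sum_eq_single (a j), Function.update_eq_self]
          · exact fun v hv hne => le_antisymm (hn j hj h v (mem_range.mp hv) hne) (h0 _ _)
          · exact fun e => absurd (mem_range.mpr (ha j)) e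
        · exact (h3 j a h).symm
    have e2 : ∀ j, W n a ≤ W j a := fun j =>
      (le_total n j).elim (fun e => (e1 j e).ge) fun e => W_anti h0 h3 h4 ha e
    have e3 : 0 < W n a := lt_of_lt_of_le (mul_pos c0 (hp_pos _)) (ha2 n)
    obtain ⟨M, hM⟩ := exists_nat_ge (W n a)⁻¹
    refine ⟨M, a, ha, Dom.mono (ψ := pat A ∅ ∅ a) (fun j m => ?_)
      (pat_anti (Co_mono fun u hu => Or.inl hu) a)⟩
    exact le_of_weight e3 (by linarith) (hp_pos _).le
      (mul_le_mul_of_nonneg_right (e2 _) (hp_pos _).le) (h5 a j m)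

theorem Single.pos {i : ℕ} {g : ℕ → ℝ} (h : Single i g) (y : ℕ → Bool) :
    Pos (Sch (Co (DelY (i + 1) y)) ∅ ∅).tree g := by
  obtain ⟨M, a, ha, h⟩ := h
  refine pos_of_dom ha (by positivity) (h.mono (pat_anti (Co_mono fun u hu => ?_) a))
  rcases hu with hu | hu
  · exact (Nat.lt_succ_self i).trans hu
  · exact (Nat.lt_succ_self i).trans_eq hu.1.symm

end Pool.Agent.Lib.MP_409048_lc
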