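import Mathlib
import Pool.Agent.Lib.MP_409048_lc.Haus
import Pool.Agent.Lib.MP_409048_lc.Positive
import Pool.Agent.Lib.MP_409048_lc.Kill

set_option autoImplicit false

namespace Pool.Agent.Lib.MP_409048_lc

open Finset Filter MeasureTheory Topology

lemma exists_gauge_pat (a : ℕ → ℕ) : ∃ f : Gauge, Dom len (pat Set.univ ∅ ∅ a) (gs f) 1 ∧
    ∀ b, gs f (Lv len b) ≤ 2⁻¹ ^ pat Set.univ ∅ ∅ a b := by
  set ψ := pat Set.univ ∅ ∅ a with hψ
  have p0 : ∀ b, ψ (b + 1) = ψ b + hbf Set.univ ∅ ∅ b a := fun b =>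
    pat_succ _ _ _ a a b fun _ => rfl
  have p1 : Monotone ψ := monotone_nat_of_le_succ fun b => by rw [p0]; omega
  have p2 : ∀ b b', ψ b' ≤ ψ b + (Lv len b' - Lv len b) := by
    intro b b'
    rcases le_total b' b with h | h
    · exact (p1 h).trans (Nat.le_add_right _ _)
    · induction b', h using Nat.le_induction with
      | base => omega
      | succ b' h ih =>
        have e1 : hbf Set.univ ∅ ∅ b' a + _ ≤ len b' := (Sch Set.univ ∅ ∅).hlen b' a
        have e2 := (Lv_strictMono len_pos).monotone h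
        rw [p0, Lv_succ]
        omega
  set e : ℕ → ℕ := fun m => sInf (Set.range fun b => ψ b + (m - Lv len b)) with he
  have e1 : ∀ m b, e m ≤ ψ b + (m - Lv len b) := fun m b => Nat.sInf_le ⟨b, rfl⟩
  have e2 : ∀ m, ∃ b, ψ b + (m - Lv len b) = e m := fun m =>
    Nat.sInf_mem (Set.range_nonempty fun b => ψ b + (m - Lv len b))
  have e3 : Monotone e := fun m m' h => by
    obtain ⟨b, hb⟩ := e2 m'
    have := e1 m b
    omega
  have e4 : ∀ b, ψ b ≤ e (Lv len b) := fun b => by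
    obtain ⟨b', hb⟩ := e2 (Lv len b)
    exact hb ▸ p2 b' b
  have e5 : Tendsto e atTop atTop := tendsto_atTop_atTop_of_monotone e3 fun k =>
    ⟨Lv len (2 * k), le_trans (by
      have := le_BB k
      simp only [hψ, pat]
      rw [show 2 * k / 2 = k by omega]
      omega) (e4 _)⟩
  obtain ⟨f, hf⟩ := exists_gauge (g := fun m => 2⁻¹ ^ e m) (fun m => hp_pos _)
    (fun m m' h => hp_anti (e3 h))
    ((tendsto_pow_atTop_nhds_zero_of_lt_one (by norm_num) (by norm_num)).comp e5)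
  exact ⟨f, fun b m => by rw [hf, one_mul]; exact hp_anti (e1 m b),
    fun b => by rw [hf]; exact hp_anti (e4 b)⟩

lemma exists_branch (S : Set (List Bool)) (h : ∀ s ∈ S, ∀ s' ∈ S, s <+: s' ∨ s' <+: s) :
    ∃ y, ∀ s ∈ S, s = pf y s.length := by
  have : ∀ n, ∃ b, ∀ s ∈ S, ∀ hn : n < s.length, s[n] = b := by
    intro n
    by_cases e : ∃ s ∈ S, n < s.length
    · obtain ⟨s0, e1, e2⟩ := e
      refine ⟨s0[n], fun s hs hn => ?_⟩
      rcases h s hs s0 e1 with e | e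
      · exact e.getElem hn
      · exact (e.getElem e2).symm
    · exact ⟨false, fun s hs hn => absurd ⟨s, hs, hn⟩ e⟩
  choose y hy using this
  exact ⟨y, fun s hs => List.ext_getElem (by simp) fun n h1 _ => by simp [pf, hy n s hs h1]⟩

lemma exists_ultra (e : Fam) :
    ∃ V : Ultrafilter ℕ, (V : Filter ℕ) ≤ atTop ∧ ∀ᶠ τ in V, fam τ = e := by
  have : (atTop ⊓ 𝓟 {τ | fam τ = e}).NeBot := frequently_iff_neBot.mp
    (frequently_atTop.mpr fun n => fam_freq e n)
  obtain ⟨V, hV⟩ := Ultrafilter.exists_le (atTop ⊓ 𝓟 {τ | fam τ = e})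
  exact ⟨V, hV.trans inf_le_left, le_principal_iff.mp (hV.trans inf_le_right)⟩

/-- The set of gauge sequences attached to a tree. -/
def BX (T : List Bool → (ℕ → ℕ) → Prop) (g : ℕ → ℝ) : Prop :=
  (∃ i, Single i g) ∨ ∃ G, Valid G ∧ ¬ T G.1.2 (tG G) ∧ Pos (SG G).tree g

noncomputable def ccG (G : GG) (j : ℕ) : ℕ := XX (Co (Alw G.1)) j + XX (Co (Del G.1)) j

lemma ccG_le (G : GG) (j : ℕ) : ccG G j ≤ 2 * Gam j := by
  have := XX_le (Co (Alw G.1)) j
  have := XX_le (Co (Del G.1)) j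
  unfold ccG; omega

lemma ccG_bet (G : GG) (j : ℕ) : ccG G j + j ≤ bet j := by
  have := ccG_le G j
  unfold bet hh; omega

theorem round_G {c : Ctx} {T : List Bool → (ℕ → ℕ) → Prop} {V : Fam → Ultrafilter ℕ}
    (hV : ∀ e, (V e : Filter ℕ) ≤ atTop ∧ ∀ᶠ τ in V e, fam τ = e)
    {P : (ℕ → ℕ) → Fam → Set Br}
    (hP : ∀ a e, Tendsto (fun τ => (c.μ a).real (P a e ∩ Light c a (kk (Co (Del e)) τ a))) (V e)
      (𝓝 0) ∧ ∀ Ξ, Tendsto (fun τ => (c.μ a).real (Ξ ∩ Light c a (kk (Co (Del e)) τ a))) (V e)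
      (𝓝 0) → (c.μ a).real (Ξ \ P a e) = 0)
    (hZ : ∀ a ξ d, ξ ∈ P a d → (∀ e, ξ ∈ P a e → e ∈ Alw d) →
      ∀ t, (∀ m < d.2.length, c.Z a ξ m ≤ t m) → T d.2 t)
    {G : GG} (h1 : Valid G) (h2 : ¬ T G.1.2 (tG G)) (σ : State c) {ε : ℝ} (hε : 0 < ε) :
    ∃ σ' : State c, σ'.Le σ ∧ σ'.Met (Co (Del G.1)) (PG G) (ccG G) ε := by
  obtain ⟨σ1, l1, hc⟩ := σ.exists_const
    (p := fun a (m : Fin G.1.2.length) => (Sat (eG G m).2.1 a, Sat (eG G m).2.2 a))
  by_cases h : ∃ w ∈ PG G, ∀ i, ∀ a ∈ (σ1.nd i).X, ¬ Sat w a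
  · obtain ⟨w, e1, e2⟩ := h
    obtain ⟨σ2, l2, e3⟩ := σ1.exists_met_of_unsat (Co (Del G.1)) (ccG_bet G) e1 e2 hε
    exact ⟨σ2, l2.trans l1, e3⟩
  push Not at h
  have hz : ∀ m < G.1.2.length, tG G m ∈ σ1.Zs := by
    intro m hm
    obtain ⟨i, a, ha, e⟩ := h _ ⟨m, hm, Or.inl rfl⟩
    obtain ⟨i', a', ha', e'⟩ := h _ ⟨m, hm, Or.inr rfl⟩
    have hne : i ≠ i' := by
      rintro rfl
      have e2 := (Prod.mk.inj (congrFun (hc i a ha a' ha') ⟨m, hm⟩)).2
      exact (h1.1 m hm a a e (e2 ▸ e')).1 rfl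
    obtain ⟨τ, e1, e2⟩ := σ1.sep i i' hne
    obtain ⟨e3, e4⟩ := e2 a ha a' ha'
    obtain ⟨e5, e6⟩ := h1.1 m hm a a' e e'
    have f1 : ¬ (eG G m).1 < 2 * τ := fun f => e5 (e3 _ f)
    have f2 : ¬ 2 * τ + 1 < (eG G m).1 := fun f => e4 (e6 _ f (by omega))
    rwa [show tG G m = τ by unfold tG; omega]
  obtain ⟨σ2, l2, ht⟩ := σ1.exists_typed (C := Option {e // e ∉ Alw G.1})
    (fun θ a => θ.elim (P a G.1)ᶜ fun e => P a e.1) (by
      intro i a ha ξ hξ
      by_contra hn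
      push Not at hn
      refine h2 (hZ a ξ G.1 (not_not.mp (hn none)) (fun e he => ?_) _ fun m hm => ?_)
      · by_contra f
        exact hn (some ⟨e, f⟩) he
      · refine σ1.zb i a ha ξ hξ _ (hz m hm) m ?_
        refine (card_range m).ge.trans (card_le_card_of_injOn (tG G) (fun u hu => ?_)
          fun u hu v hv e => ?_)
        · have hu : u < m := mem_range.mp hu
          exact mem_filter.mpr ⟨hz u (by omega), h1.2 u m hu hm⟩
        · have hu : u < m := mem_range.mp hu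
          have hv : v < m := mem_range.mp hv
          rcases lt_trichotomy u v with f | f | f
          · exact absurd e (h1.2 u v f (by omega)).ne
          · exact f
          · exact absurd e (h1.2 v u f (by omega)).ne')
  obtain ⟨σ3, l3, e3⟩ := σ2.exists_met (A := Co (Del G.1)) (PG G) (fun κ e => Or.inl e)
    (ccG_bet G) (by
      rintro N d ok ⟨i, hi⟩
      obtain ⟨_ | e, hθ⟩ := ht i
      · refine kill_light ok (hV G.1).1 (ccG_le G) fun a _ Ξ e1 e2 => ?_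
        have := (hP a G.1).2 Ξ e2
        rwa [sdiff_eq_left.mpr
          (Set.subset_compl_iff_disjoint_right.mp (e1.trans ((hi.2 a).trans (hθ a))))] at this
      · refine kill_heavy ok (hV e).1 (A' := Co (Del e)) ((hV e).2.mono fun τ hτ => ?_)
          fun a _ => squeeze_zero (fun _ => measureReal_nonneg) (fun τ => measureReal_mono
            (Set.inter_subset_inter_left _ ((hi.2 a).trans (hθ a)))) (hP a e).1
        have f0 : fam (2 * τ / 2) = e := by rwa [show 2 * τ / 2 = τ by omega]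
        have f1 : 2 * τ ∉ Co (Alw G.1) := fun f => f.elim (by omega) fun f => e.2 (f0 ▸ f)
        have f2 : 2 * τ ∉ Co (Del G.1) := fun f =>
          f1 (Co_mono (fun u hu => hu.imp_right fun hu => ⟨hu.1, Or.inl hu.2⟩) f)
        refine ⟨Or.inr (f0 ▸ Or.inr ⟨rfl, List.prefix_refl _⟩), ?_⟩
        have := XX_le (Co (Alw G.1)) (2 * τ)
        have := XX_le (Co (Del G.1)) (2 * τ)
        rw [ccG, XX_succ, XX_succ, if_neg f1, if_neg f2]
        omega) hε
  exact ⟨σ3, l3.trans (l2.trans l1), e3⟩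

theorem exists_attack {c : Ctx} {τ0 : ℕ → ℕ → Prop} (h0 : ∀ m r n, τ0 (m + r) n → τ0 m (n / 2 ^ r))
    (h1 : ∀ a m n, 0 < (c.μ a).real (cs m n) → τ0 m n)
    (h2 : ¬ Null {a | a ∈ Tags ∧ 0 < (c.μ a).real Set.univ}) {ι : Type} [Countable ι]
    (A : ι → Set ℕ) (P : ι → Set Wd) (cc : ι → ℕ → ℕ) (i0 : ι)
    (h3 : ∀ i (σ : State c) (ε : ℝ), 0 < ε → ∃ σ' : State c, σ'.Le σ ∧ σ'.Met (A i) (P i) (cc i) ε) :
    ∃ f : Gauge, Pos τ0 (gs f) ∧ ∀ i (ε : ℝ), 0 < ε → ∀ a' ∈ Tags, ∃ k,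
      low (A i) (P i) (tst k) a' ∧ gs f (mid k) ≤ ε * 2⁻¹ ^ (BB k + cc i (stg k)) := by
  obtain ⟨q, hq⟩ := pigeon (C := ℕ) h2 (p := fun a q => 1 ≤ q * (c.μ a).real Set.univ)
    fun a ha => (exists_nat_ge (1 / (c.μ a).real Set.univ)).imp fun q e => (div_le_iff₀ ha.2).mp e
  have c0 : cs 0 0 = Set.univ := Set.eq_univ_of_forall fun _ => rfl
  let σ0 : State c :=
    { ι := Unit
      nd := fun _ => ⟨_, fun _ => Set.univ, fun n => if n = 0 then 1 else 0, q⟩
      N := 0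
      Zs := ∅
      ok := fun _ => ⟨hq, fun a ha => ha.1.1, by positivity,
        fun n => by dsimp only; split_ifs <;> norm_num, fun a ha n => by
          dsimp only
          split_ifs with e
          · rw [e, c0, Set.inter_self]; exact ha.2
          · exact mul_nonneg (by positivity) measureReal_nonneg⟩
      sep := fun i i' e => absurd rfl e
      zb := fun _ _ _ _ _ _ e => absurd e (notMem_empty _) }
  have : Nonempty (ι × ℕ) := ⟨(i0, 0)⟩
  obtain ⟨en, hen⟩ := exists_surjective_nat (ι × ℕ)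
  have step : ∀ (j : ℕ) (σ : State c), ∃ σ' : State c, σ'.Le σ ∧ σ.N < σ'.N ∧
      σ'.Met (A (en j).1) (P (en j).1) (cc (en j).1) (1 / ((en j).2 + 1)) := by
    intro j σ
    obtain ⟨σ1, l1, e1, -⟩ := σ.exists_refine (σ.N + 1)
    obtain ⟨σ2, l2, e2⟩ := h3 (en j).1 σ1 (1 / ((en j).2 + 1)) (by positivity)
    exact ⟨σ2, l2.trans l1, lt_of_lt_of_le e1 l2.1, e2⟩
  choose F hF1 hF2 hF3 using step
  obtain ⟨σ, s0, s1⟩ : ∃ σ : ℕ → State c, σ 0 = σ0 ∧ ∀ j, σ (j + 1) = F j (σ j) :=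
    ⟨fun j => Nat.rec σ0 F j, rfl, fun _ => rfl⟩
  have hN : StrictMono fun j => (σ j).N :=
    strictMono_nat_of_lt_succ fun j => by rw [s1]; exact hF2 _ _
  obtain ⟨ν, n1, n2⟩ := exists_flow_of_levels _ hN (fun j => (σ j).Ω)
    (fun j => (σ j).Ω_nonneg) fun j n => by rw [s1]; exact ((hF1 j (σ j)).2.1 n).symm
  have n3 : ∀ n, ν 0 n = if n = 0 then 1 else 0 := fun n => by
    rw [n2 0 0 n (Nat.zero_le _), s0]
    simp [σ0, State.Ω]
  have n4 : ∀ m, BddAbove (Set.range (ν m)) := fun m => ⟨1, by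
    rintro _ ⟨n, rfl⟩
    have := n1.le_anc m 0 n
    rw [zero_add, n3] at this
    refine this.trans ?_
    split_ifs <;> norm_num⟩
  set g : ℕ → ℝ := fun m => ⨆ n, ν m n with hg
  have g1 : ∀ m n, ν m n ≤ g m := fun m n => le_ciSup (n4 m) n
  have g2 : Antitone g := antitone_nat_of_succ_le fun m =>
    ciSup_le fun n => (n1.le_anc 1 m n).trans (g1 _ _)
  have g3 : ∀ m, 0 < g m := fun m => by
    have := n1.eq_ms m 0 0
    rw [n3, if_pos rfl, zero_add] at this
    obtain ⟨n, -, e⟩ := exists_of_ms_pos (one_pos.trans_eq this)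
    exact e.trans_le (g1 _ _)
  have g4 : ∀ i (ε : ℝ), 0 < ε → ∀ a' ∈ Tags, ∃ k,
      low (A i) (P i) (tst k) a' ∧ g (mid k) ≤ ε * 2⁻¹ ^ (BB k + cc i (stg k)) := by
    intro i ε hε a' ha'
    obtain ⟨n, hn⟩ := exists_nat_one_div_lt hε
    obtain ⟨j, hj⟩ := hen (i, n)
    have := hF3 j (σ j)
    rw [← s1, hj] at this
    obtain ⟨k, k1, k2, k3⟩ := this a' ha'
    refine ⟨k, k1, ciSup_le fun n' => ?_⟩
    rw [n2 (j + 1) _ _ k2]
    exact (k3 n').trans (mul_le_mul_of_nonneg_right hn.le (hp_pos _).le)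
  have g5 : Tendsto g atTop (𝓝 0) := by
    refine tendsto_order.mpr ⟨fun x hx => Eventually.of_forall fun m => hx.trans (g3 m),
      fun x hx => ?_⟩
    obtain ⟨k, -, hk⟩ := g4 i0 (x / 2) (by linarith) (fun _ => 0) fun κ => by positivity
    have : (2⁻¹ : ℝ) ^ (BB k + cc i0 (stg k)) ≤ 1 := pow_le_one₀ (by norm_num) (by norm_num)
    filter_upwards [eventually_ge_atTop (mid k)] with m hm
    nlinarith [g2 hm]
  obtain ⟨f, hf⟩ := exists_gauge g3 g2 g5
  rw [← funext hf] at g4 g1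
  refine ⟨f, ⟨ν, n1, by simp [n3], g1, fun m n hp => ?_⟩, g4⟩
  have e0 : m ≤ (σ m).N := hN.id_le m
  rw [n2 m m n e0] at hp
  obtain ⟨n', e1, e2⟩ := exists_of_ms_pos hp
  obtain ⟨i, -, e3⟩ := exists_lt_of_sum_lt (s := univ) (f := fun _ => (0 : ℝ))
    (g := fun i => ((σ m).nd i).ω n') (by simpa [State.Ω] using e2)
  obtain ⟨a, ha⟩ := nonempty_of_not_null ((σ m).ok i).nn
  have e4 := pos_of_mul_pos_right (e3.trans_le (((σ m).ok i).le a ha n')) ((σ m).ok i).L0
  have e5 := h1 a _ _ (e4.trans_le (measureReal_mono Set.inter_subset_right))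
  rw [← e1]
  apply h0
  rwa [Nat.add_sub_cancel' e0]

theorem negative {T : List Bool → (ℕ → ℕ) → Prop}
    (hT : ∀ y, ∃ z : ℕ → ℕ, ∀ k t, (∀ m < k, z m ≤ t m) → T (pf y k) t) {C : Set ℝ}
    (hC : IsClosed C) (h : ∀ f : Gauge, 0 < haus f C ↔ BX T (gs f)) : False := by
  choose z hz using hT
  choose fa hf1 hf2 using exists_gauge_pat
  obtain ⟨s, hs⟩ := pigeon (C := ℤ) not_null_Tags (p := fun a s => Pos (tr C s) (gs (fa a)))
    fun a ha => (haus_pos_iff _ hC).mp ((h _).mpr (Or.inl ⟨0, 0, a, ha, by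
      simpa using (hf1 a).mono (pat_anti (Set.subset_univ _) a)⟩))
  have hμ : ∀ a, ∃ μ : Measure Br, IsFiniteMeasure μ ∧
      (Pos (tr C s) (gs (fa a)) → 0 < μ.real Set.univ) ∧
      (∀ m n, μ.real (cs m n) ≤ gs (fa a) m) ∧ ∀ m n, 0 < μ.real (cs m n) → tr C s m n := by
    intro a
    by_cases e : Pos (tr C s) (gs (fa a))
    · obtain ⟨ν, n1, n2, n3, n4⟩ := e
      obtain ⟨μ, m1, m2, m3⟩ := realize n1 n2
      exact ⟨μ, m1, fun _ => m2, fun m n => (m3 m n).trans (n3 m n),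
        fun m n e => n4 m n (e.trans_le (m3 m n))⟩
    · exact ⟨0, inferInstance, fun e' => absurd e' e, fun m n => by simpa using gs_nonneg _ _,
        fun m n e => by simp at e⟩
  choose μ m1 m2 m3 m4 using hμ
  let mk : ((ℕ → ℕ) → Br → ℕ → ℕ) → Ctx := fun Z =>
    { μ := μ
      fin := m1
      Z := Z
      tot := fun a => by
        have := (m3 a 0 0).trans (hf2 a 0)
        rwa [pat_zero, pow_zero, show cs 0 0 = Set.univ from
          Set.eq_univ_of_forall fun _ => rfl] at this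
      lo := fun a k n => (m3 a _ n).trans ((hf2 a _).trans (hp_anti (by
        unfold pat
        rw [show (2 * k + 1) / 2 = k by omega]
        omega)))
      hi := fun a k n e => (m3 a _ n).trans ((hf2 a _).trans (hp_anti (by
        unfold pat
        rw [show (2 * k + 1) / 2 = k by omega,
          if_pos ⟨by omega, fun e' => e'.elim (fun e' => e e'.2) id⟩]
        omega))) }
  choose V hV using exists_ultra
  choose P hP using fun a e => exhaust ((mk 0).μ a)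
    (fun τ => measurableSet_Light (mk 0) a (kk (Co (Del e)) τ a)) (V e)
  choose y hy using fun a ξ => exists_branch
    {u | ∃ i, ξ ∈ P a (i, u) ∧ ∀ e, ξ ∈ P a e → e ∈ Alw (i, u)} (by
      rintro u ⟨i, e1, e2⟩ u' ⟨i', e3, e4⟩
      rcases e2 _ e3 with f | f <;> rcases e4 _ e1 with f' | f'
      · exact absurd f (not_lt.mpr f'.le)
      · exact f'.2
      · exact f.2.symm
      · exact f'.2)
  obtain ⟨f, f1, f2⟩ := exists_attack (c := mk fun a ξ => z (y a ξ)) (τ0 := tr C s)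
    (fun m r n e => tr_anc e) m4 (fun e => hs (e.mono fun a ha => ⟨ha.1, m2 a ha.2⟩))
    (ι := Option {G : GG // Valid G ∧ ¬ T G.1.2 (tG G)})
    (fun o => o.elim (Co ∅) fun G => Co (Del G.1.1)) (fun o => o.elim ∅ fun G => PG G.1)
    (fun o => o.elim (fun _ => 0) fun G => ccG G.1) none (by
      rintro (_ | G) σ ε hε
      · exact σ.exists_met (cc := fun _ => 0) ∅ (fun κ e => Or.inl e) (fun j => by unfold bet; omega)
          (fun N d ok _ => kill_triv ok fun κ e => Or.inl e) hε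
      · refine round_G (c := mk fun a ξ => z (y a ξ)) hV hP (fun a ξ d e1 e2 t e3 => ?_) G.2.1
          G.2.2 σ hε
        rw [hy a ξ d.2 ⟨d.1, e1, e2⟩]
        exact hz _ _ t e3)
  rcases (h f).mp ((haus_pos_iff _ hC).mpr ⟨s, f1⟩) with ⟨i, M, a, ha, hd⟩ | ⟨G, e1, e2, e3⟩
  · obtain ⟨k, k1, k2⟩ := f2 none (1 / (M + 2)) (by positivity) a ha
    have := hd (2 * k + 1) (mid k)
    rw [pat_odd (Co (Up i)) ∅ ∅ a k (k1.imp_left fun e =>
      ⟨fun p hp => Co_mono (Set.empty_subset _) (e.1 p hp), e.2⟩), mid, Nat.sub_self, XX_empty,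
      add_zero] at this
    have e4 := this.trans (mul_le_mul_of_nonneg_left k2 (by positivity))
    simp only [Option.elim] at e4
    rw [← mul_assoc, le_mul_iff_one_le_left (hp_pos _), mul_one_div,
      one_le_div (by positivity)] at e4
    linarith
  · obtain ⟨d, d0, a, ha, hd⟩ := thread_of_pos e3
    obtain ⟨k, k1, k2⟩ := f2 (some ⟨G, e1, e2⟩) (d / 2) (by positivity) a ha
    have := le_of_mul_le_mul_right ((hd k k1).trans k2) (hp_pos _)
    linarith

end Pool.Agent.Lib.MP_409048_lc
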