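import Mathlib
import Pool.Agent.Lib.MP_409048_lc.Negative

set_option autoImplicit false

namespace Pool.Agent.Lib.MP_409048_lc

open Finset Filter Topology

lemma continuous_pat (A E : Set ℕ) (P : Set Wd) (b : ℕ) : Continuous fun a => pat A E P a b := by
  refine IsLocallyConstant.continuous ((IsLocallyConstant.iff_eventually_eq _).mpr fun a => ?_)
  have : ∀ᶠ a' in 𝓝 a, ∀ κ ∈ range (stg (b / 2)), a' κ = a κ :=
    (eventually_all_finset _).mpr fun κ _ =>
      (continuous_apply κ).continuousAt.eventually ((isOpen_discrete {a κ}).mem_nhds rfl)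
  filter_upwards [this] with a' h
  rw [← pat_res, res_congr fun κ e _ => h κ (mem_range.mpr e), pat_res]

theorem single_fsigma (i : ℕ) : ∃ G : ℕ → Set Gauge, (∀ n, IsClosed (G n)) ∧
    {f | Single i (gs f)} = ⋃ n, G n := by
  refine ⟨fun M => {f | ∃ a ∈ Tags, Dom len (pat (Co (Up i)) ∅ ∅ a) (gs f) (M + 1)}, fun M => ?_,
    by ext f; simp [Single]⟩
  have hT : IsCompact Tags := by
    have : Tags = Set.pi Set.univ fun κ => Set.Iio (2 ^ gam κ) := by ext a; simp [Tags]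
    rw [this]
    exact isCompact_univ_pi fun κ => (Set.finite_Iio _).isCompact
  have : CompactSpace Tags := isCompact_iff_compactSpace.mp hT
  have h1 : IsClosed {p : Gauge × Tags | Dom len (pat (Co (Up i)) ∅ ∅ p.2) (gs p.1) (M + 1)} := by
    simp only [Dom, Set.ofPred_forall]
    refine isClosed_iInter fun b => isClosed_iInter fun m => isClosed_le ?_
      (continuous_const.mul ((continuous_gs m).comp continuous_fst))
    exact (continuous_of_discreteTopology (f := fun n => (2⁻¹ : ℝ) ^ (n + (m - Lv len b)))).comp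
      ((continuous_pat _ _ _ b).comp (continuous_subtype_val.comp continuous_snd))
  have h2 := isClosedMap_fst_of_compactSpace _ h1
  have : {f | ∃ a ∈ Tags, Dom len (pat (Co (Up i)) ∅ ∅ a) (gs f) (M + 1)} = Prod.fst ''
      {p : Gauge × Tags | Dom len (pat (Co (Up i)) ∅ ∅ p.2) (gs p.1) (M + 1)} := by
    ext f
    exact ⟨fun ⟨a, e1, e2⟩ => ⟨(f, ⟨a, e1⟩), e2, rfl⟩, fun ⟨p, e1, e2⟩ => e2 ▸ ⟨p.2.1, p.2.2, e1⟩⟩
  beta_reduce
  rw [this]
  exact h2

theorem BX_iff {T : List Bool → (ℕ → ℕ) → Prop}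
    (hT : ∀ s t t', (∀ m < s.length, t m = t' m) → T s t → T s t') {y : ℕ → Bool}
    (hy : ∀ t, ∃ k, ¬ T (pf y k) t) (g : ℕ → ℝ) :
    BX T g ↔ ∃ i : ℕ ⊕ {G : GG // Valid G ∧ ¬ T G.1.2 (tG G)},
      Pos (i.elim (fun i => (Sch (Co (DelY i y)) ∅ ∅).tree) fun G => (SG G.1).tree) g := by
  constructor
  · rintro (⟨i, h⟩ | ⟨G, h1, h2, h3⟩)
    · exact ⟨Sum.inl (i + 1), h.pos y⟩
    · exact ⟨Sum.inr ⟨G, h1, h2⟩, h3⟩
  · rintro ⟨i | G, h⟩
    · exact (dichotomy hT hy h).imp_left fun e => ⟨i, e⟩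
    · exact Or.inr ⟨G.1, G.2.1, G.2.2, h⟩

end Pool.Agent.Lib.MP_409048_lc
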