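import Mathlib
import Pool.Agent.Lib.MP_409048_lc.Code

set_option autoImplicit false

namespace Pool.Agent.Lib.MP_409048_lc

open Filter Topology MeasureTheory
open scoped NNReal

lemma exists_polish_param : ∃ (β : Type) (_ : TopologicalSpace β) (_ : PolishSpace β)
    (ψ : β → Gauge), Continuous ψ ∧ Function.Surjective ψ := by
  borelize C(ℝ≥0, ℝ≥0)
  have ev : ∀ t : ℝ≥0, Continuous fun f : C(ℝ≥0, ℝ≥0) => f t := fun t => by fun_prop
  have h : MeasurableSet {f : C(ℝ≥0, ℝ≥0) | Monotone f ∧ f 0 = 0 ∧ ∀ t, 0 < t → 0 < f t} := by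
    have : {f : C(ℝ≥0, ℝ≥0) | Monotone f ∧ f 0 = 0 ∧ ∀ t, 0 < t → 0 < f t} =
        ((⋂ s, ⋂ t, ⋂ _ : s ≤ t, {f | f s ≤ f t}) ∩ {f | f 0 = 0}) ∩
          ⋂ m : ℕ, {f | 0 < f (2⁻¹ ^ m)} := by
      ext f
      simp only [Set.mem_ofPred_eq, Set.mem_inter_iff, Set.mem_iInter, and_assoc]
      refine and_congr_right fun h1 => and_congr_right fun _ =>
        ⟨fun h m => h _ (by positivity), fun h t ht => ?_⟩
      obtain ⟨m, hm⟩ := NNReal.exists_pow_lt_of_lt_one ht (show (2⁻¹ : ℝ≥0) < 1 by norm_num)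
      exact (h m).trans_le (h1 hm.le)
    rw [this]
    exact ((isClosed_iInter fun s => isClosed_iInter fun t => isClosed_iInter fun _ =>
      isClosed_le (ev s) (ev t)).inter (isClosed_eq (ev 0) continuous_const)).measurableSet.inter
      (MeasurableSet.iInter fun m => (isOpen_lt continuous_const (ev _)).measurableSet)
  obtain ⟨β, i1, i2, φ, h1, h2⟩ := analyticSet_iff_exists_polishSpace_range.mp h.analyticSet
  have h3 : ∀ b, Monotone (φ b) ∧ φ b 0 = 0 ∧ ∀ t, 0 < t → 0 < φ b t := fun b =>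
    (h2 ▸ Set.mem_range_self b :
      φ b ∈ {f : C(ℝ≥0, ℝ≥0) | Monotone f ∧ f 0 = 0 ∧ ∀ t, 0 < t → 0 < f t})
  refine ⟨β, i1, i2, fun b => ⟨φ b, h3 b⟩, h1.subtype_mk _, fun f => ?_⟩
  obtain ⟨b, hb⟩ : f.1 ∈ Set.range φ := h2 ▸ f.2
  exact ⟨b, Subtype.ext hb⟩

lemma measurable_cN {X : Type} [MeasurableSpace X] {τ : X → ℕ → ℕ → Prop} {g : X → ℕ → ℝ}
    (hτ : ∀ m n, MeasurableSet {x | τ x m n}) (hg : ∀ m, Measurable fun x => g x m) (d m n : ℕ) :
    Measurable fun x => cN (τ x) (g x) d m n := by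
  have h : ∀ m n, Measurable fun x => cN (τ x) (g x) 0 m n := by
    intro m n
    simp only [cN]
    exact Measurable.ite (hτ m n) (hg m) measurable_const
  induction d generalizing m n with
  | zero => exact h m n
  | succ d ih => exact (h m n).min ((ih _ _).add (ih _ _))

theorem member' (O : ℕ → Set Gauge) (hO : TopologicalSpace.IsTopologicalBasis (Set.range O)) :
    IsSigma12 (realCodes O) := by
  classical
  obtain ⟨β, i1, i2, ψ, h1, h2⟩ := exists_polish_param
  borelize β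
  set τ : (ℕ → ℕ) → ℤ → ℕ → ℕ → Prop := fun e a m n => e (Encodable.encode (a, m, n)) = 1 with hτ
  refine ⟨{p | ∀ b, ψ b ∈ coded O p.1 ↔ ∃ a, Pos (τ p.2 a) (gs (ψ b))}, ?_, ?_⟩
  · have m1 : MeasurableSet {q : ((ℕ → ℕ) × (ℕ → ℕ)) × β | ψ q.2 ∈ coded O q.1.1} := by
      simp only [coded, Set.mem_iUnion, Set.mem_compl_iff, Set.ofPred_exists, not_exists,
        Set.ofPred_forall]
      refine MeasurableSet.iUnion fun n => MeasurableSet.iInter fun j => MeasurableSet.compl ?_
      have : {q : ((ℕ → ℕ) × (ℕ → ℕ)) × β | ψ q.2 ∈ O (q.1.1 (Nat.pair n j))} =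
          ⋃ i, {q | q.1.1 (Nat.pair n j) = i} ∩ {q | ψ q.2 ∈ O i} := by
        ext q; simp
      change MeasurableSet {q : ((ℕ → ℕ) × (ℕ → ℕ)) × β | ψ q.2 ∈ O (q.1.1 (Nat.pair n j))}
      rw [this]
      exact MeasurableSet.iUnion fun i => (measurableSet_eq_fun
        ((measurable_pi_apply _).comp (measurable_fst.comp measurable_fst)) measurable_const).inter
        (measurable_snd ((hO.isOpen ⟨i, rfl⟩).preimage h1).measurableSet)
    have m2 : MeasurableSet
        {q : ((ℕ → ℕ) × (ℕ → ℕ)) × β | ∃ a, Pos (τ q.1.2 a) (gs (ψ q.2))} := by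
      simp only [Set.ofPred_exists, pos_iff_cap (gs_nonneg _)]
      refine MeasurableSet.iUnion fun a => measurableSet_lt measurable_const
        (Measurable.iInf fun d => measurable_cN (fun m n => measurableSet_eq_fun
          ((measurable_pi_apply _).comp (measurable_snd.comp measurable_fst)) measurable_const)
          (fun m => ((continuous_gs m).comp h1).measurable.comp measurable_snd) d 0 0)
    have a1 := (m1.iff m2).compl.analyticSet.image_of_continuous continuous_fst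
    have : {p : (ℕ → ℕ) × (ℕ → ℕ) | ∀ b, ψ b ∈ coded O p.1 ↔ ∃ a, Pos (τ p.2 a) (gs (ψ b))}ᶜ =
        Prod.fst '' {q : ((ℕ → ℕ) × (ℕ → ℕ)) × β |
          ψ q.2 ∈ coded O q.1.1 ↔ ∃ a, Pos (τ q.1.2 a) (gs (ψ q.2))}ᶜ := by
      ext p
      simp only [Set.mem_compl_iff, Set.mem_ofPred_eq, not_forall, Set.mem_image, Prod.exists,
        exists_and_right, exists_eq_right]
    rw [this]
    exact a1
  · ext c
    simp only [Set.mem_image, Prod.exists, exists_and_right, exists_eq_right, Set.mem_ofPred_eq]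
    constructor
    · rintro ⟨C, c1, c2⟩
      refine ⟨fun k => if ∃ x : ℤ × ℕ × ℕ, Encodable.encode x = k ∧ tr C x.1 x.2.1 x.2.2
        then 1 else 0, fun b => ?_⟩
      rw [c2]
      refine (haus_pos_iff _ c1).trans (exists_congr fun a => ?_)
      have : τ (fun k => if ∃ x : ℤ × ℕ × ℕ, Encodable.encode x = k ∧ tr C x.1 x.2.1 x.2.2
          then 1 else 0) a = tr C a := by
        funext m n
        simp [hτ]
      rw [this]
    · rintro ⟨e, he⟩
      obtain ⟨C, c1, c2⟩ := exists_closed_union' (τ e)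
      refine ⟨C, c1, c2 ▸ Set.ext fun f => ?_⟩
      obtain ⟨b, rfl⟩ := h2 f
      exact he b

end Pool.Agent.Lib.MP_409048_lc
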