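import Mathlib
import Pool.Agent.Lib.MP_409048_lc.Defs
import Pool.Agent.Lib.MP_409048_lc.Positive

set_option autoImplicit false

namespace Pool.Agent.Lib.MP_409048_lc

open Filter Topology MeasureTheory

lemma exists_decoder : ∃ d : (ℕ → Bool) → ℕ → ℕ, Measurable d ∧ Function.Surjective d := by
  refine ⟨fun y i => sInf {n | y (Nat.pair i n) = true}, measurable_pi_lambda _ fun i => ?_,
    fun w => ⟨fun p => decide (w (Nat.unpair p).1 = (Nat.unpair p).2), funext fun i => ?_⟩⟩
  · refine measurable_to_countable' fun n => ?_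
    have m : ∀ k b, MeasurableSet {y : ℕ → Bool | y (Nat.pair i k) = b} := fun k b =>
      measurableSet_eq_fun (measurable_pi_apply _) measurable_const
    have : (fun y : ℕ → Bool => sInf {n | y (Nat.pair i n) = true}) ⁻¹' {n} =
        ({y | y (Nat.pair i n) = true} ∩ ⋂ k < n, {y | y (Nat.pair i k) = false}) ∪
          ({_y | n = 0} ∩ ⋂ k, {y | y (Nat.pair i k) = false}) := by
      ext y
      simp only [Set.mem_preimage, Set.mem_singleton_iff, Set.mem_union, Set.mem_inter_iff,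
        Set.mem_ofPred_eq, Set.mem_iInter]
      constructor
      · rintro rfl
        rcases Set.eq_empty_or_nonempty {n | y (Nat.pair i n) = true} with h | h
        · exact Or.inr ⟨by rw [h, Nat.sInf_empty], fun k => by
            simpa using Set.eq_empty_iff_forall_notMem.mp h k⟩
        · exact Or.inl ⟨Nat.sInf_mem h, fun k hk => by simpa using Nat.notMem_of_lt_sInf hk⟩
      · rintro (⟨h1, h2⟩ | ⟨rfl, h⟩)
        · refine le_antisymm (Nat.sInf_le h1) (le_csInf ⟨n, h1⟩ fun k hk => ?_)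
          by_contra hc
          have := h2 k (not_le.mp hc)
          simp_all
        · rw [Nat.sInf_eq_zero]
          exact Or.inr (Set.eq_empty_of_forall_notMem fun k => by simp [h k])
    rw [this]
    exact ((m _ _).inter (MeasurableSet.iInter fun k => MeasurableSet.iInter fun _ => m _ _)).union
      ((MeasurableSet.const _).inter (MeasurableSet.iInter fun k => m _ _))
  · have : {n | decide (w (Nat.unpair (Nat.pair i n)).1 = (Nat.unpair (Nat.pair i n)).2) = true}
        = {w i} := by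
      ext n; simp [eq_comm]
    beta_reduce
    rw [this, csInf_singleton]

theorem normal_form' {A : Set (ℕ → ℕ)} (hA : IsSigma12 A) :
    ∃ T : (ℕ → ℕ) → List Bool → (ℕ → ℕ) → Prop, (∀ s t, IsClopen {x | T x s t}) ∧
      (∀ x s t t', (∀ m < s.length, t m = t' m) → T x s t → T x s t') ∧
      (∀ x ∈ A, ∃ y, ∀ t, ∃ k, ¬ T x (pf y k) t) ∧
      ∀ x ∉ A, ∀ y, ∃ z : ℕ → ℕ, ∀ k t, (∀ m < k, z m ≤ t m) → T x (pf y k) t := by
  obtain ⟨P, hP, rfl⟩ := hA
  obtain ⟨d, d1, d2⟩ := exists_decoder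
  have : TopologicalSpace.IsCompletelyMetrizableSpace (ℕ → Bool) := inferInstance
  have : PolishSpace (ℕ → Bool) := inferInstance
  have h1 : AnalyticSet {p : (ℕ → ℕ) × (ℕ → Bool) | (p.1, d p.2) ∉ P} := by
    have a1 : AnalyticSet ((fun q : ((ℕ → ℕ) × (ℕ → Bool)) × (ℕ → ℕ) => (q.1.1, q.2)) ⁻¹' Pᶜ) :=
      hP.preimage (by fun_prop)
    have a2 : AnalyticSet {q : ((ℕ → ℕ) × (ℕ → Bool)) × (ℕ → ℕ) | q.2 = d q.1.2} :=
      MeasurableSet.analyticSet (measurableSet_eq_fun measurable_snd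
        (d1.comp (measurable_snd.comp measurable_fst)))
    have a3 := AnalyticSet.iInter (s := fun b : Bool => if b then
      (fun q : ((ℕ → ℕ) × (ℕ → Bool)) × (ℕ → ℕ) => (q.1.1, q.2)) ⁻¹' Pᶜ else
      {q : ((ℕ → ℕ) × (ℕ → Bool)) × (ℕ → ℕ) | q.2 = d q.1.2}) fun b => by
        cases b
        exacts [a2, a1]
    have a4 := a3.image_of_continuous continuous_fst
    have : {p : (ℕ → ℕ) × (ℕ → Bool) | (p.1, d p.2) ∉ P} = Prod.fst '' ⋂ b : Bool, if b then
        (fun q : ((ℕ → ℕ) × (ℕ → Bool)) × (ℕ → ℕ) => (q.1.1, q.2)) ⁻¹' Pᶜ else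
        {q : ((ℕ → ℕ) × (ℕ → Bool)) × (ℕ → ℕ) | q.2 = d q.1.2} := by
      ext p
      simp only [Set.mem_image, Set.mem_iInter, Bool.forall_bool]
      constructor
      · exact fun h => ⟨(p, d p.2), ⟨rfl, h⟩, rfl⟩
      · rintro ⟨⟨p', w⟩, ⟨e1, e2⟩, rfl⟩
        obtain rfl : w = d p'.2 := e1
        exact e2
    rwa [this]
  have h2 : ∀ x ∉ Prod.fst '' P, ∀ y, (x, d y) ∉ P := fun x hx y e => hx ⟨_, e, rfl⟩
  rw [AnalyticSet] at h1
  rcases h1 with h1 | ⟨H, H1, H2⟩
  · refine ⟨fun _ _ _ => False, fun _ _ => by simpa using isClopen_empty, fun _ _ _ _ _ => id,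
      fun _ _ => ⟨fun _ => false, fun _ => ⟨0, id⟩⟩, fun x hx y => ?_⟩
    exact absurd (h2 x hx y) (Set.eq_empty_iff_forall_notMem.mp h1 (x, y))
  refine ⟨fun x s t => ∃ w, (∀ m < s.length, w m ≤ t m ∧ (H w).1 m = x m) ∧
    s = pf (H w).2 s.length, fun s t => ?_, ?_, ?_, fun x hx y => ?_⟩
  · refine (IsLocallyConstant.iff_eventually_eq (fun x : ℕ → ℕ => ∃ w,
      (∀ m < s.length, w m ≤ t m ∧ (H w).1 m = x m) ∧ s = pf (H w).2 s.length)).mpr
      (fun x => ?_) |>.isClopen_fiber True |>.imp (by simp) (by simp)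
    have : ∀ᶠ x' in 𝓝 x, ∀ m ∈ Finset.range s.length, x' m = x m :=
      (eventually_all_finset _).mpr fun κ _ =>
        (continuous_apply κ).continuousAt.eventually ((isOpen_discrete {x κ}).mem_nhds rfl)
    filter_upwards [this] with x' h
    exact propext (exists_congr fun w => and_congr_left fun _ => forall₂_congr fun m hm => by
      rw [h m (Finset.mem_range.mpr hm)])
  · rintro x s t t' e ⟨w, e1, e2⟩
    exact ⟨w, fun m hm => e m hm ▸ e1 m hm, e2⟩
  · rintro x ⟨⟨x, y'⟩, hx, rfl⟩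
    obtain ⟨y, rfl⟩ := d2 y'
    refine ⟨y, fun t => ?_⟩
    by_contra hc
    push Not at hc
    choose w w1 w2 using hc
    simp only [length_pf] at w1 w2
    have e1 : ∀ m, ∃ v, ∀ᶠ k in hyperfilter ℕ, w k m = v := by
      intro m
      obtain ⟨v, -, hv⟩ := (Ultrafilter.eventually_exists_mem_iff (f := hyperfilter ℕ)
        (P := fun v k => w k m = v) (Set.finite_Iic (t m))).mp
        (Nat.hyperfilter_le_atTop ((eventually_gt_atTop m).mono fun k hk => ⟨_, (w1 k m hk).1, rfl⟩))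
      exact ⟨v, hv⟩
    choose v hv using e1
    have e2 : Tendsto w (hyperfilter ℕ) (𝓝 v) :=
      tendsto_pi_nhds.mpr fun m => tendsto_const_nhds.congr' ((hv m).mono fun _ e => e.symm)
    have e3 : Tendsto (fun k => H (w k)) (hyperfilter ℕ) (𝓝 (x, y)) := by
      refine Tendsto.mono_left (Tendsto.prodMk_nhds (tendsto_pi_nhds.mpr fun m => ?_)
        (tendsto_pi_nhds.mpr fun m => ?_)) Nat.hyperfilter_le_atTop
      · exact tendsto_const_nhds.congr' ((eventually_gt_atTop m).mono fun k hk => (w1 k m hk).2.symm)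
      · refine tendsto_const_nhds.congr' ((eventually_gt_atTop m).mono fun k hk => ?_)
        simpa [pf, hk] using congrArg (·[m]?) (w2 k)
    have e4 := tendsto_nhds_unique ((H1.tendsto v).comp e2) e3
    have e5 : (x, y) ∈ Set.range H := ⟨v, e4⟩
    rw [H2] at e5
    exact e5 hx
  · have e5 : (x, y) ∈ Set.range H := by rw [H2]; exact h2 x hx y
    obtain ⟨z, hz⟩ := e5
    exact ⟨z, fun k t e => ⟨z, fun m hm => ⟨e m (by simpa using hm), by rw [hz]⟩, by
      rw [hz, length_pf]⟩⟩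

end Pool.Agent.Lib.MP_409048_lc
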