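import Mathlib
import Pool.Agent.Lib.MP_409048_lc.Hard
import Pool.Agent.Lib.MP_409048_lc.Code

set_option autoImplicit false

namespace Pool.Agent.Lib.MP_409048_lc

theorem exists_reduction (O : ℕ → Set Gauge)
    (hO : TopologicalSpace.IsTopologicalBasis (Set.range O)) {A : Set (ℕ → ℕ)}
    {T : (ℕ → ℕ) → List Bool → (ℕ → ℕ) → Prop} (h1 : ∀ s t, IsClopen {x | T x s t})
    (h2 : ∀ x s t t', (∀ m < s.length, t m = t' m) → T x s t → T x s t')
    (h3 : ∀ x ∈ A, ∃ y, ∀ t, ∃ k, ¬ T x (pf y k) t)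
    (h4 : ∀ x ∉ A, ∀ y, ∃ z : ℕ → ℕ, ∀ k t, (∀ m < k, z m ≤ t m) → T x (pf y k) t) :
    ∃ r : (ℕ → ℕ) → (ℕ → ℕ), Continuous r ∧ A = r ⁻¹' realCodes O := by
  obtain ⟨r, hr, hc⟩ := exists_code' O hO (ι := ℕ ⊕ GG)
    (Sum.elim (fun i => {f | Single i (gs f)}) fun G => {f | Pos (SG G).tree (gs f)})
    (fun i => by
      rcases i with i | G
      exacts [single_fsigma i, pos_fsigma' _])
    (Sum.elim (fun _ => Set.univ) fun G => {x | Valid G ∧ ¬ T x G.1.2 (tG G)})
    (fun i => by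
      rcases i with i | G
      · exact isClopen_univ
      · by_cases h : Valid G
        · simp only [Sum.elim_inr, h, true_and]
          exact (h1 G.1.2 (tG G)).compl
        · simpa [h] using isClopen_empty)
  have e : ∀ x, coded O (r x) = {f | BX (T x) (gs f)} := by
    intro x
    rw [hc]
    ext f
    simp only [Set.mem_ofPred_eq, Sum.exists, Sum.elim_inl, Sum.elim_inr, Set.mem_univ, true_and,
      BX, and_assoc]
  refine ⟨r, hr, Set.ext fun x => ⟨fun hx => ?_, fun hx => ?_⟩⟩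
  · obtain ⟨y, hy⟩ := h3 x hx
    obtain ⟨C, c1, c2⟩ := exists_closed_union'
      fun i : ℕ ⊕ {G : GG // Valid G ∧ ¬ T x G.1.2 (tG G)} =>
        i.elim (fun i => (Sch (Co (DelY i y)) ∅ ∅).tree) fun G => (SG G.1).tree
    exact ⟨C, c1, by rw [e, c2]; exact Set.ext fun f => BX_iff (h2 x) hy _⟩
  · by_contra hn
    obtain ⟨C, c1, c2⟩ := hx
    rw [e] at c2
    exact negative (h4 x hn) c1 fun f => (Set.ext_iff.mp c2 f).symm

end Pool.Agent.Lib.MP_409048_lc
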